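import Pool.Agent.Lib.MP_399f8e_an.Sg.Defs

open Set Filter Topology Metric MeasureTheory
open scoped RealInnerProductSpace

noncomputable section

namespace Pool.Agent.Lib.MP_399f8e_an.Sg

open Rg

variable {φ : ℝ → S → S} {m M L : ℝ}

namespace AlekAux

open Gg

theorem taylor {f : E → E} (hf : ContDiff ℝ 2 f) (R : ℝ) : ∃ C : ℝ, 0 ≤ C ∧ ∀ a b : E,
    ‖a‖ ≤ R → ‖b‖ ≤ R → ‖f b - f a - fderiv ℝ f a (b - a)‖ ≤ C * ‖b - a‖ ^ 2 := by
  have h1 : ContDiff ℝ 1 (fderiv ℝ f) := hf.fderiv_right (by norm_num)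
  obtain ⟨C, hC⟩ := (isCompact_closedBall (0 : E) R).exists_bound_of_continuousOn
    (h1.continuous_fderiv one_ne_zero).continuousOn
  refine ⟨max C 0, le_max_right _ _, fun a b ha hb => ?_⟩
  have ha' : a ∈ closedBall (0 : E) R := mem_closedBall_zero_iff.2 ha
  have hb' : b ∈ closedBall (0 : E) R := mem_closedBall_zero_iff.2 hb
  have hs : segment ℝ a b ⊆ closedBall 0 R := (convex_closedBall _ _).segment_subset ha' hb'
  have hs2 : segment ℝ a b ⊆ closedBall a ‖b - a‖ := (convex_closedBall _ _).segment_subset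
    (mem_closedBall_self (norm_nonneg _)) (by rw [mem_closedBall, dist_eq_norm])
  have h2 : ∀ x ∈ segment ℝ a b, ‖fderiv ℝ f x - fderiv ℝ f a‖ ≤ max C 0 * ‖b - a‖ :=
    fun x hx => by
      have h3 := (convex_closedBall (0 : E) R).norm_image_sub_le_of_norm_fderiv_le
        (fun y _ => h1.differentiable one_ne_zero y)
        (fun y hy => (hC y hy).trans (le_max_left C 0)) ha' (hs hx)
      refine h3.trans (mul_le_mul_of_nonneg_left ?_ (le_max_right _ _))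
      have h4 := hs2 hx
      rwa [mem_closedBall, dist_eq_norm] at h4
  have h4 := (convex_segment a b).norm_image_sub_le_of_norm_fderiv_le'
    (fun y _ => hf.differentiable (by norm_num) y) h2 (left_mem_segment ℝ a b)
    (right_mem_segment ℝ a b)
  exact h4.trans (le_of_eq (by ring))

theorem inn (x y : S) : ⟪(x : E), (y : E) - x⟫ = -(‖(y : E) - x‖ ^ 2 / 2) := by
  rw [inner_sub_right, real_inner_self_eq_norm_sq, norm_sub_sq_real, norm_coe, norm_coe,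
    real_inner_comm]
  ring

theorem N_lip {z z' : E} (hz : 1 ≤ ‖z‖) : ‖(N z' : E) - N z‖ ≤ 2 * ‖z' - z‖ := by
  have e : ‖z‖ • ((N z' : E) - N z) = (‖z‖ - ‖z'‖) • (N z' : E) + (z' - z) := by
    rw [smul_sub, sub_smul, norm_smul_N, norm_smul_N]
    abel
  have h3 := congrArg norm e
  rw [norm_smul, norm_norm] at h3
  have h4 := norm_add_le ((‖z‖ - ‖z'‖) • (N z' : E)) (z' - z)
  rw [norm_smul, norm_coe, Real.norm_eq_abs, abs_sub_comm] at h4
  have h5 := abs_norm_sub_norm_le z' z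
  nlinarith [norm_nonneg ((N z' : E) - N z)]

theorem cd_Xh (hG : ContDiff ℝ 3 (Gm φ)) : ContDiff ℝ 2 (Xh φ) :=
  ((hG.fderiv_right (m := 2) (by norm_num)).comp (contDiff_const.prodMk contDiff_id)).clm_apply
    contDiff_const

theorem key (hG3 : ContDiff ℝ 3 (Gm φ)) (hφ : IsFl φ) (τ : ℝ) (P : S) (δ : E) :
    fderiv ℝ (fderiv ℝ (Gm φ)) (τ, (P : E)) (-1, Xh φ P) (0, δ) =
      -fderiv ℝ (Gm φ) (τ, (P : E)) (0, fderiv ℝ (Xh φ) P δ + ⟪(P : E), δ⟫ • Xh φ P) := by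
  have hG : ContDiff ℝ 2 (Gm φ) := hG3.of_le (by norm_num)
  have h2 : HasFDerivAt (fderiv ℝ (Gm φ)) (fderiv ℝ (fderiv ℝ (Gm φ)) (τ, (P : E))) (τ, (P : E)) :=
    ((cd_D hG).differentiable one_ne_zero _).hasFDerivAt
  have hl : HasDerivAt (fun r : ℝ => (P : E) + r • δ) δ 0 := by
    simpa using ((hasDerivAt_id (0 : ℝ)).smul_const δ).const_add (P : E)
  have e0 : (P : E) + (0 : ℝ) • δ = P := by simp
  have hn : HasDerivAt (fun r : ℝ => ‖(P : E) + r • δ‖) ⟪(P : E), δ⟫ 0 := by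
    have h := hl.norm_sq.sqrt (by rw [e0, norm_coe]; norm_num)
    simp only [Real.sqrt_sq (norm_nonneg _), e0, norm_coe] at h
    convert h using 1
    ring
  have hX : HasDerivAt (fun r : ℝ => Xh φ ((P : E) + r • δ)) (fderiv ℝ (Xh φ) P δ) 0 :=
    HasFDerivAt.comp_hasDerivAt (l := Xh φ) (0 : ℝ)
      (by rw [e0]; exact ((cd_Xh hG3).differentiable (by norm_num) _).hasFDerivAt) hl
  have hc : HasDerivAt (fun r : ℝ => fderiv ℝ (Gm φ) (τ, (P : E) + r • δ))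
      (fderiv ℝ (fderiv ℝ (Gm φ)) (τ, (P : E)) (0, δ)) 0 :=
    HasFDerivAt.comp_hasDerivAt (l := fderiv ℝ (Gm φ)) (0 : ℝ)
      (f := fun r : ℝ => (τ, (P : E) + r • δ)) (by rw [e0]; exact h2)
      ((hasDerivAt_const (0 : ℝ) τ).prodMk hl)
  have hu := (hasDerivAt_const (0 : ℝ) (-1 : ℝ)).prodMk (hn.fun_smul hX)
  have h3 := hc.clm_apply hu
  have h4 : (fun r : ℝ => fderiv ℝ (Gm φ) (τ, (P : E) + r • δ)
      ((-1 : ℝ), ‖(P : E) + r • δ‖ • Xh φ ((P : E) + r • δ))) =ᶠ[𝓝 0] fun _ => 0 := by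
    have h5 : ∀ᶠ r in 𝓝 (0 : ℝ), 1 / 2 < ‖(P : E) + r • δ‖ :=
      hl.continuousAt.eventually (isOpen_U.mem_nhds (by
        show 1 / 2 < ‖(P : E) + (0 : ℝ) • δ‖
        rw [e0]; exact half_lt P))
    filter_upwards [h5] with r hr
    have h6 := D_Y hG hφ τ hr
    rw [Xh_eq hG hφ hr, show ((-1 : ℝ), ‖(P : E) + r • δ‖ • gen φ (N ((P : E) + r • δ))) =
      ((0 : ℝ), Ym φ ((P : E) + r • δ)) - ((1 : ℝ), (0 : E)) by simp [Ym], map_sub, h6, sub_self]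
  have h7 := (h3.congr_of_eventuallyEq h4.symm).unique (hasDerivAt_const (0 : ℝ) (0 : E))
  simp only [e0, norm_coe, one_smul] at h7
  rw [second_derivative_symmetric (fun y => hasD hG y) h2]
  exact eq_neg_of_add_eq_zero_left h7

theorem chain (hG : ContDiff ℝ 2 (Gm φ)) (hφ : IsFl φ) (t : ℝ) {z : E} (hz : 1 / 2 < ‖z‖) (v : E) :
    fderiv ℝ (Gm φ) (t, z) (0, v) =
      fderiv ℝ (Gm φ) (t, (N z : E)) (0, fderiv ℝ (fun y : E => Gm φ (0, y)) z v) := by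
  have h0 : HasFDerivAt (fun y : E => Gm φ (0, y)) (fderiv ℝ (fun y : E => Gm φ (0, y)) z) z :=
    ((hG.comp (contDiff_const.prodMk contDiff_id)).differentiable (by norm_num) z).hasFDerivAt
  have e : Gm φ (0, z) = N z := by rw [Gm_eq _ hz, hφ.zero]
  have h1 := (hasD hG (t, z)).comp z (hasFDerivAt_prodMk_right t z)
  have h2 := HasFDerivAt.comp (g := Gm φ) (f := fun y : E => (t, Gm φ (0, y))) z
    (by rw [e]; exact hasD hG (t, (N z : E))) ((hasFDerivAt_const t z).prodMk h0)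
  have h3 := h2.congr_of_eventuallyEq (f₁ := Gm φ ∘ fun y : E => (t, y)) (by
    filter_upwards [isOpen_U.mem_nhds hz] with y hy
    simp only [Function.comp_apply]
    rw [Gm_eq t hy, Gm_eq 0 hy, hφ.zero, Gm_eq t (half_lt _), N_coe])
  have h4 := congrArg (fun A : E →L[ℝ] E => A v) (h1.unique h3)
  simpa using h4

theorem sphere (h : Ctx φ m M L) : ∃ C : ℝ, 0 ≤ C ∧ ∀ t K : ℝ, 0 ≤ t → 1 ≤ K → Bi φ t K →
    ∀ x x' : S, ‖(φ t x' : E) - φ t x - fderiv ℝ (Gm φ) (t, (x : E)) (0, (x' : E) - x)‖ ≤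
      C * (1 + t) * K ^ 3 * ‖(x' : E) - x‖ ^ 2 := by
  have hG := h.cd2
  have hφ : IsFl φ := h.base.toLF.toIsFl
  obtain ⟨C₁, hC₁, H₁⟩ := taylor (cd_Xh h.cd) 1
  have hM : 0 ≤ M := (norm_nonneg _).trans (h.base.up pole)
  have hXe : ∀ y : S, Xh φ y = gen φ y := fun y => by rw [Xh_eq hG hφ (half_lt y), N_coe]
  refine ⟨4 * (C₁ + M) + 1, by positivity, fun t K ht hK hB x x' => ?_⟩
  have hK0 : 0 ≤ K := by linarith
  set d := ‖(x' : E) - x‖ with hd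
  have hδ : ∀ s ∈ Icc 0 t, ‖(φ s x' : E) - φ s x‖ ^ 2 ≤ K ^ 2 * d ^ 2 := fun s hs => by
    rw [← mul_pow]
    exact pow_le_pow_left₀ (norm_nonneg _) (hB s (by rw [abs_of_nonneg hs.1]; exact hs.2) x' x) 2
  have hP : ∀ (y : S) (s : ℝ), HasDerivAt (fun s => (φ s y : E)) (Xh φ (φ s y)) s := fun y s => by
    rw [hXe]; exact h.base.der y s
  have hΨ : ∀ s : ℝ, HasDerivAt
      (fun s => fderiv ℝ (Gm φ) (t - s, (φ s x : E)) (0, (φ s x' : E) - φ s x))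
      (fderiv ℝ (Gm φ) (t - s, (φ s x : E)) (0, Xh φ (φ s x') - Xh φ (φ s x) -
        fderiv ℝ (Xh φ) (φ s x) ((φ s x' : E) - φ s x) -
        ⟪(φ s x : E), (φ s x' : E) - φ s x⟫ • Xh φ (φ s x))) s := fun s => by
    have hc : HasDerivAt (fun s => fderiv ℝ (Gm φ) (t - s, (φ s x : E)))
        (fderiv ℝ (fderiv ℝ (Gm φ)) (t - s, (φ s x : E)) (-1, Xh φ (φ s x))) s :=
      HasFDerivAt.comp_hasDerivAt (l := fderiv ℝ (Gm φ)) s
        (f := fun s : ℝ => (t - s, (φ s x : E)))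
        ((cd_D hG).differentiable one_ne_zero _).hasFDerivAt
        (((hasDerivAt_id s).const_sub t).prodMk (hP x s))
    have hu := (hasDerivAt_const s (0 : ℝ)).prodMk ((hP x' s).fun_sub (hP x s))
    have h3 := hc.clm_apply hu
    rw [key h.cd hφ, neg_add_eq_sub, ← map_sub, Prod.mk_sub_mk, sub_self, ← sub_sub] at h3
    exact h3
  have hb := norm_image_sub_le_of_norm_deriv_le_segment' (a := 0) (b := t)
    (C := 4 * K * ((C₁ + M) * (K ^ 2 * d ^ 2))) (fun s _ => (hΨ s).hasDerivWithinAt)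
    (fun s hs => by
      have hs' : s ∈ Icc 0 t := Ico_subset_Icc_self hs
      refine (bd_of_lp hG hK0 (hB (t - s) (abs_le.2 ⟨by linarith [hs.2], by linarith [hs.1]⟩))
        _ _ (half_lt _)).trans (mul_le_mul_of_nonneg_left ?_ (by positivity))
      refine (norm_sub_le _ _).trans ?_
      have h1 := H₁ (φ s x) (φ s x') (norm_coe _).le (norm_coe _).le
      have h2 : ‖Xh φ (φ s x)‖ ≤ M := by rw [hXe]; exact h.base.up _
      have h3 := hδ s hs'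
      rw [norm_smul, inn, norm_neg, Real.norm_of_nonneg (by positivity)]
      have h4 := sq_nonneg ‖(φ s x' : E) - φ s x‖
      have h5 := mul_le_mul_of_nonneg_left h2 h4
      nlinarith [mul_le_mul_of_nonneg_left h3 hC₁, mul_le_mul_of_nonneg_left h3 hM])
    t (right_mem_Icc.2 ht)
  simp only [sub_self, sub_zero, hφ.zero] at hb
  obtain ⟨c, hc⟩ := D_zero hG hφ (half_lt (φ t x)) ((φ t x' : E) - φ t x)
  have h1 := tangent hG 0 (half_lt (φ t x)) (0, (φ t x' : E) - φ t x)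
  rw [norm_coe, inv_one, one_smul, N_coe] at hc
  rw [hc, N_coe, hφ.zero, inner_add_right, inn, inner_smul_right, real_inner_self_eq_norm_sq,
    norm_coe] at h1
  rw [hc] at hb
  have h2 : ‖c • (φ t x : E)‖ ≤ K ^ 2 * d ^ 2 / 2 := by
    have h3 := hδ t (right_mem_Icc.2 ht)
    rw [norm_smul, norm_coe, mul_one, Real.norm_eq_abs, abs_le]
    constructor <;> nlinarith [sq_nonneg ‖(φ t x' : E) - φ t x‖]
  have h4 := norm_sub_le ((φ t x' : E) - φ t x + c • (φ t x : E) -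
    fderiv ℝ (Gm φ) (t, (x : E)) (0, (x' : E) - x)) (c • (φ t x : E))
  rw [show (φ t x' : E) - φ t x + c • (φ t x : E) -
    fderiv ℝ (Gm φ) (t, (x : E)) (0, (x' : E) - x) - c • (φ t x : E) = (φ t x' : E) - φ t x -
    fderiv ℝ (Gm φ) (t, (x : E)) (0, (x' : E) - x) by abel] at h4
  have h5 : 0 ≤ K ^ 2 * d ^ 2 := by positivity
  have h6 : K ^ 2 * d ^ 2 ≤ K * (K ^ 2 * d ^ 2) := by nlinarith
  have h7 : 0 ≤ (C₁ + M) * (K * (K ^ 2 * d ^ 2)) := by positivity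
  have h8 : 0 ≤ t * (K * (K ^ 2 * d ^ 2)) := by positivity
  nlinarith

end AlekAux

theorem alek (h : Ctx φ m M L) : ∃ C : ℝ, 1 ≤ C ∧ ∀ t K : ℝ, 0 ≤ t → 1 ≤ K → Bi φ t K →
    Tay (Gg.Gm φ) t (C * (1 + t) * K ^ 3) := by
  have hG := h.cd2
  have hφ : IsFl φ := h.base.toLF.toIsFl
  obtain ⟨C₁, hC₁, H₁⟩ := AlekAux.sphere h
  obtain ⟨C₂, hC₂, H₂⟩ := AlekAux.taylor (f := fun y : E => Gg.Gm φ (0, y))
    (hG.comp (contDiff_const.prodMk contDiff_id)) 2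
  refine ⟨4 * C₁ + 4 * C₂ + 1, by linarith, fun t K ht hK hB z z' h1 h2 h3 h4 => ?_⟩
  have hz : 1 / 2 < ‖z‖ := by linarith
  have hz' : 1 / 2 < ‖z'‖ := by linarith
  have hK0 : 0 ≤ K := by linarith
  have a1 := H₁ t K ht hK hB (N z) (N z')
  have a2 := H₂ z z' h2 h4
  simp only [Gg.Gm_eq 0 hz, Gg.Gm_eq 0 hz', hφ.zero] at a2
  have a3 := Gg.bd_of_lp hG hK0 (hB t (abs_of_nonneg ht).le) (N z : E)
    ((N z' : E) - N z - fderiv ℝ (fun y : E => Gg.Gm φ (0, y)) z (z' - z)) (Gg.half_lt _)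
  have a4 : ‖(N z' : E) - N z‖ ^ 2 ≤ 4 * ‖z' - z‖ ^ 2 := by
    have := pow_le_pow_left₀ (norm_nonneg _) (AlekAux.N_lip (z' := z') h1) 2
    linarith [mul_pow 2 ‖z' - z‖ 2]
  rw [Gg.Gm_eq t hz, Gg.Gm_eq t hz', AlekAux.chain hG hφ t hz]
  rw [show ((0 : ℝ), (N z' : E) - N z - fderiv ℝ (fun y : E => Gg.Gm φ (0, y)) z (z' - z)) =
    ((0 : ℝ), (N z' : E) - N z) - ((0 : ℝ), fderiv ℝ (fun y : E => Gg.Gm φ (0, y)) z (z' - z)) by
      simp, map_sub] at a3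
  have a5 := norm_add_le ((φ t (N z') : E) - φ t (N z) -
    fderiv ℝ (Gg.Gm φ) (t, (N z : E)) (0, (N z' : E) - N z))
    (fderiv ℝ (Gg.Gm φ) (t, (N z : E)) (0, (N z' : E) - N z) - fderiv ℝ (Gg.Gm φ) (t, (N z : E))
      (0, fderiv ℝ (fun y : E => Gg.Gm φ (0, y)) z (z' - z)))
  rw [sub_add_sub_cancel] at a5
  have b0 : 0 ≤ ‖z' - z‖ ^ 2 := by positivity
  have b1 : K ≤ (1 + t) * K ^ 3 := by
    have : K ≤ K ^ 3 := by nlinarith [mul_nonneg hK0 (sub_nonneg.2 hK)]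
    nlinarith [mul_nonneg ht (pow_nonneg hK0 3)]
  have b2 := mul_le_mul_of_nonneg_left a4 (show 0 ≤ C₁ * (1 + t) * K ^ 3 by positivity)
  have b3 := mul_le_mul_of_nonneg_left a2 (show 0 ≤ 4 * K by positivity)
  have b4 := mul_le_mul_of_nonneg_right b1 (show 0 ≤ C₂ * ‖z' - z‖ ^ 2 by positivity)
  have b5 : 0 ≤ (1 + t) * K ^ 3 * ‖z' - z‖ ^ 2 := by positivity
  nlinarith

end Pool.Agent.Lib.MP_399f8e_an.Sg
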