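import Pool.Agent.Lib.MP_399f8e_an.Sg.Defs

open Set Filter Topology Metric MeasureTheory
open scoped RealInnerProductSpace

noncomputable section

namespace Pool.Agent.Lib.MP_399f8e_an.Sg

open Rg

variable {X : S → E} {φ : ℝ → S → S} {m M L : ℝ}

namespace ColipAux

theorem lip (y z : E) : ‖z‖ * ‖(N y : E) - N z‖ ≤ 2 * ‖y - z‖ := by
  have h1 : ‖z‖ • ((N y : E) - N z) = (‖z‖ - ‖y‖) • (N y : E) + (y - z) := by
    rw [smul_sub, sub_smul, norm_smul_N, norm_smul_N]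
    abel
  have h2 : ‖z‖ * ‖(N y : E) - N z‖ = ‖‖z‖ • ((N y : E) - N z)‖ := by
    rw [norm_smul, norm_norm]
  rw [h2, h1]
  refine (norm_add_le _ _).trans ?_
  rw [norm_smul, norm_coe, Real.norm_eq_abs, mul_one]
  have := abs_norm_sub_norm_le z y
  rw [norm_sub_rev z y] at this
  linarith

theorem near {ℓ : ℝ} {x₀ : S} {n p v : E} (h : Seg X ℓ x₀ n p v) {θ : ℝ}
    (hθ : θ ∈ Icc (0 : ℝ) 1) : ‖p + θ • v - (8 / 5 : ℝ) • (x₀ : E)‖ ≤ 2 * ℓ := by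
  have e : p + θ • v - (8 / 5 : ℝ) • (x₀ : E) = (p - (8 / 5 : ℝ) • (x₀ : E)) + θ • v := by abel
  have h1 : ‖θ • v‖ ≤ ℓ := by
    rw [norm_smul, Real.norm_of_nonneg hθ.1]
    nlinarith [h.short, norm_nonneg v, hθ.1, hθ.2]
  rw [e]
  linarith [norm_add_le (p - (8 / 5 : ℝ) • (x₀ : E)) (θ • v), h.near]

theorem N_ray (x : S) : N ((8 / 5 : ℝ) • (x : E)) = x := by
  rw [N_smul (by norm_num), N_coe]

theorem inner_le {n : E} (hn : ‖n‖ = 1) (w : E) : |⟪n, w⟫| ≤ ‖w‖ := by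
  simpa [hn] using abs_real_inner_le_norm n w

theorem step {ℓ B : ℝ} {f : S → ℝ}
    (hf : ∀ (x₀ : S) (n p v : E), Seg X ℓ x₀ n p v → |f (N (p + v)) - f (N p)| ≤ B) {x x' : S}
    (hx : ‖(x : E) - x'‖ ≤ ℓ / 4) : |f x - f x'| ≤ 2 * B := by
  obtain ⟨n, hn, h1, h2⟩ := Gg.exists_perp (x : E) (X x)
  rw [real_inner_comm] at h1 h2
  set w : E := (8 / 5 : ℝ) • (x' : E) - (8 / 5 : ℝ) • (x : E) with hw
  have hw1 : ‖w‖ ≤ 2 / 5 * ℓ := by
    rw [hw, ← smul_sub, norm_smul, norm_sub_rev, Real.norm_of_nonneg (by norm_num)]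
    linarith
  have hw0 := norm_nonneg w
  have key : ∀ c : ℝ, |c| = 1 / 2 → ‖c • w + ‖w‖ • n‖ ≤ ℓ ∧
      ‖c • w + ‖w‖ • n‖ / 3 ≤ ⟪n, c • w + ‖w‖ • n⟫ := fun c hc => by
    have a1 : ‖c • w‖ = 1 / 2 * ‖w‖ := by rw [norm_smul, Real.norm_eq_abs, hc]
    have a2 : ‖‖w‖ • n‖ = ‖w‖ := by rw [norm_smul, norm_norm, hn, mul_one]
    have a3 := norm_add_le (c • w) (‖w‖ • n)
    have a4 := (abs_le.1 (inner_le hn (c • w))).1
    have a5 : ⟪n, ‖w‖ • n⟫ = ‖w‖ := by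
      rw [inner_smul_right, real_inner_self_eq_norm_sq, hn]
      ring
    rw [inner_add_right, a5]
    constructor <;> linarith
  have k1 := key (1 / 2) (by norm_num)
  have k2 := key (-(1 / 2)) (by norm_num)
  have s1 := hf x n ((8 / 5 : ℝ) • (x : E)) _ ⟨hn, h1, h2, by simp; linarith, k1.1, k1.2⟩
  have s2 := hf x n ((8 / 5 : ℝ) • (x' : E)) _ ⟨hn, h1, h2, by linarith, k2.1, k2.2⟩
  have e : (8 / 5 : ℝ) • (x' : E) + ((-(1 / 2) : ℝ) • w + ‖w‖ • n)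
      = (8 / 5 : ℝ) • (x : E) + ((1 / 2 : ℝ) • w + ‖w‖ • n) := by
    generalize ‖w‖ = r
    rw [hw]
    module
  rw [e, N_ray] at s2
  rw [N_ray] at s1
  have b1 := abs_le.1 s1
  have b2 := abs_le.1 s2
  exact abs_le.2 ⟨by linarith [b1.2, b2.1], by linarith [b1.1, b2.2]⟩

theorem arc {ℓ B : ℝ} {f : S → ℝ}
    (hf : ∀ (x₀ : S) (n p v : E), Seg X ℓ x₀ n p v → |f (N (p + v)) - f (N p)| ≤ B) {k : ℕ}
    (hk0 : 0 < k) (hk : 32 ≤ k * ℓ) {x z : S} (hxz : ⟪(x : E), (z : E)⟫ = 0) :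
    |f x - f z| ≤ 2 * k * B := by
  have hk' : (0 : ℝ) < k := by exact_mod_cast hk0
  set c : ℝ → E := fun s => (1 - s) • (x : E) + s • (z : E) with hc
  have h1 : ∀ s, 1 / 2 ≤ ‖c s‖ := fun s => by
    have : ‖c s‖ ^ 2 = (1 - s) ^ 2 + s ^ 2 := by
      rw [hc, norm_add_sq_real, inner_smul_left, inner_smul_right, hxz, norm_smul, norm_smul,
        norm_coe, norm_coe, Real.norm_eq_abs, Real.norm_eq_abs, mul_one, mul_one, sq_abs, sq_abs]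
      simp
    exact abs_le_of_sq_le_sq' (by nlinarith [sq_nonneg (2 * s - 1)]) (norm_nonneg _) |>.2
  have h2 : ∀ s, ‖(N (c s) : E) - N (c (s + 1 / k))‖ ≤ ℓ / 4 := fun s => by
    have a1 := lip (c s) (c (s + 1 / k))
    have a2 : c s - c (s + 1 / k) = (1 / k : ℝ) • ((x : E) - z) := by
      rw [hc]
      module
    have a3 : ‖(x : E) - z‖ ≤ 2 := by
      have := norm_sub_le (x : E) z
      rw [norm_coe, norm_coe] at this
      linarith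
    have a4 : (1 / k : ℝ) * 32 ≤ ℓ := by
      rw [div_mul_eq_mul_div, div_le_iff₀ hk']
      linarith
    have a5 : (0 : ℝ) < 1 / k := by positivity
    rw [a2, norm_smul, Real.norm_of_nonneg a5.le] at a1
    have a6 := h1 (s + 1 / k)
    have a7 := norm_nonneg ((N (c s) : E) - N (c (s + 1 / k)))
    nlinarith
  have h3 : ∀ j : ℕ, |f x - f (N (c (j / k)))| ≤ 2 * j * B := fun j => by
    induction j with
    | zero => simp [hc, N_coe]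
    | succ j ih =>
      have a1 := step hf (h2 (j / k))
      have a2 := abs_sub_le (f x) (f (N (c (j / k)))) (f (N (c (j / k + 1 / k))))
      rw [Nat.cast_succ, add_div]
      linarith
  have h4 := h3 k
  rw [div_self hk'.ne'] at h4
  simpa [hc, N_coe] using h4

end ColipAux

open ColipAux

theorem Seg.shell {ℓ : ℝ} {x₀ : S} {n p v : E} (h : Seg X ℓ x₀ n p v) (hℓ : ℓ ≤ 1 / 100)
    {θ : ℝ} (hθ : θ ∈ Icc (0 : ℝ) 1) : 3 / 2 ≤ ‖p + θ • v‖ ∧ ‖p + θ • v‖ ≤ 17 / 10 := by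
  have h1 := ColipAux.near h hθ
  have h2 := abs_le.1 (abs_norm_sub_norm_le (p + θ • v) ((8 / 5 : ℝ) • (x₀ : E)))
  rw [norm_smul, norm_coe, Real.norm_of_nonneg (by norm_num)] at h2
  constructor <;> linarith [h2.1, h2.2]

namespace ColipAux

theorem slope {ℓ : ℝ} {x₀ : S} {n p v : E} (h : Seg X ℓ x₀ n p v) (hℓ : ℓ ≤ 1 / 100)
    {θ θ' : ℝ} (hθ : θ ∈ Icc (0 : ℝ) 1) (hθ' : θ' ∈ Icc (0 : ℝ) 1) :
    |θ - θ'| * ‖v‖ / 7 ≤ |⟪n, (N (p + θ • v) : E) - N (p + θ' • v)⟫| ∧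
      ‖(N (p + θ • v) : E) - N (p + θ' • v)‖ ≤ 2 * (|θ - θ'| * ‖v‖) := by
  obtain ⟨s1, s2⟩ := h.shell hℓ hθ
  obtain ⟨s3, s4⟩ := h.shell hℓ hθ'
  have n1 := near h hθ
  set a := p + θ • v with ha
  set a' := p + θ' • v with ha'
  have e : a - a' = (θ - θ') • v := by
    rw [ha, ha']
    module
  have e' : ‖a - a'‖ = |θ - θ'| * ‖v‖ := by rw [e, norm_smul, Real.norm_eq_abs]
  have hA : 0 ≤ |θ - θ'| * ‖v‖ := by positivity
  constructor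
  · have h1 : ‖a'‖ • ((N a : E) - N a') = (‖a'‖ - ‖a‖) • (N a : E) + (a - a') := by
      rw [smul_sub, sub_smul, norm_smul_N, norm_smul_N]
      abel
    have h2 : ‖a'‖ * ⟪n, (N a : E) - N a'⟫
        = (‖a'‖ - ‖a‖) * ⟪n, (N a : E)⟫ + (θ - θ') * ⟪n, v⟫ := by
      rw [← inner_smul_right, h1, inner_add_right, inner_smul_right, e, inner_smul_right]
    have h3 : ‖a‖ * ⟪n, (N a : E)⟫ = ⟪n, a - (8 / 5 : ℝ) • (x₀ : E)⟫ := by
      rw [← inner_smul_right, norm_smul_N, inner_sub_right, inner_smul_right, h.px]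
      ring
    have h4 : |⟪n, (N a : E)⟫| ≤ 1 / 50 := by
      have b1 := inner_le h.unit (a - (8 / 5 : ℝ) • (x₀ : E))
      rw [← h3, abs_mul, abs_norm] at b1
      nlinarith [abs_nonneg ⟪n, (N a : E)⟫]
    have h5 : |‖a'‖ - ‖a‖| ≤ |θ - θ'| * ‖v‖ := by
      rw [← e', norm_sub_rev]
      exact abs_norm_sub_norm_le _ _
    have h6 : |(‖a'‖ - ‖a‖) * ⟪n, (N a : E)⟫| ≤ |θ - θ'| * ‖v‖ * (1 / 50) := by
      rw [abs_mul]
      exact mul_le_mul h5 h4 (abs_nonneg _) hA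
    have h7 : |θ - θ'| * (‖v‖ / 3) ≤ |(θ - θ') * ⟪n, v⟫| := by
      rw [abs_mul]
      exact mul_le_mul_of_nonneg_left (h.tr.trans (le_abs_self _)) (abs_nonneg _)
    have h8 : |(θ - θ') * ⟪n, v⟫| ≤ ‖a'‖ * |⟪n, (N a : E) - N a'⟫|
        + |(‖a'‖ - ‖a‖) * ⟪n, (N a : E)⟫| := by
      rw [← abs_norm a', ← abs_mul, abs_norm, eq_sub_of_add_eq' h2.symm]
      exact abs_sub _ _
    nlinarith [abs_nonneg ⟪n, (N a : E) - N a'⟫]
  · have h1 := lip a a'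
    rw [e'] at h1
    nlinarith [norm_nonneg ((N a : E) - N a')]

end ColipAux

theorem colip (h : Lk.Base X φ m M L) : ∃ ℓ τ m₁ : ℝ, 0 < ℓ ∧ ℓ ≤ 1 / 100 ∧ 0 < τ ∧ τ ≤ 1 ∧
    0 < m₁ ∧ m₁ ≤ 1 ∧ ∀ (x₀ : S) (n p v : E), Seg X ℓ x₀ n p v → ∀ (y : S) (θ₀ u₀ : ℝ),
      θ₀ ∈ Icc (0 : ℝ) 1 → u₀ ∈ Icc 0 τ → ‖(N (p + θ₀ • v) : E) - φ u₀ y‖ ≤ ℓ →
      ∀ θ ∈ Icc (0 : ℝ) 1, ∀ θ' ∈ Icc (0 : ℝ) 1, ∀ u ∈ Icc 0 τ, ∀ u' ∈ Icc 0 τ,
        m₁ * (|θ - θ'| * ‖v‖ + |u - u'|) ≤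
          ‖((N (p + θ • v) : E) - φ u y) - ((N (p + θ' • v) : E) - φ u' y)‖ := by
  have hm := h.m_pos
  have hL := h.L_pos
  have hM : 0 < M := hm.trans_le ((h.low pole).trans (h.up pole))
  refine ⟨min (1 / 100) (m / (672 * L)), min 1 (m / (336 * (L * M))), min 1 (m / 4) / 22,
    by positivity, min_le_left _ _, by positivity, min_le_left _ _, by positivity,
    by linarith [min_le_left 1 (m / 4)], ?_⟩
  set ℓ := min (1 / 100) (m / (672 * L)) with hℓ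
  set τ := min 1 (m / (336 * (L * M))) with hτ
  have hℓ1 : ℓ ≤ 1 / 100 := min_le_left _ _
  have hℓ2 : L * ℓ ≤ m / 672 := by
    have : ℓ ≤ m / (672 * L) := min_le_right _ _
    rw [le_div_iff₀ (by positivity)] at this
    linarith
  have hτ2 : L * M * τ ≤ m / 336 := by
    have : τ ≤ m / (336 * (L * M)) := min_le_right _ _
    rw [le_div_iff₀ (by positivity)] at this
    linarith
  intro x₀ n p v hs y θ₀ u₀ hθ₀ hu₀ h0 θ hθ θ' hθ' u hu u' hu'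
  obtain ⟨s1, s2⟩ := slope hs hℓ1 hθ hθ'
  have hB : ∀ a ∈ Icc 0 τ, ∀ b ∈ Icc 0 τ, |a - b| ≤ τ := fun a ha b hb =>
    abs_le.2 ⟨by linarith [ha.1, hb.2], by linarith [ha.2, hb.1]⟩
  have hB0 := abs_nonneg (u - u')
  have hB1 : L * M * |u - u'| ≤ m / 336 :=
    (mul_le_mul_of_nonneg_left (hB u hu u' hu') (by positivity)).trans hτ2
  have e : φ u y = φ (u - u') (φ u' y) := by rw [← h.add, sub_add_cancel]
  have t1 := h.toLF.taylor h.up (u - u') (φ u' y)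
  rw [← e, ← sq_abs] at t1
  have t2 : ‖(φ u y : E) - φ u' y - (u - u') • X (φ u' y)‖ ≤ m / 336 * |u - u'| := by
    nlinarith
  have t3 : m * |u - u'| ≤ ‖(u - u') • X (φ u' y)‖ := by
    rw [norm_smul, Real.norm_eq_abs, mul_comm]
    exact mul_le_mul_of_nonneg_left (h.low _) hB0
  have t4 : m / 2 * |u - u'| ≤ ‖(φ u y : E) - φ u' y‖ := by
    have := norm_sub_norm_le ((u - u') • X (φ u' y)) ((φ u y : E) - φ u' y)
    rw [norm_sub_rev ((u - u') • X (φ u' y))] at this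
    nlinarith
  have t5 : ‖(φ u' y : E) - x₀‖ ≤ M * τ + 4 * ℓ := by
    have a1 := (h.toLF.move h.up u' u₀ y).trans
      (mul_le_mul_of_nonneg_left (hB u' hu' u₀ hu₀) hM.le)
    have a2 := lip ((8 / 5 : ℝ) • (x₀ : E)) (p + θ₀ • v)
    rw [N_ray, norm_sub_rev ((8 / 5 : ℝ) • (x₀ : E)), norm_sub_rev (x₀ : E)] at a2
    have a3 := near hs hθ₀
    have a4 := (hs.shell hℓ1 hθ₀).1
    have a5 : ‖(N (p + θ₀ • v) : E) - x₀‖ ≤ 3 * ℓ := by
      nlinarith [norm_nonneg ((N (p + θ₀ • v) : E) - x₀),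
        norm_nonneg (p + θ₀ • v - (8 / 5 : ℝ) • (x₀ : E))]
    have a6 := norm_sub_le_norm_sub_add_norm_sub (φ u' y : E) (φ u₀ y) x₀
    have a7 := norm_sub_le_norm_sub_add_norm_sub (φ u₀ y : E) (N (p + θ₀ • v)) x₀
    rw [norm_sub_rev (φ u₀ y : E) (N (p + θ₀ • v))] at a7
    linarith
  have t6 : |⟪n, X (φ u' y)⟫| ≤ m / 112 := by
    have a1 := inner_le hs.unit (X (φ u' y) - X x₀)
    rw [inner_sub_right, hs.pX, sub_zero] at a1
    have a2 := (h.lip _ _).trans (mul_le_mul_of_nonneg_left t5 hL.le)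
    linarith
  have t7 : |⟪n, (φ u y : E) - φ u' y⟫| ≤ m / 84 * |u - u'| := by
    have a1 := inner_le hs.unit ((φ u y : E) - φ u' y - (u - u') • X (φ u' y))
    rw [inner_sub_right n _ ((u - u') • X (φ u' y)), inner_smul_right] at a1
    have a2 : |(u - u') * ⟪n, X (φ u' y)⟫| ≤ |u - u'| * (m / 112) := by
      rw [abs_mul]
      exact mul_le_mul_of_nonneg_left t6 hB0
    have a3 := abs_sub_abs_le_abs_sub ⟪n, (φ u y : E) - φ u' y⟫ ((u - u') * ⟪n, X (φ u' y)⟫)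
    linarith
  have e2 : ((N (p + θ • v) : E) - φ u y) - ((N (p + θ' • v) : E) - φ u' y)
      = ((N (p + θ • v) : E) - N (p + θ' • v)) - ((φ u y : E) - φ u' y) := by abel
  rw [e2]
  generalize (N (p + θ • v) : E) - N (p + θ' • v) = A at s1 s2 ⊢
  generalize (φ u y : E) - φ u' y = B at t4 t7 ⊢
  have d1 := inner_le hs.unit (A - B)
  rw [inner_sub_right] at d1
  have d2 := abs_sub_abs_le_abs_sub ⟪n, A⟫ ⟪n, B⟫
  have d3 := norm_sub_norm_le B A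
  rw [norm_sub_rev B A] at d3
  have hA : 0 ≤ |θ - θ'| * ‖v‖ := by positivity
  have d4 := mul_le_mul_of_nonneg_right (min_le_left 1 (m / 4)) hA
  have d5 := mul_le_mul_of_nonneg_right (min_le_right 1 (m / 4)) hB0
  linarith

theorem chain {ℓ : ℝ} (hℓ : 0 < ℓ) : ∃ N₀ : ℝ, 0 < N₀ ∧ ∀ (X : S → E) (f : S → ℝ) (B : ℝ), 0 ≤ B →
    (∀ (x₀ : S) (n p v : E), Seg X ℓ x₀ n p v → |f (N (p + v)) - f (N p)| ≤ B) →
    ∀ x x' : S, |f x - f x'| ≤ N₀ * B := by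
  obtain ⟨k, hk⟩ := exists_nat_gt (32 / ℓ)
  have hk0 : (0 : ℝ) < k := (by positivity : (0 : ℝ) < 32 / ℓ).trans hk
  rw [div_lt_iff₀ hℓ] at hk
  refine ⟨4 * k, by positivity, fun X f B _ hf x x' => ?_⟩
  obtain ⟨z, hz, h1, h2⟩ := Gg.exists_perp (x : E) (x' : E)
  have a1 := arc hf (Nat.cast_pos.1 hk0) hk.le (x := x) (z := ⟨z, by simpa using hz⟩) h1
  have a2 := arc hf (Nat.cast_pos.1 hk0) hk.le (x := x') (z := ⟨z, by simpa using hz⟩) h2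
  have a3 := abs_sub_le (f x) (f ⟨z, by simpa using hz⟩) (f x')
  rw [abs_sub_comm (f ⟨z, _⟩)] at a3
  linarith

end Pool.Agent.Lib.MP_399f8e_an.Sg
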