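import Pool.Agent.Lib.MP_399f8e_an.Sg.Pot
import Pool.Agent.Lib.MP_399f8e_an.Lk.AForm2

open Set Filter Topology Metric MeasureTheory
open scoped RealInnerProductSpace

noncomputable section

namespace Pool.Agent.Lib.MP_399f8e_an.Sg

open Rg

namespace DPotAux

theorem hd_int {Q P : Type} [NormedAddCommGroup Q] [NormedSpace ℝ Q] [MeasurableSpace P]
    {μ : Measure P} [IsFiniteMeasure μ] {π : P → Q} {Kc : Set Q}
    (hπ : AEStronglyMeasurable π μ) (hK : IsCompact Kc) (hm : ∀ᵐ p ∂μ, π p ∈ Kc)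
    {f : ℝ × Q → ℝ} (hf : ContDiff ℝ 1 f) {f' : Q → ℝ}
    (hd : ∀ q, HasDerivAt (fun t => f (t, q)) (f' q) 0) :
    Integrable (fun p => f' (π p)) μ ∧
      HasDerivAt (fun t => ∫ p, f (t, π p) ∂μ) (∫ p, f' (π p) ∂μ) 0 := by
  have e : ∀ q, f' q = ((fderiv ℝ f (0, q)).comp (ContinuousLinearMap.inl ℝ ℝ Q)) 1 := by
    intro q
    have h1 : HasFDerivAt f (fderiv ℝ f (0, q)) (0, q) :=
      (hf.differentiable one_ne_zero (0, q)).hasFDerivAt
    have h2 : HasFDerivAt (fun t : ℝ => (t, q)) (ContinuousLinearMap.inl ℝ ℝ Q) 0 :=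
      hasFDerivAt_prodMk_left 0 q
    exact (hd q).unique (HasFDerivAt.comp (f := fun t : ℝ => (t, q)) 0 h1 h2).hasDerivAt
  have hc : Continuous fun q : Q => (fderiv ℝ f (0, q)).comp (ContinuousLinearMap.inl ℝ ℝ Q) :=
    ((hf.continuous_fderiv one_ne_zero).comp (continuous_const.prodMk continuous_id)).clm_comp
      continuous_const
  have hi := int_par hπ hK hm hc
  have h3 := (fd_int hπ hK hm hf 0).hasDerivAt
  rw [ContinuousLinearMap.integral_apply hi] at h3
  simp only [e]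
  exact ⟨int_par hπ hK hm (hc.clm_apply continuous_const), h3⟩

theorem hd_ival {f : ℝ × ℝ → ℝ} (hf : ContDiff ℝ 1 f) {f' : ℝ → ℝ}
    (hd : ∀ u, HasDerivAt (fun t => f (t, u)) (f' u) 0) :
    HasDerivAt (fun t => ∫ u in (0 : ℝ)..1, f (t, u)) (∫ u in (0 : ℝ)..1, f' u) 0 := by
  simp only [intervalIntegral.integral_of_le zero_le_one]
  refine (hd_int (μ := volume.restrict (Ioc (0 : ℝ) 1)) (π := fun u => u) (Kc := Icc 0 1)
    aestronglyMeasurable_id isCompact_Icc ?_ hf hd).2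
  filter_upwards [ae_restrict_mem measurableSet_Ioc] with u hu
  exact Ioc_subset_Icc_self hu

theorem inv_zero {X : S → E} {φ : ℝ → S → S} {L : ℝ} {ν : Measure S} (h : Lk.LF X φ L)
    (hν : Lk.Inv φ ν) {f : E → ℝ} (hf : ContDiff ℝ 1 f) :
    ∫ y : S, fderiv ℝ f y (X y) ∂ν = 0 := by
  have := hν.1
  have hg : Continuous fun y : S => fderiv ℝ f y (X y) :=
    ((hf.continuous_fderiv one_ne_zero).comp continuous_subtype_val).clm_apply h.contW
  have hf0 : Continuous fun y : S => f y := hf.continuous.comp continuous_subtype_val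
  have hφ : ∀ t, Continuous (φ t) := fun t => h.cont.comp (continuous_const.prodMk continuous_id)
  obtain ⟨C, hC⟩ := isCompact_univ.exists_bound_of_continuousOn hg.continuousOn
  have h1 := (hasDerivAt_integral_of_dominated_loc_of_deriv_le (μ := ν) (x₀ := (0 : ℝ))
    (F := fun t (y : S) => f (φ t y)) (F' := fun t (y : S) => fderiv ℝ f (φ t y) (X (φ t y)))
    (bound := fun _ => C) (s := univ) univ_mem
    (Eventually.of_forall fun t => (hf0.comp (hφ t)).aestronglyMeasurable)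
    ((hf0.comp (hφ 0)).integrable_of_hasCompactSupport (HasCompactSupport.of_compactSpace _))
    (hg.comp (hφ 0)).aestronglyMeasurable
    (Eventually.of_forall fun y t _ => hC _ (mem_univ _)) (integrable_const C)
    (Eventually.of_forall fun y t _ =>
      (hf.differentiable one_ne_zero _).hasFDerivAt.comp_hasDerivAt t (h.der y t))).2
  have h2 : (fun t => ∫ y : S, f (φ t y) ∂ν) = fun _ => ∫ y : S, f y ∂ν := by
    funext t
    have := integral_map (μ := ν) (hν.2 t).measurable.aemeasurable (f := fun y : S => f y)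
      hf0.aestronglyMeasurable
    rw [(hν.2 t).map_eq] at this
    exact this.symm
  rw [h2] at h1
  have h3 := h1.unique (hasDerivAt_const _ _)
  simpa only [h.zero] using h3

variable {ε : ℝ}

theorem quot (hε : 0 < ε) {Z : ℝ → E} {Z' : E} {s : ℝ} (hZ : HasDerivAt Z Z' s) (c : ℝ) :
    HasDerivAt (fun r => c / (‖Z r‖ ^ 2 + ε ^ 2) ^ 2)
      (-4 * c * ⟪Z s, Z'⟫ / (‖Z s‖ ^ 2 + ε ^ 2) ^ 3) s := by
  have hn : ‖Z s‖ ^ 2 + ε ^ 2 ≠ 0 := by positivity
  have h2 := ((hZ.norm_sq).add_const (ε ^ 2)).pow 2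
  refine ((hasDerivAt_const s c).div h2 (pow_ne_zero 2 hn)).congr_deriv ?_
  simp only [Pi.pow_apply]
  field_simp
  norm_num
  ring

theorem cd_quot {H : Type} [NormedAddCommGroup H] [NormedSpace ℝ H] (hε : 0 < ε) {Z : H → E}
    {c : H → ℝ} (hZ : ContDiff ℝ 1 Z) (hc : ContDiff ℝ 1 c) :
    ContDiff ℝ 1 fun p => c p / (‖Z p‖ ^ 2 + ε ^ 2) ^ 2 :=
  hc.div (((hZ.norm_sq ℝ).add contDiff_const).pow 2) fun p => by positivity

theorem cd_vol {H : Type} [NormedAddCommGroup H] [NormedSpace ℝ H] {a b c d : H → E}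
    (ha : ContDiff ℝ 1 a) (hb : ContDiff ℝ 1 b) (hc : ContDiff ℝ 1 c) (hd : ContDiff ℝ 1 d) :
    ContDiff ℝ 1 fun p => Lk.vol (a p) (b p) (c p) (d p) := by
  have h : ∀ {x : H → E}, ContDiff ℝ 1 x → ∀ i, ContDiff ℝ 1 fun p => x p i :=
    fun hx i => contDiff_euclidean.1 hx i
  have a0 := h ha 0; have a1 := h ha 1; have a2 := h ha 2; have a3 := h ha 3
  have b0 := h hb 0; have b1 := h hb 1; have b2 := h hb 2; have b3 := h hb 3
  have c0 := h hc 0; have c1 := h hc 1; have c2 := h hc 2; have c3 := h hc 3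
  have d0 := h hd 0; have d1 := h hd 1; have d2 := h hd 2; have d3 := h hd 3
  simp only [Lk.vol_eq]
  fun_prop

/-- the second radial kernel -/
def kp (ε : ℝ) (z y : E) : ℝ :=
  ∫ u in (0 : ℝ)..1, (1 - u) ^ 2 / (‖Zz z y u‖ ^ 2 + ε ^ 2) ^ 2

/-- derivative of `ke` in the first point -/
def k1 (ε : ℝ) (z y a : E) : ℝ :=
  ∫ u in (0 : ℝ)..1, -4 * (u * (1 - u)) * ⟪Zz z y u, (1 - u) • a⟫ / (‖Zz z y u‖ ^ 2 + ε ^ 2) ^ 3

/-- derivative of `kp` in the second point -/
def k2 (ε : ℝ) (z y a : E) : ℝ :=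
  ∫ u in (0 : ℝ)..1, -4 * (1 - u) ^ 2 * ⟪Zz z y u, -(u • a)⟫ / (‖Zz z y u‖ ^ 2 + ε ^ 2) ^ 3

theorem line (z a : E) : HasDerivAt (fun t : ℝ => z + t • a) a 0 := by
  simpa using ((hasDerivAt_id (0 : ℝ)).smul_const a).const_add z

theorem hd_ke (hε : 0 < ε) (z y a : E) :
    HasDerivAt (fun t : ℝ => ke ε (z + t • a) y) (k1 ε z y a) 0 := by
  refine hd_ival (f := fun p : ℝ × ℝ =>
    p.2 * (1 - p.2) / (‖Zz (z + p.1 • a) y p.2‖ ^ 2 + ε ^ 2) ^ 2) ?_ fun u => ?_
  · refine cd_quot hε ?_ (by fun_prop)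
    unfold Zz; fun_prop
  · have hz : HasDerivAt (fun t : ℝ => Zz (z + t • a) y u) ((1 - u) • a) 0 :=
      ((line z a).const_smul (1 - u)).sub_const _
    simpa only [zero_smul, add_zero] using quot hε hz (u * (1 - u))

theorem hd_kp (hε : 0 < ε) (z y a : E) :
    HasDerivAt (fun t : ℝ => kp ε z (y + t • a)) (k2 ε z y a) 0 := by
  refine hd_ival (f := fun p : ℝ × ℝ =>
    (1 - p.2) ^ 2 / (‖Zz z (y + p.1 • a) p.2‖ ^ 2 + ε ^ 2) ^ 2) ?_ fun u => ?_
  · refine cd_quot hε ?_ (by fun_prop)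
    unfold Zz; fun_prop
  · have hz : HasDerivAt (fun t : ℝ => Zz z (y + t • a) u) (-(u • a)) 0 :=
      ((line y a).const_smul u).const_sub _
    simpa only [zero_smul, add_zero] using quot hε hz ((1 - u) ^ 2)

theorem cd_kp (hε : 0 < ε) (z : E) : ContDiff ℝ 1 (kp ε z) := by
  refine cd_ival 1 (f := fun p : E × ℝ =>
    (1 - p.2) ^ 2 / (‖Zz z p.1 p.2‖ ^ 2 + ε ^ 2) ^ 2) ?_ 0 1
  refine cd_quot hε ?_ (by fun_prop)
  unfold Zz; fun_prop

theorem hd_vol1 (z a b c d : E) :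
    HasDerivAt (fun t : ℝ => Lk.vol (z + t • a) b c d) (Lk.vol a b c d) 0 := by
  have e : (fun t : ℝ => Lk.vol (z + t • a) b c d)
      = fun t => Lk.vol z b c d + t * Lk.vol a b c d := by
    funext t
    simp only [Lk.vol_eq, PiLp.add_apply, PiLp.smul_apply, smul_eq_mul]
    ring
  rw [e]
  simpa using ((hasDerivAt_id (0 : ℝ)).mul_const (Lk.vol a b c d)).const_add (Lk.vol z b c d)

theorem hd_vol2 (z y a c d : E) :
    HasDerivAt (fun t : ℝ => Lk.vol z (y + t • a) c d) (Lk.vol z a c d) 0 := by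
  have e : (fun t : ℝ => Lk.vol z (y + t • a) c d)
      = fun t => Lk.vol z y c d + t * Lk.vol z a c d := by
    funext t
    simp only [Lk.vol_eq, PiLp.add_apply, PiLp.smul_apply, smul_eq_mul]
    ring
  rw [e]
  simpa using ((hasDerivAt_id (0 : ℝ)).mul_const (Lk.vol z a c d)).const_add (Lk.vol z y c d)

/-- the derivative of the flux in `u` -/
def dq (ε : ℝ) (z y v w W : E) (u : ℝ) : ℝ :=
  -4 * ⟪Zz z y u, -z - y⟫ / (‖Zz z y u‖ ^ 2 + ε ^ 2) ^ 3 *
      (u * (1 - u) ^ 2 * ((1 - u) * Lk.vol z v w W - u * Lk.vol y v w W))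
    + 1 / (‖Zz z y u‖ ^ 2 + ε ^ 2) ^ 2 *
      (((1 - u) ^ 2 - 2 * u * (1 - u)) * ((1 - u) * Lk.vol z v w W - u * Lk.vol y v w W)
        - u * (1 - u) ^ 2 * (Lk.vol z v w W + Lk.vol y v w W))

theorem cont_q (hε : 0 < ε) (z y : E) {c : ℝ → ℝ} (hc : Continuous c) (n : ℕ) :
    Continuous fun u => c u / (‖Zz z y u‖ ^ 2 + ε ^ 2) ^ n := by
  refine hc.div ?_ fun u => by positivity
  unfold Zz; fun_prop

theorem cont_Z (z y : E) : Continuous (Zz z y) := by unfold Zz; fun_prop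

theorem int_dq (hε : 0 < ε) (z y v w W : E) : ∫ u in (0 : ℝ)..1, dq ε z y v w W u = 0 := by
  have hd : ∀ u ∈ uIcc (0 : ℝ) 1, HasDerivAt (fun u => 1 / (‖Zz z y u‖ ^ 2 + ε ^ 2) ^ 2 *
      (u * (1 - u) ^ 2 * ((1 - u) * Lk.vol z v w W - u * Lk.vol y v w W)))
      (dq ε z y v w W u) u := by
    intro u _
    have hz : HasDerivAt (fun u => Zz z y u) (-z - y) u := by
      have := (((hasDerivAt_id u).const_sub 1).smul_const z).sub ((hasDerivAt_id u).smul_const y)
      exact this.congr_deriv (by simp)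
    have h0 := (hasDerivAt_id u).const_sub 1
    have h1 := ((hasDerivAt_id u).mul (h0.pow 2)).mul
      ((h0.mul_const (Lk.vol z v w W)).sub ((hasDerivAt_id u).mul_const (Lk.vol y v w W)))
    refine ((quot hε hz 1).mul h1).congr_deriv ?_
    simp only [dq, Pi.mul_apply, Pi.pow_apply, Pi.sub_apply, id, Nat.cast_ofNat,
      Nat.add_one_sub_one, pow_one]
    ring
  have hc : Continuous (dq ε z y v w W) := by
    unfold dq
    exact ((cont_q hε z y (continuous_const.mul ((cont_Z z y).inner continuous_const)) 3).mul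
      (by fun_prop)).add ((cont_q hε z y continuous_const 2).mul (by fun_prop))
  rw [intervalIntegral.integral_eq_sub_of_hasDerivAt hd (hc.intervalIntegrable _ _)]
  simp

theorem cramer (z a b c d : E) : ‖z‖ ^ 2 * Lk.vol a b c d = ⟪z, a⟫ * Lk.vol z b c d
    - ⟪z, b⟫ * Lk.vol z a c d + ⟪z, c⟫ * Lk.vol z a b d - ⟪z, d⟫ * Lk.vol z a b c := by
  simp only [Lk.AForm2Aux.nsq_eq, Lk.vol_eq, Lk.AForm2Aux.inner_eq]
  ring

theorem key (hε : 0 < ε) (z y v w W : E) :
    (k1 ε z y v * Lk.vol z w y W + ke ε z y * Lk.vol v w y W)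
      - (k1 ε z y w * Lk.vol z v y W + ke ε z y * Lk.vol w v y W)
      = re ε z y * Lk.vol (z + y) v w W
        - (k2 ε z y W * Lk.vol z y v w + kp ε z y * Lk.vol z W v w) := by
  have hZ := cont_Z z y
  have i1 : ∀ a : E, IntervalIntegrable (fun u : ℝ => -4 * (u * (1 - u)) *
      ⟪Zz z y u, (1 - u) • a⟫ / (‖Zz z y u‖ ^ 2 + ε ^ 2) ^ 3) volume 0 1 := fun a =>
    (cont_q hε z y (Continuous.mul (by fun_prop) (hZ.inner (by fun_prop))) 3).intervalIntegrable _ _
  have i2 : IntervalIntegrable (fun u : ℝ => -4 * (1 - u) ^ 2 *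
      ⟪Zz z y u, -(u • W)⟫ / (‖Zz z y u‖ ^ 2 + ε ^ 2) ^ 3) volume 0 1 :=
    (cont_q hε z y (Continuous.mul (by fun_prop) (hZ.inner (by fun_prop))) 3).intervalIntegrable _ _
  have i3 : IntervalIntegrable (fun u : ℝ => u * (1 - u) / (‖Zz z y u‖ ^ 2 + ε ^ 2) ^ 2)
      volume 0 1 := (cont_q hε z y (by fun_prop) 2).intervalIntegrable _ _
  have i4 : IntervalIntegrable (fun u : ℝ => (1 - u) ^ 2 / (‖Zz z y u‖ ^ 2 + ε ^ 2) ^ 2)
      volume 0 1 := (cont_q hε z y (by fun_prop) 2).intervalIntegrable _ _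
  have i5 : IntervalIntegrable (fun u : ℝ => 4 * ε ^ 2 * (u * (1 - u) ^ 2) /
      (‖Zz z y u‖ ^ 2 + ε ^ 2) ^ 3) volume 0 1 :=
    (cont_q hε z y (by fun_prop) 3).intervalIntegrable _ _
  have h0 := int_dq hε z y v w W
  have e : ∀ u : ℝ, dq ε z y v w W u =
      ((-4 * (u * (1 - u)) * ⟪Zz z y u, (1 - u) • v⟫ / (‖Zz z y u‖ ^ 2 + ε ^ 2) ^ 3
          * Lk.vol z w y W + u * (1 - u) / (‖Zz z y u‖ ^ 2 + ε ^ 2) ^ 2 * Lk.vol v w y W)
        - (-4 * (u * (1 - u)) * ⟪Zz z y u, (1 - u) • w⟫ / (‖Zz z y u‖ ^ 2 + ε ^ 2) ^ 3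
          * Lk.vol z v y W + u * (1 - u) / (‖Zz z y u‖ ^ 2 + ε ^ 2) ^ 2 * Lk.vol w v y W))
      - (4 * ε ^ 2 * (u * (1 - u) ^ 2) / (‖Zz z y u‖ ^ 2 + ε ^ 2) ^ 3 * Lk.vol (z + y) v w W
        - (-4 * (1 - u) ^ 2 * ⟪Zz z y u, -(u • W)⟫ / (‖Zz z y u‖ ^ 2 + ε ^ 2) ^ 3
          * Lk.vol z y v w + (1 - u) ^ 2 / (‖Zz z y u‖ ^ 2 + ε ^ 2) ^ 2 * Lk.vol z W v w)) := by
    intro u
    have hn : ‖Zz z y u‖ ^ 2 + ε ^ 2 ≠ 0 := by positivity
    have cr := cramer (Zz z y u) (z + y) v w W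
    have e1 : ∀ a b : E, Lk.vol (Zz z y u) (z + y) a b = Lk.vol z y a b := by
      intro a b
      simp only [Lk.vol_eq, Zz, PiLp.sub_apply, PiLp.add_apply, PiLp.smul_apply, smul_eq_mul]
      ring
    have e2 : Lk.vol (Zz z y u) v w W = (1 - u) * Lk.vol z v w W - u * Lk.vol y v w W := by
      simp only [Lk.vol_eq, Zz, PiLp.sub_apply, PiLp.smul_apply, smul_eq_mul]
      ring
    have e3 : Lk.vol (z + y) v w W = Lk.vol z v w W + Lk.vol y v w W := by
      simp only [Lk.vol_eq, PiLp.add_apply]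
      ring
    have e4 : ∀ a : E, Lk.vol z a y W = -Lk.vol z y a W := by
      intro a
      simp only [Lk.vol_eq]
      ring
    have e5 : Lk.vol v w y W = Lk.vol y v w W := by simp only [Lk.vol_eq]; ring
    have e6 : Lk.vol w v y W = -Lk.vol y v w W := by simp only [Lk.vol_eq]; ring
    have e7 : Lk.vol z W v w = Lk.vol z v w W := by simp only [Lk.vol_eq]; ring
    have e8 : ⟪Zz z y u, -z - y⟫ = -⟪Zz z y u, z + y⟫ := by
      rw [← inner_neg_right, neg_add']
    rw [e1, e1, e1, e2, e3] at cr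
    rw [dq, e3, e4, e4, e5, e6, e7, e8, inner_neg_right, real_inner_smul_right,
      real_inner_smul_right, real_inner_smul_right]
    have hM := mul_inv_cancel₀ hn
    simp only [div_eq_mul_inv, ← inv_pow (‖Zz z y u‖ ^ 2 + ε ^ 2)]
    generalize (‖Zz z y u‖ ^ 2 + ε ^ 2)⁻¹ = M at hM
    generalize ‖Zz z y u‖ ^ 2 = N at hM cr
    linear_combination (-4 * u * (1 - u) ^ 2 * M ^ 3) * cr + (4 * u * (1 - u) ^ 2 * M ^ 2 *
      (Lk.vol z v w W + Lk.vol y v w W)) * hM
  simp only [e] at h0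
  rw [intervalIntegral.integral_sub ((((i1 v).mul_const _).add (i3.mul_const _)).sub
      (((i1 w).mul_const _).add (i3.mul_const _)))
      ((i5.mul_const _).sub ((i2.mul_const _).add (i4.mul_const _))),
    intervalIntegral.integral_sub (((i1 v).mul_const _).add (i3.mul_const _))
      (((i1 w).mul_const _).add (i3.mul_const _)),
    intervalIntegral.integral_sub (i5.mul_const _) ((i2.mul_const _).add (i4.mul_const _)),
    intervalIntegral.integral_add ((i1 v).mul_const _) (i3.mul_const _),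
    intervalIntegral.integral_add ((i1 w).mul_const _) (i3.mul_const _),
    intervalIntegral.integral_add (i2.mul_const _) (i4.mul_const _)] at h0
  simp only [intervalIntegral.integral_mul_const] at h0
  exact sub_eq_zero.1 h0

theorem dir {X : S → E} {ν : Measure S} [IsFiniteMeasure ν] (hX : Continuous X) (hε : 0 < ε)
    (z a b : E) :
    Integrable (fun y : S => k1 ε z y a * Lk.vol z b y (X y) + ke ε z y * Lk.vol a b y (X y)) ν ∧
      ⟪fderiv ℝ (Ae X ν ε) z a, b⟫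
        = ∫ y : S, k1 ε z y a * Lk.vol z b y (X y) + ke ε z y * Lk.vol a b y (X y) ∂ν := by
  have hπ : Continuous fun y : S => ((y : E), X y) := continuous_subtype_val.prodMk hX
  have hf : ContDiff ℝ 1 fun p : ℝ × E × E =>
      ke ε (z + p.1 • a) p.2.1 * Lk.vol (z + p.1 • a) b p.2.1 p.2.2 :=
    (((cd_ke hε).of_le (by norm_num)).comp (f := fun p : ℝ × E × E => (z + p.1 • a, p.2.1))
      (by fun_prop)).mul (cd_vol (by fun_prop) (by fun_prop) (by fun_prop) (by fun_prop))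
  have h1 := hd_int (μ := ν) hπ.aestronglyMeasurable (isCompact_range hπ)
    (Eventually.of_forall fun y => mem_range_self y) hf
    (f' := fun q : E × E => k1 ε z q.1 a * Lk.vol z b q.1 q.2 + ke ε z q.1 * Lk.vol a b q.1 q.2)
    fun q => by
      have := (hd_ke hε z q.1 a).mul (hd_vol1 z a b q.1 q.2)
      simp only [zero_smul, add_zero] at this
      exact this
  refine ⟨h1.1, ?_⟩
  have h2 : HasFDerivAt (Ae X ν ε) (fderiv ℝ (Ae X ν ε) z) (z + (0 : ℝ) • a) := by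
    rw [zero_smul, add_zero]
    exact ((cd_Ae hX hε).differentiable two_ne_zero z).hasFDerivAt
  have h3 := (h2.comp_hasDerivAt (0 : ℝ) (line z a)).inner ℝ (hasDerivAt_const (0 : ℝ) b)
  rw [inner_zero_right, zero_add] at h3
  simp only [Function.comp, Ae_inner hX hε] at h3
  exact h3.unique h1.2

end DPotAux

open DPotAux

variable {X : S → E} {φ : ℝ → S → S} {m M L ε : ℝ} {ν : Measure S}

theorem Ae_d (h : Lk.LF X φ L) (hν : Lk.Inv φ ν) (hε : 0 < ε) (z v w : E) :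
    Dc.dA (Ae X ν ε) z v w = ∫ y : S, re ε z y * Lk.vol (z + y) v w (X y) ∂ν := by
  have := hν.1
  have hX := h.contW
  obtain ⟨i1, e1⟩ := dir (ν := ν) hX hε z v w
  obtain ⟨i2, e2⟩ := dir (ν := ν) hX hε z w v
  have hP : ContDiff ℝ 1 fun y : E => kp ε z y * Lk.vol z y v w :=
    (cd_kp hε z).mul (cd_vol contDiff_const contDiff_id contDiff_const contDiff_const)
  have eP : ∀ y W : E, fderiv ℝ (fun y : E => kp ε z y * Lk.vol z y v w) y W
      = k2 ε z y W * Lk.vol z y v w + kp ε z y * Lk.vol z W v w := by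
    intro y W
    have h2 : HasFDerivAt (fun y : E => kp ε z y * Lk.vol z y v w)
        (fderiv ℝ (fun y : E => kp ε z y * Lk.vol z y v w) y) (y + (0 : ℝ) • W) := by
      rw [zero_smul, add_zero]
      exact (hP.differentiable one_ne_zero y).hasFDerivAt
    have h3 := (hd_kp hε z y W).mul (hd_vol2 z y W v w)
    simp only [zero_smul, add_zero] at h3
    have h4 := h2.comp_hasDerivAt (0 : ℝ) (line y W)
    exact h4.unique h3
  have i3 : Integrable (fun y : S => re ε z y * Lk.vol (z + y) v w (X y)) ν := by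
    refine Continuous.integrable_of_hasCompactSupport ?_ (HasCompactSupport.of_compactSpace _)
    exact ((cont_re hε).comp (f := fun y : S => (z, (y : E))) (by fun_prop)).mul
      (Lk.continuous_vol.comp (f := fun y : S => (z + (y : E), v, w, X y)) (by fun_prop))
  have i4 : Integrable
      (fun y : S => fderiv ℝ (fun y : E => kp ε z y * Lk.vol z y v w) y (X y)) ν :=
    (((hP.continuous_fderiv one_ne_zero).comp continuous_subtype_val).clm_apply
      hX).integrable_of_hasCompactSupport (HasCompactSupport.of_compactSpace _)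
  rw [Dc.dA, e1, e2, ← integral_sub i1 i2]
  simp only [key hε, ← eP]
  rw [integral_sub i3 i4, inv_zero h hν hP, sub_zero]

theorem Ae_err (h : Lk.Base X φ m M L) : ∃ C : ℝ, 0 < C ∧ ∀ ν : Measure S, Lk.Inv φ ν →
    ∀ ε, 0 < ε → ε ≤ 1 → ∀ (x : S) (v : E),
      |Dc.dA (Ae X ν ε) x (X x) v| ≤ C * ‖v‖ * ∫ y, a2 ε x y ∂ν := by
  obtain ⟨C, hC, hb⟩ := re_a2
  have hL := h.L_pos
  refine ⟨48 * (|M| + 1) * L * C, by positivity, fun ν hν ε hε h1 x v => ?_⟩
  have := hν.1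
  rw [Ae_d h.toLF hν hε, ← integral_const_mul, ← Real.norm_eq_abs]
  refine norm_integral_le_of_norm_le ?_ (Eventually.of_forall fun y => ?_)
  · refine Integrable.const_mul ?_ _
    exact ((cont_a2 hε).comp (f := fun y : S => (x, y))
      (by fun_prop)).integrable_of_hasCompactSupport (HasCompactSupport.of_compactSpace _)
  · have e : Lk.vol ((x : E) + y) (X x) v (X y) = Lk.vol ((x : E) + y) (X x) v (X y - X x) := by
      simp only [Lk.vol_eq, PiLp.sub_apply]
      ring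
    have b1 : ‖(x : E) + y‖ ≤ 2 := by
      have := norm_add_le (x : E) y
      rw [norm_eq_of_mem_sphere, norm_eq_of_mem_sphere] at this
      linarith
    have b2 : ‖X x‖ ≤ |M| + 1 := by linarith [h.up x, le_abs_self M]
    have b3 : ‖X y - X x‖ ≤ L * ‖(x : E) - y‖ := by
      rw [norm_sub_rev]
      exact h.lip x y
    have b4 : |Lk.vol ((x : E) + y) (X x) v (X y - X x)|
        ≤ 24 * (2 * (|M| + 1) * ‖v‖ * (L * ‖(x : E) - y‖)) :=
      (Lk.abs_vol_le _ _ _ _).trans (by gcongr)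
    have b5 := re_nonneg ε x y
    rw [Real.norm_eq_abs, abs_mul, abs_of_nonneg b5, e]
    calc re ε x y * |Lk.vol ((x : E) + y) (X x) v (X y - X x)|
        ≤ re ε x y * (24 * (2 * (|M| + 1) * ‖v‖ * (L * ‖(x : E) - y‖))) := by gcongr
      _ = 48 * (|M| + 1) * L * ‖v‖ * (re ε x y * ‖(x : E) - y‖) := by ring
      _ ≤ 48 * (|M| + 1) * L * ‖v‖ * (C * a2 ε x y) :=
        mul_le_mul_of_nonneg_left (hb ε hε h1 x y) (by positivity)
      _ = _ := by ring

end Pool.Agent.Lib.MP_399f8e_an.Sg
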