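import Pool.Agent.Lib.MP_399f8e_an.Gg.Bridge
import Pool.Agent.Lib.MP_399f8e_an.Lk.AMeas

open Set Filter Topology Metric MeasureTheory
open scoped RealInnerProductSpace

noncomputable section

namespace Pool.Agent.Lib.MP_399f8e_an.Sg

open Rg

/-- standing assumptions -/
structure Ctx (φ : ℝ → S → S) (m M L : ℝ) : Prop where
  base : Lk.Base (Gg.gen φ) φ m M L
  cd : ContDiff ℝ 3 (Gg.Gm φ)

/-- two-sided Lipschitz bound -/
def Bi (φ : ℝ → S → S) (T K : ℝ) : Prop := ∀ t, |t| ≤ T → Gg.Lp (φ t) K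

/-- the chord from `z` to `-y` -/
def Zz (z y : E) (u : ℝ) : E := (1 - u) • z - u • y

/-- the smoothed radial kernel -/
def ke (ε : ℝ) (z y : E) : ℝ :=
  ∫ u in (0 : ℝ)..1, u * (1 - u) / (‖Zz z y u‖ ^ 2 + ε ^ 2) ^ 2

/-- the kernel of its exterior derivative -/
def re (ε : ℝ) (z y : E) : ℝ :=
  ∫ u in (0 : ℝ)..1, 4 * ε ^ 2 * (u * (1 - u) ^ 2) / (‖Zz z y u‖ ^ 2 + ε ^ 2) ^ 3

/-- the smoothed potential of the current `X ν` -/
def Ae (X : S → E) (ν : Measure S) (ε : ℝ) (z : E) : E :=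
  ∫ y : S, (-ke ε z y) • CrossAux.cr z y (X y) ∂ν

/-- first majorant -/
def a1 (ε : ℝ) (x y : S) : ℝ := 1 / (‖(x : E) - y‖ ^ 2 + ε ^ 2)

/-- second majorant -/
def a2 (ε : ℝ) (x y : S) : ℝ := ε ^ 2 / (‖(x : E) - y‖ ^ 2 + ε ^ 2) ^ 2

/-- a volume on the sphere -/
def sig : Measure S :=
  Measure.map N ((volume : Measure E).withDensity fun y => ENNReal.ofReal (Gg.chi y))

/-- the linking density -/
def hh (X : S → E) (ν : Measure S) (x : S) : ℝ := ∫ y, Lk.gg X (x, y) ∂ν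

/-- its integral along an orbit -/
def HT (X : S → E) (φ : ℝ → S → S) (ν : Measure S) (T : ℝ) (x : S) : ℝ :=
  ∫ s in (0 : ℝ)..T, hh X ν (φ s x)

/-- the contraction of the pulled back derivative with the time direction -/
def Rr (G : ℝ × E → E) (A : E → E) (t : ℝ) (v y : E) : ℝ :=
  Dc.dA A (G (t, y)) (fderiv ℝ G (t, y) (1, 0)) (fderiv ℝ G (t, y) (0, v))

/-- a second order Taylor bound in the shell -/
def Tay (G : ℝ × E → E) (t κ : ℝ) : Prop :=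
  ∀ z z' : E, 1 ≤ ‖z‖ → ‖z‖ ≤ 2 → 1 ≤ ‖z'‖ → ‖z'‖ ≤ 2 →
    ‖G (t, z') - G (t, z) - fderiv ℝ G (t, z) (0, z' - z)‖ ≤ κ * ‖z' - z‖ ^ 2

/-- a short segment from `p` to `p + v`, near the ray of `x₀` and transverse to `X x₀` -/
structure Seg (X : S → E) (ℓ : ℝ) (x₀ : S) (n p v : E) : Prop where
  unit : ‖n‖ = 1
  px : ⟪n, (x₀ : E)⟫ = 0
  pX : ⟪n, X x₀⟫ = 0
  near : ‖p - (8 / 5 : ℝ) • (x₀ : E)‖ ≤ ℓ
  short : ‖v‖ ≤ ℓ
  tr : ‖v‖ / 3 ≤ ⟪n, v⟫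

/-- the planar majorant -/
def tw (b κ d ρ : ℝ) : ℝ := min ((d + κ * ρ ^ 2) / (d + b * ρ) ^ 3) (1 / (d + b * ρ) ^ 2)

/-- what is used of the flow in the ambient space -/
structure Core2 (G : ℝ × E → E) (B Y : E → E) : Prop where
  hG : ContDiff ℝ 3 G
  hB : ContDiff ℝ 1 B
  nG : ∀ t y, 1 / 2 < ‖y‖ → ‖G (t, y)‖ = 1
  hY : ∀ t y, 1 / 2 < ‖y‖ → fderiv ℝ G (t, y) (0, Y y) = fderiv ℝ G (t, y) (1, 0)
  perp : ∀ y, 1 / 2 < ‖y‖ → ⟪y, Y y⟫ = 0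
  one : ∀ t y, 1 / 2 < ‖y‖ → Gg.pb G B (1, 0) (t, y) = 1

theorem Ctx.cd2 {φ : ℝ → S → S} {m M L : ℝ} (h : Ctx φ m M L) : ContDiff ℝ 2 (Gg.Gm φ) :=
  h.cd.of_le (by norm_num)

theorem cont_a1 {ε : ℝ} (hε : 0 < ε) : Continuous fun p : S × S => a1 ε p.1 p.2 := by
  unfold a1
  exact continuous_const.div (by fun_prop) fun p => by positivity

theorem cont_a2 {ε : ℝ} (hε : 0 < ε) : Continuous fun p : S × S => a2 ε p.1 p.2 := by
  unfold a2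
  exact continuous_const.div (by fun_prop) fun p => by positivity

theorem a1_nonneg (ε : ℝ) (x y : S) : 0 ≤ a1 ε x y := by unfold a1; positivity

theorem a2_nonneg (ε : ℝ) (x y : S) : 0 ≤ a2 ε x y := by unfold a2; positivity

end Pool.Agent.Lib.MP_399f8e_an.Sg
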