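import Pool.Agent.Lib.MP_399f8e_an.Sg.Defs

open Set Filter Topology Metric MeasureTheory
open scoped RealInnerProductSpace

noncomputable section

namespace Pool.Agent.Lib.MP_399f8e_an.Sg

open Rg

namespace TwoAux

lemma ftc {f F : ℝ → ℝ} {a b : ℝ} (hab : a ≤ b) (hF : ContinuousOn F (Icc a b))
    (hd : ∀ x ∈ Ioo a b, HasDerivAt F (f x) x) (hf : ∀ x ∈ Ioo a b, 0 ≤ f x) :
    ∫⁻ t in Ioo a b, ENNReal.ofReal (f t) = ENNReal.ofReal (F b - F a) := by
  have hi : IntegrableOn f (Ioc a b) := intervalIntegral.integrableOn_deriv_of_nonneg hF hd hf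
  have hi' : IntervalIntegrable f volume a b :=
    (intervalIntegrable_iff_integrableOn_Ioc_of_le hab).2 hi
  rw [← intervalIntegral.integral_eq_sub_of_hasDerivAt_of_le hab hF hd hi',
    intervalIntegral.integral_of_le hab, integral_Ioc_eq_integral_Ioo,
    ofReal_integral_eq_lintegral_ofReal (hi.mono_set Ioo_subset_Ioc_self)]
  exact (ae_restrict_iff' measurableSet_Ioo).2 (Eventually.of_forall hf)

lemma lint_abs {f F : ℝ → ℝ} {h : ℝ → ENNReal} (hF : ContinuousOn F (Icc 0 1))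
    (hd : ∀ x ∈ Ioo (0 : ℝ) 1, HasDerivAt F (f x) x) (hf : ∀ x ∈ Ioo (0 : ℝ) 1, 0 ≤ f x)
    (hh : ∀ t : ℝ, 0 < |t| → h t ≤ ENNReal.ofReal (f |t|)) :
    ∫⁻ t in Icc (-1 : ℝ) 1, h t ≤ ENNReal.ofReal (2 * (F 1 - F 0)) := by
  have h1 := ftc zero_le_one hF hd hf
  have h2 : ∫⁻ t in Ioo (-1 : ℝ) 0, ENNReal.ofReal (f (-t)) =
      ENNReal.ofReal (-F (-0) - -F (-(-1))) := by
    refine ftc (F := fun t => -F (-t)) (f := fun t => f (-t)) (by norm_num) ?_ ?_ ?_
    · refine (hF.comp continuous_neg.continuousOn fun t ht => ?_).neg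
      exact ⟨by linarith [ht.2], by linarith [ht.1]⟩
    · intro x hx
      have h3 := ((hd (-x) ⟨by linarith [hx.2], by linarith [hx.1]⟩).comp x (hasDerivAt_neg x)).neg
      have h4 : f (-x) = -(f (-x) * -1) := by ring
      rw [h4]
      exact h3
    · intro x hx
      exact hf (-x) ⟨by linarith [hx.2], by linarith [hx.1]⟩
  have h3 : ∫⁻ t in Icc (-1 : ℝ) 0, h t ≤ ENNReal.ofReal (F 1 - F 0) := by
    rw [← setLIntegral_congr Ioo_ae_eq_Icc]
    refine le_trans (setLIntegral_mono' measurableSet_Ioo fun t ht => ?_) (h2.le.trans_eq ?_)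
    · have h5 := hh t (abs_pos.2 ht.2.ne)
      rwa [abs_of_neg ht.2] at h5
    · rw [neg_zero, neg_neg]
      congr 1
      ring
  have h4 : ∫⁻ t in Icc (0 : ℝ) 1, h t ≤ ENNReal.ofReal (F 1 - F 0) := by
    rw [← setLIntegral_congr Ioo_ae_eq_Icc]
    refine le_trans (setLIntegral_mono' measurableSet_Ioo fun t ht => ?_) h1.le
    have h5 := hh t (abs_pos.2 ht.1.ne')
    rwa [abs_of_pos ht.1] at h5
  rw [← Icc_union_Icc_eq_Icc (by norm_num : (-1 : ℝ) ≤ 0) zero_le_one]
  refine (lintegral_union_le _ _ _).trans ((add_le_add h3 h4).trans_eq ?_)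
  rw [ENNReal.ofReal_mul (by norm_num), ← two_mul]
  norm_num

lemma tw_le {b c d ρ : ℝ} (hb : 0 < b) (hc : 0 < c) (hd : 0 ≤ d) (hρ : 0 < ρ) :
    tw b (b / c) d ρ ≤ d / (d + b * ρ) ^ 3 + 2 / b ^ 2 / (ρ * (ρ + c)) := by
  have h0 : 0 < b * ρ := by positivity
  have h1 : 0 ≤ d / (d + b * ρ) ^ 3 := by positivity
  unfold tw
  rcases le_total ρ c with h | h
  · refine (min_le_left _ _).trans ?_
    rw [add_div]
    refine add_le_add le_rfl ?_
    calc b / c * ρ ^ 2 / (d + b * ρ) ^ 3 ≤ b / c * ρ ^ 2 / (b * ρ) ^ 3 := by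
          gcongr
          linarith
      _ = 2 / b ^ 2 / (ρ * (c + c)) := by
          field_simp
          ring
      _ ≤ _ := by gcongr
  · refine (min_le_right _ _).trans (le_add_of_nonneg_of_le h1 ?_)
    calc 1 / (d + b * ρ) ^ 2 ≤ 1 / (b * ρ) ^ 2 := by
          gcongr
          linarith
      _ = 2 / b ^ 2 / (ρ * (ρ + ρ)) := by
          field_simp
          ring
      _ ≤ _ := by gcongr

lemma inner {b c d a : ℝ} (hb : 0 < b) (hc : 0 < c) (hd : 0 ≤ d) (ha : 0 < a) :
    ∫⁻ β in Icc (-1 : ℝ) 1, ENNReal.ofReal (tw b (b / c) d (a + |β|)) ≤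
      ENNReal.ofReal (d / (b * (d + b * a) ^ 2) +
        4 / (b ^ 2 * c) * (Real.log (a + c) - Real.log a)) := by
  have hD : ∀ x : ℝ, 0 ≤ x → HasDerivAt (fun t : ℝ => -(d / (2 * b)) * ((d + b * (a + t)) ^ 2)⁻¹ +
      2 / (b ^ 2 * c) * (Real.log (a + t) - Real.log (a + t + c)))
      (d / (d + b * (a + x)) ^ 3 + 2 / b ^ 2 / ((a + x) * (a + x + c))) x := by
    intro x hx
    have p1 : 0 < a + x := by linarith
    have p2 : 0 < a + x + c := by linarith
    have p3 : 0 < d + b * (a + x) := by positivity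
    have d0 : HasDerivAt (fun t : ℝ => a + t) 1 x := (hasDerivAt_id x).const_add a
    have d1 := (((d0.const_mul b).const_add d).pow 2).inv (pow_ne_zero 2 p3.ne')
    have d2 := d0.log p1.ne'
    have d3 := (d0.add_const c).log p2.ne'
    have d4 := (d1.const_mul (-(d / (2 * b)))).add ((d2.sub d3).const_mul (2 / (b ^ 2 * c)))
    refine d4.congr_deriv ?_
    simp only [Pi.pow_apply]
    field_simp
    ring
  refine (lint_abs (fun x hx => (hD x hx.1).continuousAt.continuousWithinAt)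
    (fun x hx => hD x hx.1.le) (fun x hx => ?_) (fun t ht => ENNReal.ofReal_le_ofReal
      (tw_le hb hc hd (by linarith)))).trans (ENNReal.ofReal_le_ofReal ?_)
  · have := hx.1
    positivity
  · have q1 : Real.log (a + 1) ≤ Real.log (a + 1 + c) :=
      Real.log_le_log (by linarith) (by linarith)
    have q2 : 0 ≤ d / (2 * b) * ((d + b * (a + 1)) ^ 2)⁻¹ := by positivity
    have q3 : 2 / (b ^ 2 * c) * (Real.log (a + 1) - Real.log (a + 1 + c)) ≤ 0 :=
      mul_nonpos_of_nonneg_of_nonpos (by positivity) (by linarith)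
    have q4 : d / (b * (d + b * a) ^ 2) = 2 * (d / (2 * b) * ((d + b * a) ^ 2)⁻¹) := by
      have p3 : 0 < d + b * a := by positivity
      field_simp
    have q5 : 4 / (b ^ 2 * c) = 2 * (2 / (b ^ 2 * c)) := by ring
    rw [q4, q5]
    simp only [add_zero]
    linarith

lemma outer {b c d : ℝ} (hb : 0 < b) (hc : 0 < c) (hc1 : c ≤ 1) (hd : 0 ≤ d) :
    ∫⁻ α in Icc (-1 : ℝ) 1, ∫⁻ β in Icc (-1 : ℝ) 1,
      ENNReal.ofReal (tw b (b / c) d (|α| + |β|)) ≤
      ENNReal.ofReal (2 / b ^ 2 * (9 - 4 * Real.log c)) := by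
  have hC : ContinuousOn (fun t : ℝ => -(d / b ^ 2) * (d + b * t)⁻¹ +
      4 / (b ^ 2 * c) * ((t + c) * Real.log (t + c) - t * Real.log t)) (Icc 0 1) := by
    refine ContinuousOn.add ?_ (Continuous.continuousOn (continuous_const.mul
      ((Real.continuous_mul_log.comp (continuous_id.add continuous_const)).sub
        Real.continuous_mul_log)))
    rcases hd.eq_or_lt with rfl | hd'
    · simp only [zero_div, neg_zero, zero_mul]
      exact continuousOn_const
    · refine continuousOn_const.mul (ContinuousOn.inv₀ (by fun_prop) fun t ht => ?_)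
      have := ht.1
      positivity
  have hD : ∀ x ∈ Ioo (0 : ℝ) 1, HasDerivAt (fun t : ℝ => -(d / b ^ 2) * (d + b * t)⁻¹ +
      4 / (b ^ 2 * c) * ((t + c) * Real.log (t + c) - t * Real.log t))
      (d / (b * (d + b * x) ^ 2) + 4 / (b ^ 2 * c) * (Real.log (x + c) - Real.log x)) x := by
    intro x hx
    have p1 := hx.1
    have p2 : 0 < x + c := by linarith
    have p3 : 0 < d + b * x := by positivity
    have d0 : HasDerivAt (fun t : ℝ => t) 1 x := hasDerivAt_id x
    have d1 := ((d0.const_mul b).const_add d).inv p3.ne'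
    have d2 := d0.mul (d0.log p1.ne')
    have d3 := (d0.add_const c).mul ((d0.add_const c).log p2.ne')
    have d4 := (d1.const_mul (-(d / b ^ 2))).add ((d3.sub d2).const_mul (4 / (b ^ 2 * c)))
    refine d4.congr_deriv ?_
    field_simp
    ring
  refine (lint_abs hC hD (fun x hx => ?_) (fun t ht => inner hb hc hd ht)).trans
    (ENNReal.ofReal_le_ofReal ?_)
  · have p1 := hx.1
    have q1 : Real.log x ≤ Real.log (x + c) := Real.log_le_log p1 (by linarith)
    exact add_nonneg (by positivity) (mul_nonneg (by positivity) (by linarith))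
  · have q1 : 0 ≤ d / b ^ 2 * (d + b * 1)⁻¹ := by positivity
    have q2 : d / b ^ 2 * (d + b * 0)⁻¹ ≤ 1 / b ^ 2 := by
      rw [mul_zero, add_zero, div_mul_eq_mul_div]
      gcongr
      exact mul_inv_le_one
    have q3 : (1 + c) * Real.log (1 + c) ≤ 2 * c := by
      have := Real.log_le_sub_one_of_pos (by linarith : 0 < 1 + c)
      have h0 : 0 ≤ Real.log (1 + c) := Real.log_nonneg (by linarith)
      nlinarith
    have q4 : 4 / (b ^ 2 * c) * ((1 + c) * Real.log (1 + c)) ≤ 8 * (1 / b ^ 2) := by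
      refine (mul_le_mul_of_nonneg_left q3 (by positivity)).trans_eq ?_
      field_simp
      ring
    have q5 : 4 / (b ^ 2 * c) * (c * Real.log c) = 4 * (1 / b ^ 2 * Real.log c) := by
      field_simp
    have q6 : 2 / b ^ 2 * (9 - 4 * Real.log c) =
        18 * (1 / b ^ 2) - 8 * (1 / b ^ 2 * Real.log c) := by ring
    rw [q6]
    simp only [Real.log_one, mul_zero, zero_mul, sub_zero, zero_add] at q2 ⊢
    linarith

end TwoAux

theorem two : ∃ C : ℝ, 0 < C ∧ ∀ b κ d : ℝ, 0 < b → b ≤ 1 → 1 ≤ κ → 0 ≤ d →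
    ∫⁻ α in Icc (-1 : ℝ) 1, ∫⁻ β in Icc (-1 : ℝ) 1, ENNReal.ofReal (tw b κ d (|α| + |β|))
      ≤ ENNReal.ofReal (C / b ^ 2 * Real.log (2 + κ / b)) := by
  refine ⟨26, by norm_num, fun b κ d hb hb1 hκ hd => ?_⟩
  have hκ0 : 0 < κ := by linarith
  have hc : 0 < b / κ := by positivity
  have hc1 : b / κ ≤ 1 := (div_le_one hκ0).2 (by linarith)
  have h := TwoAux.outer hb hc hc1 hd
  have e : b / (b / κ) = κ := by field_simp
  rw [e] at h
  refine h.trans (ENNReal.ofReal_le_ofReal ?_)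
  have h1 : 1 ≤ κ / b := (one_le_div hb).2 (by linarith)
  have h2 : Real.log (b / κ) = -Real.log (κ / b) := by rw [← Real.log_inv, inv_div]
  have h3 : Real.log (κ / b) ≤ Real.log (2 + κ / b) :=
    Real.log_le_log (by linarith) (by linarith)
  have h4 : 1 ≤ Real.log (2 + κ / b) := by
    rw [Real.le_log_iff_exp_le (by linarith)]
    linarith [Real.exp_one_lt_d9]
  have h5 : 26 / b ^ 2 * Real.log (2 + κ / b) = 2 / b ^ 2 * (13 * Real.log (2 + κ / b)) := by ring
  rw [h5, h2]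
  exact mul_le_mul_of_nonneg_left (by linarith) (by positivity)

end Pool.Agent.Lib.MP_399f8e_an.Sg
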