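import Pool.Agent.Lib.MP_399f8e_an.Sg.Pot
import Pool.Agent.Lib.MP_399f8e_an.Sg.Two
import Pool.Agent.Lib.MP_399f8e_an.Sg.Colip

open Set Filter Topology Metric MeasureTheory
open scoped RealInnerProductSpace

noncomputable section

namespace Pool.Agent.Lib.MP_399f8e_an.Sg

open Rg

variable {φ : ℝ → S → S} {m M L : ℝ}

namespace FaceAux

/-- an affine substitution into the interval from minus one to one -/
theorem subst (g : ℝ → ENNReal) {s c τ : ℝ} (h0 : 0 ≤ s) (h1 : s ≤ 1) (hc : c ∈ Icc (0 : ℝ) 1)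
    (hτ : τ ≤ 1) :
    ∫⁻ θ in Icc 0 τ, ENNReal.ofReal s * g ((θ - c) * s) ≤ ∫⁻ β in Icc (-1 : ℝ) 1, g β := by
  rcases h0.eq_or_lt with rfl | hs
  · simp
  have hd : ∀ θ ∈ Icc 0 τ, HasDerivWithinAt (fun θ : ℝ => (θ - c) * s) s (Icc 0 τ) θ :=
    fun θ _ => by simpa using (((hasDerivAt_id θ).sub_const c).mul_const s).hasDerivWithinAt
  have hi : InjOn (fun θ : ℝ => (θ - c) * s) (Icc 0 τ) := fun x _ y _ h => by
    have := mul_right_cancel₀ hs.ne' h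
    linarith
  have e := lintegral_image_eq_lintegral_abs_deriv_mul measurableSet_Icc hd hi g
  simp only [abs_of_pos hs] at e
  rw [← e]
  refine lintegral_mono_set ?_
  rintro _ ⟨θ, hθ, rfl⟩
  constructor <;> nlinarith [hθ.1, hθ.2, hc.1, hc.2]

theorem tw_nonneg {b κ d ρ : ℝ} (hb : 0 ≤ b) (hκ : 0 ≤ κ) (hd : 0 ≤ d) (hρ : 0 ≤ ρ) :
    0 ≤ tw b κ d ρ := le_min (by positivity) (by positivity)

theorem vol_W {a : E} (e : S) (a' e' : E) (r s : ℝ) :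
    |Lk.vol a a' e e'| ≤ 24 * (‖a'‖ * ‖e'‖) * ‖a - e - r • a' + s • e'‖ := by
  have e1 : Lk.vol a a' e e' = Lk.vol (a - e - r • a' + s • e') a' e e' := by
    simp only [Lk.vol_eq, PiLp.sub_apply, PiLp.add_apply, PiLp.smul_apply, smul_eq_mul]
    ring
  rw [e1]
  refine (Lk.abs_vol_le _ _ _ _).trans (le_of_eq ?_)
  rw [norm_coe]
  ring

theorem vol_D {a : E} (e : S) (a' e' : E) :
    |Lk.vol a a' e e'| ≤ 24 * (‖a'‖ * ‖e'‖) * ‖a - e‖ := by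
  simpa using vol_W (a := a) e a' e' 0 0

theorem ke_vol (ε : ℝ) {a : E} (ha : ‖a‖ = 1) (e : S) (a' e' : E) :
    ke ε a e * |Lk.vol a a' e e'| ≤ 30 / ‖a - e‖ ^ 3 * |Lk.vol a a' e e'| := by
  by_cases h : (⟨a, by simpa using ha⟩ : S) = e
  · have h1 : a = e := congrArg Subtype.val h
    have h2 := vol_D (a := a) e a' e'
    rw [h1, sub_self, norm_zero, mul_zero] at h2
    rw [h1, le_antisymm h2 (abs_nonneg _), mul_zero, mul_zero]
  · exact mul_le_mul_of_nonneg_right ((ke_le ε _ e h).trans (Lk.gaussK_le _ e h).2) (abs_nonneg _)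

theorem alg {D V P c b κ d ρ : ℝ} (hV : 0 ≤ V) (hP : 0 ≤ P) (hc : 1 ≤ c) (hb : 0 < b)
    (hκ : 0 ≤ κ) (hd : 0 ≤ d) (hρ : 0 ≤ ρ) (h1 : V ≤ P * D) (h2 : V ≤ P * (c * (d + κ * ρ ^ 2)))
    (h3 : d + b * ρ ≤ 3 * D) : 30 / D ^ 3 * V ≤ 810 * c * P * tw b κ d ρ := by
  have hs : 0 ≤ d + b * ρ := by positivity
  have ht := tw_nonneg hb.le hκ hd hρ
  rcases hs.eq_or_lt with hs | hs
  · have hbρ : 0 ≤ b * ρ := by positivity
    have d0 : d = 0 := by linarith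
    have r0 : ρ = 0 := (mul_eq_zero.1 (by linarith : b * ρ = 0)).resolve_left hb.ne'
    have V0 : V = 0 := le_antisymm (by simpa [d0, r0] using h2) hV
    rw [V0, mul_zero]
    positivity
  have hD : 0 < D := by linarith
  have k3 : 30 / D ^ 3 ≤ 810 / (d + b * ρ) ^ 3 := by
    rw [div_le_div_iff₀ (by positivity) (by positivity)]
    have := pow_le_pow_left₀ hs.le h3 3
    nlinarith
  have k2 : 30 / D ^ 2 ≤ 810 / (d + b * ρ) ^ 2 := by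
    rw [div_le_div_iff₀ (by positivity) (by positivity)]
    have := pow_le_pow_left₀ hs.le h3 2
    nlinarith [sq_nonneg D]
  rw [tw, mul_min_of_nonneg _ _ (by positivity)]
  refine le_min ?_ ?_
  · calc 30 / D ^ 3 * V ≤ 810 / (d + b * ρ) ^ 3 * (P * (c * (d + κ * ρ ^ 2))) := by gcongr
      _ = _ := by ring
  · calc 30 / D ^ 3 * V ≤ 30 / D ^ 3 * (P * D) := by gcongr
      _ = 30 / D ^ 2 * (1 * P) := by field_simp
      _ ≤ 810 / (d + b * ρ) ^ 2 * (c * P) := by gcongr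
      _ = _ := by ring

theorem exmin {f : ℝ → ℝ → ℝ} (hf : Continuous fun q : ℝ × ℝ => f q.1 q.2) {τ : ℝ} (hτ : 0 ≤ τ) :
    ∃ θ₁ ∈ Icc (0 : ℝ) 1, ∃ u₁ ∈ Icc 0 τ, ∀ θ ∈ Icc (0 : ℝ) 1, ∀ u ∈ Icc 0 τ, f θ₁ u₁ ≤ f θ u := by
  obtain ⟨q, hq, hmin⟩ := ((isCompact_Icc (a := (0 : ℝ)) (b := 1)).prod
    (isCompact_Icc (a := (0 : ℝ)) (b := τ))).exists_isMinOn
    ⟨(0, 0), ⟨left_mem_Icc.2 zero_le_one, left_mem_Icc.2 hτ⟩⟩ hf.continuousOn
  exact ⟨q.1, hq.1, q.2, hq.2, fun θ hθ u hu => isMinOn_iff.1 hmin (θ, u) ⟨hθ, hu⟩⟩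

variable {X : S → E} {A A' : ℝ → E} {s K κ τ b ε ℓ : ℝ}

/-- the orbit segment stays far from the curve -/
theorem far (h : Lk.Base X φ m M L) (hK : 1 ≤ K) (hs : s ≤ 1) (hτ : τ ≤ 1) (hℓ : 0 < ℓ)
    (hA : ∀ θ ∈ Icc (0 : ℝ) 1, ‖A θ‖ = 1) (hA' : ∀ θ ∈ Icc (0 : ℝ) 1, ‖A' θ‖ ≤ 4 * K * s) (y : S)
    (hf : ∀ θ ∈ Icc (0 : ℝ) 1, ∀ u ∈ Icc 0 τ, ℓ ≤ K * ‖A θ - φ u y‖) :
    ∫⁻ u in Icc 0 τ, ∫⁻ θ in Icc (0 : ℝ) 1, ENNReal.ofReal
      (ke ε (A θ) (φ u y) * |Lk.vol (A θ) (A' θ) (φ u y) (X (φ u y))|) ≤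
      ENNReal.ofReal (2880 * M / ℓ ^ 2 * K ^ 3) := by
  have hM : 0 < M := h.m_pos.trans_le ((h.low y).trans (h.up y))
  have pt : ∀ u ∈ Icc 0 τ, ∀ θ ∈ Icc (0 : ℝ) 1,
      ke ε (A θ) (φ u y) * |Lk.vol (A θ) (A' θ) (φ u y) (X (φ u y))| ≤
        2880 * M / ℓ ^ 2 * K ^ 3 := by
    intro u hu θ hθ
    have h1 := hf θ hθ u hu
    have hD : 0 < ‖A θ - φ u y‖ := by
      by_contra k
      have : K * ‖A θ - φ u y‖ ≤ 0 := mul_nonpos_of_nonneg_of_nonpos (by linarith) (not_lt.1 k)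
      linarith
    have h2 : ‖A' θ‖ ≤ 4 * K := (hA' θ hθ).trans (by nlinarith)
    have h3 := h.up (φ u y)
    have h4 : 1 / ‖A θ - φ u y‖ ^ 2 ≤ K ^ 2 / ℓ ^ 2 := by
      rw [div_le_div_iff₀ (by positivity) (by positivity), one_mul, ← mul_pow]
      exact pow_le_pow_left₀ hℓ.le h1 2
    calc _ ≤ 30 / ‖A θ - φ u y‖ ^ 3 * |Lk.vol (A θ) (A' θ) (φ u y) (X (φ u y))| :=
          ke_vol ε (hA θ hθ) _ _ _
      _ ≤ 30 / ‖A θ - φ u y‖ ^ 3 * (24 * (4 * K * M) * ‖A θ - φ u y‖) := by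
          gcongr
          refine (vol_D _ _ _).trans ?_
          gcongr
      _ = 2880 * K * M * (1 / ‖A θ - φ u y‖ ^ 2) := by
          field_simp
          ring
      _ ≤ 2880 * K * M * (K ^ 2 / ℓ ^ 2) := by gcongr
      _ = _ := by ring
  calc _ ≤ ∫⁻ _ in Icc 0 τ, ∫⁻ _ in Icc (0 : ℝ) 1, ENNReal.ofReal (2880 * M / ℓ ^ 2 * K ^ 3) :=
        setLIntegral_mono' measurableSet_Icc fun u hu => setLIntegral_mono' measurableSet_Icc
          fun θ hθ => ENNReal.ofReal_le_ofReal (pt u hu θ hθ)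
    _ = ENNReal.ofReal (2880 * M / ℓ ^ 2 * K ^ 3) * ENNReal.ofReal τ := by
        simp [Real.volume_Icc]
    _ ≤ _ := mul_le_of_le_one_right' (ENNReal.ofReal_le_one.2 hτ)

/-- the orbit segment crosses the curve transversally -/
theorem near (h : Lk.Base X φ m M L) (hK : 1 ≤ K) (hκ : 1 ≤ κ) (hs0 : 0 ≤ s) (hs : s ≤ 1)
    (hτ0 : 0 ≤ τ) (hτ : τ ≤ 1) (hb : 0 < b) (cA : Continuous A)
    (hA : ∀ θ ∈ Icc (0 : ℝ) 1, ‖A θ‖ = 1) (hA' : ∀ θ ∈ Icc (0 : ℝ) 1, ‖A' θ‖ ≤ 4 * K * s)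
    (hT : ∀ θ ∈ Icc (0 : ℝ) 1, ∀ θ' ∈ Icc (0 : ℝ) 1,
      ‖A θ' - A θ - (θ' - θ) • A' θ‖ ≤ κ * (|θ - θ'| * s) ^ 2) (y : S)
    (hc : ∀ θ ∈ Icc (0 : ℝ) 1, ∀ θ' ∈ Icc (0 : ℝ) 1, ∀ u ∈ Icc 0 τ, ∀ u' ∈ Icc 0 τ,
      b * (|θ - θ'| * s + |u - u'|) ≤ ‖A θ - φ u y‖ + ‖A θ' - φ u' y‖) :
    ∃ d : ℝ, 0 ≤ d ∧ ∫⁻ u in Icc 0 τ, ∫⁻ θ in Icc (0 : ℝ) 1, ENNReal.ofReal
      (ke ε (A θ) (φ u y) * |Lk.vol (A θ) (A' θ) (φ u y) (X (φ u y))|) ≤
      ENNReal.ofReal (810 * (1 + L * M) * (96 * K * M)) *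
        ∫⁻ α in Icc (-1 : ℝ) 1, ∫⁻ β in Icc (-1 : ℝ) 1, ENNReal.ofReal (tw b κ d (|α| + |β|)) := by
  have hM : 0 < M := h.m_pos.trans_le ((h.low y).trans (h.up y))
  have hL := h.L_pos
  have co : Continuous fun u => (φ u y : E) := continuous_subtype_val.comp (h.toLF.cont_orb y)
  have cD : Continuous fun q : ℝ × ℝ => ‖A q.1 - φ q.2 y‖ :=
    ((cA.comp continuous_fst).sub (co.comp continuous_snd)).norm
  obtain ⟨θ₁, hθ₁, u₁, hu₁, hmin⟩ := exmin (f := fun θ u => ‖A θ - φ u y‖) cD hτ0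
  obtain ⟨d, hd⟩ : ∃ d, d = ‖A θ₁ - φ u₁ y‖ := ⟨_, rfl⟩
  have d0 : 0 ≤ d := hd ▸ norm_nonneg _
  refine ⟨d, d0, ?_⟩
  obtain ⟨c, hcc⟩ : ∃ c, c = 810 * (1 + L * M) * (96 * K * M) := ⟨_, rfl⟩
  have c0 : 0 ≤ c := by rw [hcc]; positivity
  rw [← hcc]
  have pt : ∀ u ∈ Icc 0 τ, ∀ θ ∈ Icc (0 : ℝ) 1,
      ke ε (A θ) (φ u y) * |Lk.vol (A θ) (A' θ) (φ u y) (X (φ u y))| ≤
        c * (s * tw b κ d (|(u - u₁) * 1| + |(θ - θ₁) * s|)) := by
    intro u hu θ hθ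
    have m1 := hmin θ hθ u hu
    have m2 := hc θ hθ θ₁ hθ₁ u hu u₁ hu₁
    have er : |(u - u₁) * 1| + |(θ - θ₁) * s| = |θ - θ₁| * s + |u - u₁| := by
      rw [mul_one, abs_mul, abs_of_nonneg hs0, add_comm]
    rw [er]
    have hα : 0 ≤ |θ - θ₁| * s := by positivity
    have hβ : 0 ≤ |u - u₁| := abs_nonneg _
    have t1 := hT θ hθ θ₁ hθ₁
    have t2 := h.toLF.taylor h.up (u₁ - u) (φ u y)
    rw [← h.add, sub_add_cancel, ← sq_abs, abs_sub_comm] at t2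
    have ew : A θ - φ u y - (θ - θ₁) • A' θ + (u - u₁) • X (φ u y) =
        (A θ₁ - φ u₁ y) - (A θ₁ - A θ - (θ₁ - θ) • A' θ) +
          ((φ u₁ y : E) - φ u y - (u₁ - u) • X (φ u y)) := by module
    have hw : ‖A θ - φ u y - (θ - θ₁) • A' θ + (u - u₁) • X (φ u y)‖ ≤
        (1 + L * M) * (d + κ * (|θ - θ₁| * s + |u - u₁|) ^ 2) := by
      rw [ew]
      refine (norm_add_le _ _).trans ((add_le_add (norm_sub_le _ _) le_rfl).trans ?_)
      have q1 : (|θ - θ₁| * s) ^ 2 ≤ (|θ - θ₁| * s + |u - u₁|) ^ 2 :=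
        pow_le_pow_left₀ hα (by linarith) 2
      have q2 : |u - u₁| ^ 2 ≤ κ * (|θ - θ₁| * s + |u - u₁|) ^ 2 :=
        (pow_le_pow_left₀ hβ (by linarith) 2).trans (le_mul_of_one_le_left (by positivity) hκ)
      have q3 := mul_le_mul_of_nonneg_left q1 (by linarith : 0 ≤ κ)
      have q4 := mul_le_mul_of_nonneg_left q2 (by positivity : 0 ≤ L * M)
      have q5 : 0 ≤ L * M * d := by positivity
      nlinarith
    have n1 := hA' θ hθ
    have n2 := h.up (φ u y)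
    have hP : 24 * (‖A' θ‖ * ‖X (φ u y)‖) ≤ 96 * K * M * s :=
      (by gcongr : 24 * (‖A' θ‖ * ‖X (φ u y)‖) ≤ 24 * (4 * K * s * M)).trans (le_of_eq (by ring))
    refine (ke_vol ε (hA θ hθ) _ _ _).trans ((alg (P := 96 * K * M * s) (c := 1 + L * M) (κ := κ)
      (abs_nonneg _) (by positivity) (by nlinarith [mul_pos hL hM]) hb (by linarith) d0
      (add_nonneg hα hβ) ((vol_D _ _ _).trans (by gcongr))
      ((vol_W _ _ _ (θ - θ₁) (u - u₁)).trans (by gcongr)) (by linarith)).trans (le_of_eq ?_))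
    rw [hcc]
    ring
  calc _ ≤ ∫⁻ u in Icc 0 τ, ∫⁻ θ in Icc (0 : ℝ) 1, ENNReal.ofReal c * (ENNReal.ofReal s *
          ENNReal.ofReal (tw b κ d (|(u - u₁) * 1| + |(θ - θ₁) * s|))) :=
        setLIntegral_mono' measurableSet_Icc fun u hu => setLIntegral_mono' measurableSet_Icc
          fun θ hθ => by
            rw [← ENNReal.ofReal_mul hs0, ← ENNReal.ofReal_mul c0]
            exact ENNReal.ofReal_le_ofReal (pt u hu θ hθ)
    _ ≤ ∫⁻ u in Icc 0 τ, ENNReal.ofReal c * (ENNReal.ofReal 1 * ∫⁻ β in Icc (-1 : ℝ) 1,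
          ENNReal.ofReal (tw b κ d (|(u - u₁) * 1| + |β|))) := lintegral_mono fun u => by
        rw [lintegral_const_mul' _ _ ENNReal.ofReal_ne_top, ENNReal.ofReal_one, one_mul]
        exact mul_le_mul_right (subst (fun β => ENNReal.ofReal (tw b κ d (|(u - u₁) * 1| + |β|)))
          hs0 hs hθ₁ le_rfl) _
    _ ≤ _ := by
        rw [lintegral_const_mul' _ _ ENNReal.ofReal_ne_top]
        exact mul_le_mul_right (subst (fun α => ∫⁻ β in Icc (-1 : ℝ) 1,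
          ENNReal.ofReal (tw b κ d (|α| + |β|))) zero_le_one le_rfl ⟨hu₁.1, hu₁.2.trans hτ⟩ hτ) _

theorem one_le_log {x : ℝ} (hx : 1 ≤ x) : 1 ≤ Real.log (2 + x) := by
  rw [Real.le_log_iff_exp_le (by linarith)]
  linarith [Real.exp_one_lt_d9]

theorem log_le {x q : ℝ} (hx : 1 ≤ x) (h0 : 0 < q) (h1 : q ≤ 1) :
    Real.log (2 + x / q) ≤ (1 + 1 / q) * Real.log (2 + x) := by
  have h2 : 2 + x / q ≤ (2 + x) * (1 / q) := by
    rw [mul_one_div, add_div]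
    have : 2 ≤ 2 / q := by rw [le_div_iff₀ h0]; linarith
    linarith
  have h3 := Real.log_le_log (by positivity) h2
  rw [Real.log_mul (by positivity) (by positivity)] at h3
  have h4 := Real.log_le_sub_one_of_pos (show 0 < 1 / q by positivity)
  have h5 := mul_le_mul_of_nonneg_left (one_le_log hx) (show 0 ≤ 1 / q by positivity)
  linarith

/-- from a bound along orbit segments to the integral of the potential along the curve -/
theorem glue (h : Lk.Base X φ m M L) {ν : Measure S} (hν : Lk.Inv φ ν) (hε : 0 < ε) (hτ : 0 < τ)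
    (cA : Continuous A) (cA' : Continuous A') {B : ℝ} (hB : 0 ≤ B)
    (hb : ∀ y : S, ∫⁻ u in Icc 0 τ, ∫⁻ θ in Icc (0 : ℝ) 1, ENNReal.ofReal
      (ke ε (A θ) (φ u y) * |Lk.vol (A θ) (A' θ) (φ u y) (X (φ u y))|) ≤ ENNReal.ofReal B) :
    |∫ θ in (0 : ℝ)..1, ⟪Ae X ν ε (A θ), A' θ⟫| ≤ B / τ := by
  have := hν.1
  have cX := h.toLF.contW
  have c1 : Continuous fun q : ℝ × S => ke ε (A q.1) q.2 :=
    (cd_ke hε).continuous.comp (f := fun q : ℝ × S => (A q.1, (q.2 : E))) (by fun_prop)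
  have c2 : Continuous fun q : ℝ × S => Lk.vol (A q.1) (A' q.1) q.2 (X q.2) :=
    Lk.continuous_vol.comp (f := fun q : ℝ × S => (A q.1, A' q.1, (q.2 : E), X q.2)) (by fun_prop)
  have mf : Measurable fun q : ℝ × S =>
      ENNReal.ofReal (ke ε (A q.1) q.2 * |Lk.vol (A q.1) (A' q.1) q.2 (X q.2)|) :=
    (c1.mul c2.abs).measurable.ennreal_ofReal
  have h1 := Lk.AMeasAux.inv_mul h.toIsFl hν
    (mf.lintegral_prod_left' (μ := volume.restrict (Icc (0 : ℝ) 1))) τ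
  have h2 := h1.le.trans (lintegral_mono hb)
  rw [lintegral_const, measure_univ, mul_one] at h2
  have h3 : ∫⁻ θ in Icc (0 : ℝ) 1, ENNReal.ofReal ‖⟪Ae X ν ε (A θ), A' θ⟫‖ ≤
      ∫⁻ y : S, (∫⁻ θ in Icc (0 : ℝ) 1,
        ENNReal.ofReal (ke ε (A θ) y * |Lk.vol (A θ) (A' θ) y (X y)|)) ∂ν := by
    rw [← lintegral_lintegral_swap (f := fun (θ : ℝ) (y : S) =>
      ENNReal.ofReal (ke ε (A θ) y * |Lk.vol (A θ) (A' θ) y (X y)|)) mf.aemeasurable]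
    refine lintegral_mono fun θ => ?_
    rw [Ae_inner cX hε, ofReal_norm]
    refine (enorm_integral_le_lintegral_enorm _).trans (le_of_eq (lintegral_congr fun y => ?_))
    rw [← ofReal_norm, Real.norm_eq_abs, abs_mul, abs_of_nonneg (ke_nonneg _ _ _)]
  have h4 : ∫⁻ θ in Icc (0 : ℝ) 1, ENNReal.ofReal ‖⟪Ae X ν ε (A θ), A' θ⟫‖ ≤
      ENNReal.ofReal (B / τ) := by
    rw [ENNReal.ofReal_div_of_pos hτ, ENNReal.le_div_iff_mul_le
      (Or.inl (ENNReal.ofReal_pos.2 hτ).ne') (Or.inl ENNReal.ofReal_ne_top)]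
    exact (mul_le_mul_left h3 _).trans h2
  rw [intervalIntegral.integral_of_le zero_le_one, ← integral_Icc_eq_integral_Ioc,
    ← Real.norm_eq_abs]
  exact (norm_integral_le_lintegral_norm _).trans
    (ENNReal.toReal_le_of_le_ofReal (by positivity) h4)

end FaceAux

open FaceAux in
theorem face (h : Ctx φ m M L) : ∃ ℓ C : ℝ, 0 < ℓ ∧ ℓ ≤ 1 / 100 ∧ 0 < C ∧
    ∀ ν : Measure S, Lk.Inv φ ν → ∀ ε t K κ : ℝ, 0 < ε → 1 ≤ K → 1 ≤ κ → Gg.Lp (φ t) K →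
      Gg.Lp (φ (-t)) K → Tay (Gg.Gm φ) t κ → ∀ (x₀ : S) (n p v : E), Seg (Gg.gen φ) ℓ x₀ n p v →
        |∫ θ in (0 : ℝ)..1, Gg.pb (Gg.Gm φ) (Ae (Gg.gen φ) ν ε) (0, v) (t, p + θ • v)|
          ≤ C * K ^ 3 * Real.log (2 + κ * K) := by
  obtain ⟨ℓ, τ, q, hℓ, hℓ1, hτ, hτ1, hq, hq1, hcol⟩ := colip h.base
  obtain ⟨C₂, hC₂, htwo⟩ := two
  have hM : 0 < M := h.base.m_pos.trans_le ((h.base.low pole).trans (h.base.up pole))
  have hL := h.base.L_pos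
  set C₁ := 2880 * M / ℓ ^ 2 with hC₁
  set C₃ := 810 * (1 + L * M) * (96 * M) * (C₂ / q ^ 2 * (1 + 1 / q)) with hC₃
  have p1 : 0 < C₁ := by positivity
  have p3 : 0 < C₃ := by positivity
  refine ⟨ℓ, (C₁ + C₃) / τ, hℓ, hℓ1, by positivity, ?_⟩
  intro ν hν ε t K κ hε hK hκ hp hn hT x₀ n p v hS
  have hG := h.cd2
  have hφ := h.base.toIsFl
  have hx : 1 ≤ κ * K := one_le_mul_of_one_le_of_one_le hκ hK
  have hlog := one_le_log hx
  have K0 : 0 < K := by linarith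
  have sh : ∀ θ ∈ Icc (0 : ℝ) 1, 1 / 2 < ‖p + θ • v‖ := fun θ hθ => by
    linarith [(hS.shell hℓ1 hθ).1]
  have cz : Continuous fun θ : ℝ => (t, p + θ • v) := by fun_prop
  have cA : Continuous fun θ : ℝ => Gg.Gm φ (t, p + θ • v) := hG.continuous.comp cz
  have cA' : Continuous fun θ : ℝ => fderiv ℝ (Gg.Gm φ) (t, p + θ • v) (0, v) :=
    ((Gg.cd_D hG).continuous.comp cz).clm_apply continuous_const
  have hA : ∀ θ ∈ Icc (0 : ℝ) 1, ‖Gg.Gm φ (t, p + θ • v)‖ = 1 := fun θ hθ => by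
    rw [Gg.Gm_eq _ (sh θ hθ), norm_coe]
  have hA' : ∀ θ ∈ Icc (0 : ℝ) 1,
      ‖fderiv ℝ (Gg.Gm φ) (t, p + θ • v) (0, v)‖ ≤ 4 * K * ‖v‖ := fun θ hθ =>
    Gg.bd_of_lp hG K0.le hp _ _ (sh θ hθ)
  have hv : ‖v‖ ≤ 1 := hS.short.trans (by linarith)
  have back : ∀ θ ∈ Icc (0 : ℝ) 1, ∀ (u : ℝ) (y : S),
      ‖(N (p + θ • v) : E) - φ u (φ (-t) y)‖ ≤ K * ‖Gg.Gm φ (t, p + θ • v) - φ u y‖ := by
    intro θ hθ u y
    have h1 := hn (φ t (N (p + θ • v))) (φ u y)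
    rw [← hφ.add, neg_add_cancel, hφ.zero, ← hφ.add, add_comm (-t) u, hφ.add] at h1
    rwa [Gg.Gm_eq _ (sh θ hθ)]
  have hT' : ∀ θ ∈ Icc (0 : ℝ) 1, ∀ θ' ∈ Icc (0 : ℝ) 1,
      ‖Gg.Gm φ (t, p + θ' • v) - Gg.Gm φ (t, p + θ • v) -
        (θ' - θ) • fderiv ℝ (Gg.Gm φ) (t, p + θ • v) (0, v)‖ ≤ κ * (|θ - θ'| * ‖v‖) ^ 2 := by
    intro θ hθ θ' hθ'
    have s1 := hS.shell hℓ1 hθ
    have s2 := hS.shell hℓ1 hθ'
    have h1 := hT (p + θ • v) (p + θ' • v) (by linarith [s1.1]) (by linarith [s1.2])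
      (by linarith [s2.1]) (by linarith [s2.2])
    have e1 : p + θ' • v - (p + θ • v) = (θ' - θ) • v := by module
    have e2 : ((0 : ℝ), (θ' - θ) • v) = (θ' - θ) • ((0 : ℝ), v) := by simp
    rwa [e1, e2, map_smul, norm_smul, Real.norm_eq_abs, abs_sub_comm] at h1
  have key := glue h.base hν hε hτ cA cA' (B := (C₁ + C₃) * (K ^ 3 * Real.log (2 + κ * K)))
    (by positivity) fun y => by
      by_cases hy : ∃ θ₀ ∈ Icc (0 : ℝ) 1, ∃ u₀ ∈ Icc 0 τ,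
          ‖(N (p + θ₀ • v) : E) - φ u₀ (φ (-t) y)‖ ≤ ℓ
      · obtain ⟨θ₀, hθ₀, u₀, hu₀, h0⟩ := hy
        have hb : 0 < q / K := by positivity
        obtain ⟨d, d0, hd⟩ := near (ε := ε) h.base hK hκ (norm_nonneg v) hv hτ.le hτ1 hb cA hA hA'
          hT' y fun θ hθ θ' hθ' u hu u' hu' => by
            have h1 := (hcol x₀ n p v hS _ θ₀ u₀ hθ₀ hu₀ h0 θ hθ θ' hθ' u hu u' hu').trans
              ((norm_sub_le _ _).trans (add_le_add (back θ hθ u y) (back θ' hθ' u' y)))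
            rw [div_mul_eq_mul_div, div_le_iff₀ K0]
            linarith
        refine hd.trans ((mul_le_mul_right (htwo _ κ d hb ((div_le_one K0).2 (hq1.trans hK)) hκ d0)
          _).trans ?_)
        rw [← ENNReal.ofReal_mul (by positivity)]
        refine ENNReal.ofReal_le_ofReal ?_
        have e1 : κ / (q / K) = κ * K / q := by field_simp
        rw [e1]
        calc _ ≤ 810 * (1 + L * M) * (96 * K * M) *
              (C₂ / (q / K) ^ 2 * ((1 + 1 / q) * Real.log (2 + κ * K))) := by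
              gcongr
              exact log_le hx hq hq1
          _ = C₃ * (K ^ 3 * Real.log (2 + κ * K)) := by
              rw [hC₃]
              field_simp
          _ ≤ _ := by
              gcongr
              linarith
      · push Not at hy
        refine (far (ε := ε) h.base hK hv hτ1 hℓ hA hA' y fun θ hθ u hu =>
          (hy θ hθ u hu).le.trans (back θ hθ u y)).trans (ENNReal.ofReal_le_ofReal ?_)
        calc C₁ * K ^ 3 = C₁ * (K ^ 3 * 1) := by ring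
          _ ≤ _ := by
              gcongr
              linarith
  exact key.trans (le_of_eq (by ring))

end Pool.Agent.Lib.MP_399f8e_an.Sg
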