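import Pool.Agent.Lib.MP_399f8e_an.Sg.Par

open Set Filter Topology Metric MeasureTheory
open scoped RealInnerProductSpace

noncomputable section

namespace Pool.Agent.Lib.MP_399f8e_an.Sg

open Rg

variable {G : ℝ × E → E} {A B Y : E → E}

namespace IdbAux

theorem cont_R (hG : ContDiff ℝ 2 G) (hA : ContDiff ℝ 1 A) (v : E) :
    Continuous fun z : ℝ × E => Rr G A z.1 v z.2 := by
  have e : (fun z : ℝ × E => Rr G A z.1 v z.2) = fun z => fderiv ℝ (Gg.pb G A (0, v)) z (1, 0)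
      - fderiv ℝ (Gg.pb G A (1, 0)) z (0, v) :=
    funext fun z => (Gg.pb_d hG hA z (1, 0) (0, v)).symm
  rw [e]
  exact (Gg.cont_fd (Gg.cd_pb hG hA _) _).sub (Gg.cont_fd (Gg.cd_pb hG hA _) _)

end IdbAux

theorem dF (hG : ContDiff ℝ 2 G) (hA : ContDiff ℝ 1 A) (T : ℝ) (y v : E) :
    fderiv ℝ (Gg.Fw G A (fun _ => 1) T) y v = Gg.pb G A (0, v) (T, y) - Gg.pb G A (0, v) (0, y)
      - ∫ s in (0 : ℝ)..T, Rr G A s v y := by
  rw [(Gg.has_Fw hG hA continuous_const T).2]
  have e : ∀ s : ℝ, 1 * fderiv ℝ (Gg.pb G A (1, 0)) (s, y) (0, v)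
      = fderiv ℝ (Gg.pb G A (0, v)) (s, y) (1, 0) - Rr G A s v y := fun s => by
    have h1 := Gg.pb_d hG hA (s, y) (1, 0) (0, v)
    unfold Rr
    linarith
  have c1 : Continuous fun s : ℝ => fderiv ℝ (Gg.pb G A (0, v)) (s, y) (1, 0) :=
    (Gg.cont_fd (Gg.cd_pb hG hA _) _).comp (continuous_id.prodMk continuous_const)
  have c2 : Continuous fun s : ℝ => Rr G A s v y :=
    (IdbAux.cont_R hG hA v).comp (continuous_id.prodMk continuous_const)
  simp only [e]
  rw [intervalIntegral.integral_sub (c1.intervalIntegrable _ _) (c2.intervalIntegrable _ _),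
    intervalIntegral.integral_eq_sub_of_hasDerivAt
      (fun s _ => Gg.has_fst (Gg.cd_pb hG hA _) s y) (c1.intervalIntegrable _ _)]

namespace IdbAux

open Gg

theorem g2 (h : Core2 G B Y) : ContDiff ℝ 2 G := h.hG.of_le (by norm_num)

theorem pbY (h : Core2 G B Y) (C : E → E) (t : ℝ) {y : E} (hy : 1 / 2 < ‖y‖) :
    pb G C (0, Y y) (t, y) = pb G C (1, 0) (t, y) := by
  rw [pb, pb, h.hY t y hy]

theorem pY (h : Core2 G B Y) {y : E} (hy : 1 / 2 < ‖y‖) : ∑ j, pp y j * Y y j = 0 := by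
  simp only [pp, mul_assoc, ← Finset.mul_sum, inn, h.perp y hy, mul_zero]

theorem aY (h : Core2 G B Y) (s : ℝ) {y : E} (hy : 1 / 2 < ‖y‖) :
    ∑ j, fm G B s j y * Y y j = 1 := by
  rw [pb_expand, pbY h B s hy, h.one s y hy]

theorem iY (h : Core2 G B Y) {C : E → E} (hC : ContDiff ℝ 1 C) (s : ℝ) {y : E}
    (hy : 1 / 2 < ‖y‖) (k : Fin 4) :
    ∑ j, Y y j * (pd (fm G C s k) j y - pd (fm G C s j) k y) = Rr G C s (ee k) y := by
  simp only [fm_d (g2 h) hC]
  rw [dA_expand, h.hY s y hy, Rr]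

theorem cont_chi : Continuous chi := cd_chi.continuous

theorem pp_chi (y : E) (i : Fin 4) : |pp y i| ≤ 2 * chi y := by
  by_cases h : chi y = 0
  · simp [pp, h]
  · rw [pp, abs_mul, abs_of_nonneg (chi_nonneg y)]
    have h1 : |y i| ≤ ‖y‖ := PiLp.norm_apply_le y i
    nlinarith [chi_nonneg y, (chi_ne h).2, abs_nonneg (y i)]

theorem J_int {w : E → ℝ} (hw : Continuous w) : IntegrableOn w (closedBall (0 : E) 2) volume :=
  hw.continuousOn.integrableOn_compact (isCompact_closedBall _ _)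

theorem J_lew {g w : E → ℝ} (hw : Continuous w) (h : ∀ y, |g y| ≤ w y) : |J g| ≤ J w := by
  rw [← Real.norm_eq_abs]
  exact norm_integral_le_of_norm_le (J_int hw) (Eventually.of_forall h)

theorem J_add {f g : E → ℝ} (hf : Continuous f) (hg : Continuous g) :
    J (fun y => f y + g y) = J f + J g := integral_add (J_int hf) (J_int hg)

theorem J_mul (c : ℝ) (f : E → ℝ) : J (fun y => c * f y) = c * J f := integral_const_mul _ _

theorem J_chi : J chi ≤ vB := by
  have h := J_le (g := chi) (C := 1) fun y => by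
    rw [abs_of_nonneg (chi_nonneg y)]; exact chi_le y
  linarith [le_abs_self (J chi)]

/-- the weighted size of a covector field -/
def nw (f : Fin 4 → E → ℝ) (y : E) : ℝ := chi y * ∑ i, |f i y|

theorem cont_nw {f : Fin 4 → E → ℝ} (hf : ∀ i, Continuous (f i)) : Continuous (nw f) :=
  cont_chi.mul (continuous_finsetSum _ fun i _ => (hf i).abs)

theorem J_nw_nonneg (f : Fin 4 → E → ℝ) : 0 ≤ J (nw f) :=
  integral_nonneg fun y => mul_nonneg (chi_nonneg y) (Finset.sum_nonneg fun _ _ => abs_nonneg _)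

theorem le_sum (f : Fin 4 → ℝ) (i : Fin 4) : |f i| ≤ ∑ j, |f j| :=
  Finset.single_le_sum (f := fun j => |f j|) (fun _ _ => abs_nonneg _) (Finset.mem_univ i)

theorem cont_int {f : ℝ × E → ℝ} (hf : Continuous f) (t : ℝ) :
    Continuous fun y : E => ∫ τ in (0 : ℝ)..t, f (τ, y) :=
  intervalIntegral.continuous_parametric_intervalIntegral_of_continuous'
    (f := fun y (τ : ℝ) => f (τ, y)) (hf.comp continuous_swap) 0 t

theorem J_nw_int {f : Fin 4 → ℝ × E → ℝ} (hf : ∀ i, Continuous (f i)) {T P t : ℝ}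
    (ht : t ∈ Icc 0 T) (hP : ∀ τ ∈ Icc 0 T, J (nw fun i y => f i (τ, y)) ≤ P) :
    J (nw fun i y => ∫ τ in (0 : ℝ)..t, f i (τ, y)) ≤ T * P := by
  have hP0 : 0 ≤ P := (J_nw_nonneg _).trans (hP t ht)
  have hc : Continuous (Function.uncurry fun (τ : ℝ) (y : E) => nw (fun i y => f i (τ, y)) y) :=
    (cont_chi.comp continuous_snd).mul (continuous_finsetSum _ fun i _ => (hf i).abs)
  have h1 : J (nw fun i y => ∫ τ in (0 : ℝ)..t, f i (τ, y))
      ≤ J fun y => ∫ τ in (0 : ℝ)..t, nw (fun i y => f i (τ, y)) y := by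
    refine (le_abs_self _).trans (J_lew (cont_int hc t) fun y => ?_)
    have i1 : ∀ i, Continuous fun τ : ℝ => |f i (τ, y)| := fun i =>
      ((hf i).comp (continuous_id.prodMk continuous_const)).abs
    unfold nw
    rw [intervalIntegral.integral_const_mul,
      intervalIntegral.integral_finsetSum fun i _ => (i1 i).intervalIntegrable _ _,
      abs_of_nonneg (mul_nonneg (chi_nonneg y) (Finset.sum_nonneg fun _ _ => abs_nonneg _))]
    exact mul_le_mul_of_nonneg_left (Finset.sum_le_sum fun i _ =>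
      intervalIntegral.abs_integral_le_integral_abs ht.1) (chi_nonneg y)
  rw [← J_swap hc] at h1
  have h2 := intervalIntegral.integral_mono_on (μ := volume) ht.1
    ((J_cont hc).intervalIntegrable _ _) (intervalIntegrable_const (c := P))
    fun τ hτ => hP τ ⟨hτ.1, hτ.2.trans ht.2⟩
  rw [intervalIntegral.integral_const, sub_zero, smul_eq_mul] at h2
  nlinarith [ht.2]

theorem H_exact {a : Fin 4 → E → ℝ} (ha : ∀ i, ContDiff ℝ 1 (a i)) {F : E → ℝ}
    (hF : ContDiff ℝ 2 F) : H (pd F) a = 0 := by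
  have hD : ContDiff ℝ 1 (fderiv ℝ F) := hF.fderiv_right (by norm_num)
  have h1 : ∀ i, ContDiff ℝ 1 (pd F i) := fun i => hD.clm_apply contDiff_const
  have h2 : ∀ y i j, pd (pd F j) i y = fderiv ℝ (fderiv ℝ F) y (ee i) (ee j) := fun y i j => by
    have h3 := ((hD.differentiable one_ne_zero y).hasFDerivAt.clm_apply
      (hasFDerivAt_const (ee j) y)).fderiv
    have e : pd F j = fun y => fderiv ℝ F y (ee j) := rfl
    rw [pd, e, h3]
    simp
  rw [stokes h1 ha, H]
  have h4 : ∀ y, w4 (pp y) (fun i => a i y) (fun i j => pd (pd F j) i y) = 0 := fun y => by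
    rw [w4_congr _ _ (M' := fun _ _ => 0) fun i j => by
      rw [h2, h2, second_derivative_symmetric
        (fun y => (hF.differentiable (by norm_num) y).hasFDerivAt)
        (hD.differentiable one_ne_zero y).hasFDerivAt (ee i) (ee j)]
      simp]
    simp [w4]
  simp [J, h4]

theorem cd_F (h : Core2 G B Y) (hA : ContDiff ℝ 2 A) (t : ℝ) :
    ContDiff ℝ 2 (Fw G A (fun _ => 1) t) := by
  have h1 : ContDiff ℝ 2 (pb G A (1, 0)) :=
    (hA.comp (g2 h)).inner ℝ ((h.hG.fderiv_right (m := 2) (by norm_num)).clm_apply contDiff_const)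
  have h2 : ContDiff ℝ (2 : ℕ) fun q : E × ℝ => 1 * pb G A (1, 0) (q.2, q.1) :=
    contDiff_const.mul (h1.comp (contDiff_snd.prodMk contDiff_fst))
  exact cd_ival 2 h2 0 t

/-- the integrand of the identity -/
def Ph (G : ℝ × E → E) (A B : E → E) (s t : ℝ) (y : E) : ℝ :=
  pb G A (1, 0) (t, y) * w4 (pp y) (fun i => fm G B 0 i y) (fun i j => pd (fm G B s j) i y)
    - d4 (pp y) (fun i => fm G B 0 i y) (fun i => fm G A t i y)
      fun k => fderiv ℝ (pb G B (0, ee k)) (s, y) (1, 0)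

theorem id1 (h : Core2 G B Y) (s t : ℝ) : H (fm G A t) (fm G B s) = J (Ph G A B s t) := by
  refine J_congr fun y => ?_
  unfold Ph
  by_cases hy : chi y = 0
  · simp [d4, w4_zero _ _ (pp_zero hy)]
  have hy' : 1 / 2 < ‖y‖ := by linarith [(chi_ne hy).1]
  have h0 : ∀ k, fderiv ℝ (pb G B (1, 0)) (s, y) (0, ee k) = 0 := fun k => by
    have h1 : pb G B (1, 0) =ᶠ[𝓝 (s, y)] fun _ => 1 := by
      filter_upwards [(isOpen_U.preimage continuous_snd).mem_nhds (show (s, y) ∈ _ from hy')]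
        with z hz
      exact h.one z.1 z.2 hz
    rw [h1.fderiv_eq]
    simp
  rw [contr (pp y) (fun i => fm G B 0 i y) (fun i => fm G A t i y) (fun k => Y y k)
    (fun k => fderiv ℝ (pb G B (0, ee k)) (s, y) (1, 0)) _ (pY h hy') (aY h 0 hy') fun k => by
      rw [iY h h.hB s hy', Rr, ← pb_d (g2 h) h.hB, h0, sub_zero], pb_expand, pbY h A t hy']

theorem id2 (h : Core2 G B Y) (hA : ContDiff ℝ 1 A) (s t : ℝ) :
    H (fm G B s) (fm G A t) = H (fm G B 0) (fm G A t) - J fun y =>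
      d4 (pp y) (fun i => fm G B 0 i y) (fun i => fm G B s i y) fun k => Rr G A t (ee k) y := by
  have ha := cd_fm (g2 h) h.hB
  have cR : ∀ i, Continuous fun y : E => Rr G A t (ee i) y := fun i =>
    (cont_R (g2 h) hA (ee i)).comp (continuous_const.prodMk continuous_id)
  rw [H, H, ← J_sub (cont_H (ha 0) (cd_fm (g2 h) hA t))
    (cont_d4 (fun i => (cd_pp i).continuous) (fun i => (ha 0 i).continuous)
      (fun i => (ha s i).continuous) cR)]
  refine J_congr fun y => ?_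
  by_cases hy : chi y = 0
  · simp [d4, w4_zero _ _ (pp_zero hy)]
  have hy' : 1 / 2 < ‖y‖ := by linarith [(chi_ne hy).1]
  rw [contr (pp y) (fun i => fm G B 0 i y) (fun i => fm G B s i y) (fun k => Y y k)
    (fun k => Rr G A t (ee k) y) _ (pY h hy') (aY h 0 hy') fun k => (iY h hA t hy' k).symm,
    aY h s hy', one_mul]

theorem id3 (h : Core2 G B Y) (hA : ContDiff ℝ 2 A) (t : ℝ) :
    H (fm G A t) (fm G B 0) = H (fm G A 0) (fm G B 0) + J fun y =>
      w4 (pp y) (fun i => ∫ τ in (0 : ℝ)..t, Rr G A τ (ee i) y)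
        fun i j => pd (fm G B 0 j) i y := by
  have hA1 : ContDiff ℝ 1 A := hA.of_le (by norm_num)
  have ha := cd_fm (g2 h) h.hB 0
  have hF := cd_F h hA t
  have hD : ∀ i, ContDiff ℝ 1 (pd (Fw G A (fun _ => 1) t) i) := fun i =>
    (hF.fderiv_right (m := 1) (by norm_num)).clm_apply contDiff_const
  have h0 := H_exact ha hF
  have c3 : Continuous fun y => w4 (pp y) (fun i => ∫ τ in (0 : ℝ)..t, Rr G A τ (ee i) y)
      fun i j => pd (fm G B 0 j) i y :=
    cont_w4 (fun i => (cd_pp i).continuous) (fun i => cont_int (cont_R (g2 h) hA1 (ee i)) t)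
      fun i j => cont_pd (ha j) i
  have e0 : H (fm G A 0) (fm G B 0)
      = H (fm G A 0) (fm G B 0) + H (pd (Fw G A (fun _ => 1) t)) (fm G B 0) := by
    rw [h0, add_zero]
  rw [e0, H, H, H, ← J_add (cont_H (cd_fm (g2 h) hA1 0) ha) (cont_H hD ha),
    ← J_add ((cont_H (cd_fm (g2 h) hA1 0) ha).fun_add (cont_H hD ha)) c3]
  refine J_congr fun y => ?_
  have e : ∀ i, fm G A t i y = fm G A 0 i y + pd (Fw G A (fun _ => 1) t) i y
      + ∫ τ in (0 : ℝ)..t, Rr G A τ (ee i) y := fun i => by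
    rw [pd, dF (g2 h) hA1, fm, fm]
    ring
  simp only [e, w4]
  ring

theorem step_t (h : Core2 G B Y) (hA : ContDiff ℝ 1 A) (s T : ℝ) :
    (Continuous fun t => J (Ph G A B s t)) ∧ ∫ t in (0 : ℝ)..T, J (Ph G A B s t)
      = H (fm G B s) (fun i y => Fw G A (fun _ => 1) T y * fm G B 0 i y)
        - J fun y => d4 (pp y) (fun i => fm G B 0 i y) (fun i => ∫ t in (0 : ℝ)..T, fm G A t i y)
          fun k => fderiv ℝ (pb G B (0, ee k)) (s, y) (1, 0) := by
  have hG := g2 h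
  have hF := (has_Fw hG hA (θ := fun _ => 1) continuous_const T).1
  have ha := cd_fm hG h.hB
  have cp : ∀ i, Continuous fun y => pp y i := fun i => (cd_pp i).continuous
  have cl : ∀ i, Continuous fun z : ℝ × E => fm G A z.1 i z.2 := fun i =>
    (cd_pb hG hA (0, ee i)).continuous
  have cr : ∀ k, Continuous fun y : E => fderiv ℝ (pb G B (0, ee k)) (s, y) (1, 0) := fun k =>
    (cont_fd (cd_pb hG h.hB _) _).comp (continuous_const.prodMk continuous_id)
  have cu := (cd_pb hG hA (1, 0)).continuous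
  have cL : ∀ i, Continuous fun y : E => ∫ t in (0 : ℝ)..T, fm G A t i y := fun i =>
    cont_int (cl i) T
  have hc : Continuous (Function.uncurry fun (t : ℝ) (y : E) => Ph G A B s t y) :=
    (cu.mul ((cont_H (ha 0) (ha s)).comp continuous_snd)).sub
      (cont_d4 (fun i => (cp i).comp continuous_snd)
        (fun i => (ha 0 i).continuous.comp continuous_snd) cl
        fun k => (cr k).comp continuous_snd)
  refine ⟨J_cont hc, ?_⟩
  rw [J_swap (f := fun t y => Ph G A B s t y) hc,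
    stokes (ha s) fun i => hF.mul (ha 0 i), H, ← J_sub (cont_H (fun i => hF.mul (ha 0 i)) (ha s))
      (cont_d4 cp (fun i => (ha 0 i).continuous) cL cr)]
  refine J_congr fun y => ?_
  have i1 : ∀ i, Continuous fun t : ℝ => fm G A t i y := fun i =>
    (cl i).comp (continuous_id.prodMk continuous_const)
  have i2 : Continuous fun t : ℝ => pb G A (1, 0) (t, y) :=
    cu.comp (continuous_id.prodMk continuous_const)
  unfold Ph
  rw [intervalIntegral.integral_sub ((i2.intervalIntegrable _ _).mul_const _)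
    ((cont_d4 (p := fun _ => pp y) (q := fun _ i => fm G B 0 i y) (r := fun t i => fm G A t i y)
      (s := fun _ k => fderiv ℝ (pb G B (0, ee k)) (s, y) (1, 0))
      (fun _ => continuous_const) (fun _ => continuous_const) i1
      fun _ => continuous_const).intervalIntegrable _ _), intervalIntegral.integral_mul_const,
    ← w4_mul, int3 _ _ _ i1]
  simp only [Fw, one_mul]

theorem step_s (h : Core2 G B Y) {L : Fin 4 → E → ℝ} (hL : ∀ i, Continuous (L i)) (T : ℝ) :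
    (Continuous fun s : ℝ => J fun y => d4 (pp y) (fun i => fm G B 0 i y) (fun i => L i y)
      fun k => fderiv ℝ (pb G B (0, ee k)) (s, y) (1, 0)) ∧
    ∫ s in (0 : ℝ)..T, (J fun y => d4 (pp y) (fun i => fm G B 0 i y) (fun i => L i y)
      fun k => fderiv ℝ (pb G B (0, ee k)) (s, y) (1, 0))
      = J fun y => d4 (pp y) (fun i => fm G B 0 i y) (fun i => L i y)
        fun k => fm G B T k y - fm G B 0 k y := by
  have hG := g2 h
  have cr : ∀ k, Continuous fun z : ℝ × E => fderiv ℝ (pb G B (0, ee k)) z (1, 0) := fun k =>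
    cont_fd (cd_pb hG h.hB _) _
  have hc : Continuous (Function.uncurry fun (s : ℝ) (y : E) => d4 (pp y) (fun i => fm G B 0 i y)
      (fun i => L i y) fun k => fderiv ℝ (pb G B (0, ee k)) (s, y) (1, 0)) :=
    cont_d4 (fun i => (cd_pp i).continuous.comp continuous_snd)
      (fun i => (cd_fm hG h.hB 0 i).continuous.comp continuous_snd)
      (fun i => (hL i).comp continuous_snd) cr
  refine ⟨J_cont hc, ?_⟩
  rw [J_swap hc]
  refine J_congr fun y => ?_
  have i1 : ∀ k, Continuous fun s : ℝ => fderiv ℝ (pb G B (0, ee k)) (s, y) (1, 0) := fun k =>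
    (cr k).comp (continuous_id.prodMk continuous_const)
  rw [int4 _ _ _ i1]
  congr 1
  funext k
  exact intervalIntegral.integral_eq_sub_of_hasDerivAt
    (fun s _ => has_fst (cd_pb hG h.hB _) s y) ((i1 k).intervalIntegrable _ _)

theorem exists_const (h : Core2 G B Y) : ∃ C : ℝ, 1 ≤ C ∧
    (∀ x : E, ‖x‖ = 1 → ‖B x‖ ≤ C) ∧ (∀ (y : E) j, ‖y‖ < 2 → |fm G B 0 j y| ≤ C) ∧
    ∀ (y : E) i j, ‖y‖ < 2 → |pd (fm G B 0 j) i y| ≤ C := by
  have hc : Continuous fun y : E => (B y, fun j => fm G B 0 j y,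
      fun q : Fin 4 × Fin 4 => pd (fm G B 0 q.2) q.1 y) :=
    h.hB.continuous.prodMk
      ((continuous_pi fun j => (cd_fm (g2 h) h.hB 0 j).continuous).prodMk
        (continuous_pi fun q => cont_pd (cd_fm (g2 h) h.hB 0 q.2) q.1))
  obtain ⟨C, hC⟩ := (isCompact_closedBall (0 : E) 2).exists_bound_of_continuousOn hc.continuousOn
  have h1 : ∀ y : E, ‖y‖ ≤ 2 → ‖B y‖ ≤ C ∧ ‖fun j => fm G B 0 j y‖ ≤ C ∧
      ‖fun q : Fin 4 × Fin 4 => pd (fm G B 0 q.2) q.1 y‖ ≤ C := fun y hy => by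
    simpa only [norm_prod_le_iff] using hC y (mem_closedBall_zero_iff.2 hy)
  have h0 : 0 ≤ C := (norm_nonneg _).trans (h1 0 (by simp)).1
  refine ⟨C + 1, by linarith, fun x hx => ?_, fun y j hy => ?_, fun y i j hy => ?_⟩
  · linarith [(h1 x (by linarith)).1]
  · have := (norm_le_pi_norm _ j).trans (h1 y hy.le).2.1
    rw [Real.norm_eq_abs] at this
    linarith
  · have := (norm_le_pi_norm _ (i, j)).trans (h1 y hy.le).2.2
    rw [Real.norm_eq_abs] at this
    linarith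

theorem fm_le (h : Core2 G B Y) {C t K : ℝ} (hD : ∀ x : E, ‖x‖ = 1 → ‖B x‖ ≤ C)
    (hK : Bd G t K) {y : E} (hy : 1 / 2 < ‖y‖) (i : Fin 4) : |fm G B t i y| ≤ C * K := by
  have h1 := hD _ (h.nG t y hy)
  have h2 := hK y (ee i) hy
  rw [norm_ee, mul_one] at h2
  exact (abs_real_inner_le_norm _ _).trans
    (mul_le_mul h1 h2 (norm_nonneg _) ((norm_nonneg _).trans h1))

theorem near (h : Core2 G B Y) (hA : ContDiff ℝ 2 A) {C T K P₂ s t : ℝ} (hC : 1 ≤ C) (hK : 1 ≤ K)
    (hB : ∀ x : E, ‖x‖ = 1 → ‖B x‖ ≤ C) (ha : ∀ (y : E) j, ‖y‖ < 2 → |fm G B 0 j y| ≤ C)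
    (hda : ∀ (y : E) i j, ‖y‖ < 2 → |pd (fm G B 0 j) i y| ≤ C) (bs : Bd G s K) (ht : t ∈ Icc 0 T)
    (hP : ∀ τ ∈ Icc 0 T, J (nw fun i y => Rr G A τ (ee i) y) ≤ P₂) :
    H (fm G B 0) (fm G A 0) ≤ J (Ph G A B s t) + (48 * C * (T * P₂) + 48 * C ^ 2 * K * P₂) := by
  have hA1 : ContDiff ℝ 1 A := hA.of_le (by norm_num)
  have hG := g2 h
  have e1 := id1 (A := A) h s t
  have e2 := id2 h hA1 s t
  have e3 := id3 h hA t
  have e4 := stokes (cd_fm hG h.hB s) (cd_fm hG hA1 t)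
  have e5 := stokes (cd_fm hG h.hB 0) (cd_fm hG hA1 t)
  have e6 := stokes (cd_fm hG h.hB 0) (cd_fm hG hA1 0)
  have cR : ∀ i, Continuous fun y : E => Rr G A t (ee i) y := fun i =>
    (cont_R hG hA1 (ee i)).comp (continuous_const.prodMk continuous_id)
  have cI : ∀ i, Continuous fun y : E => ∫ τ in (0 : ℝ)..t, Rr G A τ (ee i) y := fun i =>
    cont_int (cont_R hG hA1 (ee i)) t
  have b2 := J_lew (g := fun y => d4 (pp y) (fun i => fm G B 0 i y) (fun i => fm G B s i y)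
      fun k => Rr G A t (ee k) y)
    (w := fun y => 48 * C ^ 2 * K * nw (fun i y => Rr G A t (ee i) y) y)
    (continuous_const.mul (cont_nw cR)) fun y => by
      by_cases hy : chi y = 0
      · simp [d4, w4_zero _ _ (pp_zero hy), nw, hy]
      obtain ⟨y1, y2⟩ := chi_ne hy
      refine (d4_le (pp_chi y) (fun j => ha y j y2) (fm_le h hB bs (by linarith))
        (le_sum fun k => Rr G A t (ee k) y)).trans (le_of_eq ?_)
      unfold nw
      ring
  have b3 := J_lew (g := fun y => w4 (pp y) (fun i => ∫ τ in (0 : ℝ)..t, Rr G A τ (ee i) y)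
      fun i j => pd (fm G B 0 j) i y)
    (w := fun y => 48 * C * nw (fun i y => ∫ τ in (0 : ℝ)..t, Rr G A τ (ee i) y) y)
    (continuous_const.mul (cont_nw cI)) fun y => by
      by_cases hy : chi y = 0
      · simp [w4_zero _ _ (pp_zero hy), nw, hy]
      obtain ⟨y1, y2⟩ := chi_ne hy
      refine (w4_le (pp_chi y) (le_sum fun i => ∫ τ in (0 : ℝ)..t, Rr G A τ (ee i) y)
        fun i j => hda y i j y2).trans (le_of_eq ?_)
      unfold nw
      ring
  rw [J_mul] at b2 b3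
  have b4 := J_nw_int (f := fun i z => Rr G A z.1 (ee i) z.2) (fun i => cont_R hG hA1 (ee i)) ht hP
  have b5 := mul_le_mul_of_nonneg_left (hP t ht) (show 0 ≤ 48 * C ^ 2 * K by positivity)
  have b6 := mul_le_mul_of_nonneg_left b4 (show 0 ≤ 48 * C by positivity)
  linarith [(abs_le.1 b2).2, (abs_le.1 b3).1]

theorem first (h : Core2 G B Y) (hA : ContDiff ℝ 1 A) {C T K Sp P₁ P₂ s : ℝ} (hC : 1 ≤ C)
    (hK : 1 ≤ K) (hT : 0 ≤ T) (hS : 0 ≤ Sp)
    (hB : ∀ x : E, ‖x‖ = 1 → ‖B x‖ ≤ C) (ha : ∀ (y : E) j, ‖y‖ < 2 → |fm G B 0 j y| ≤ C)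
    (hda : ∀ (y : E) i j, ‖y‖ < 2 → |pd (fm G B 0 j) i y| ≤ C) (bs : Bd G s K)
    (hF : ∀ y : E, 1 < ‖y‖ → ‖y‖ < 2 → |Fw G A (fun _ => 1) T y| ≤ Sp)
    (hP1 : ∀ τ ∈ Icc 0 T, J (nw (fm G A τ)) ≤ P₁)
    (hP : ∀ τ ∈ Icc 0 T, J (nw fun i y => Rr G A τ (ee i) y) ≤ P₂) :
    H (fm G B s) (fun i y => Fw G A (fun _ => 1) T y * fm G B 0 i y)
      ≤ 48 * C ^ 2 * K * (Sp * vB + 2 * P₁ + T * P₂) := by
  have hG := g2 h
  have hFc := (has_Fw hG hA (θ := fun _ => 1) continuous_const T).1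
  have cI : ∀ i, Continuous fun y : E => ∫ τ in (0 : ℝ)..T, Rr G A τ (ee i) y := fun i =>
    cont_int (cont_R hG hA (ee i)) T
  have c0 := cont_nw fun i => (cd_fm hG hA 0 i).continuous
  have c1 := cont_nw fun i => (cd_fm hG hA T i).continuous
  have c2 := cont_nw cI
  have c3 : Continuous fun y => Sp * chi y := continuous_const.mul cont_chi
  have b1 := J_lew (g := fun y => w4 (pp y) (fun i => fm G B s i y)
      fun i j => pd (fun y => Fw G A (fun _ => 1) T y * fm G B 0 j y) i y)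
    (w := fun y => 48 * C ^ 2 * K * (Sp * chi y + nw (fm G A T) y + nw (fm G A 0) y
      + nw (fun i y => ∫ τ in (0 : ℝ)..T, Rr G A τ (ee i) y) y))
    (continuous_const.mul (((c3.add c1).add c0).add c2)) fun y => by
      by_cases hy : chi y = 0
      · simp [w4_zero _ _ (pp_zero hy), nw, hy]
      obtain ⟨y1, y2⟩ := chi_ne hy
      refine (w4_le (m := C * (Sp + ∑ i, |fm G A T i y| + ∑ i, |fm G A 0 i y|
        + ∑ i, |∫ τ in (0 : ℝ)..T, Rr G A τ (ee i) y|)) (pp_chi y)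
        (fm_le h hB bs (by linarith)) fun i j => ?_).trans (le_of_eq ?_)
      · have e : pd (fun y => Fw G A (fun _ => 1) T y * fm G B 0 j y) i y
            = Fw G A (fun _ => 1) T y * pd (fm G B 0 j) i y
              + fm G B 0 j y * pd (Fw G A (fun _ => 1) T) i y := by
          rw [pd, fderiv_fun_mul (hFc.differentiable one_ne_zero y)
            ((cd_fm hG h.hB 0 j).differentiable one_ne_zero y)]
          rfl
        have f2 : |pd (Fw G A (fun _ => 1) T) i y| ≤ ∑ i, |fm G A T i y| + ∑ i, |fm G A 0 i y|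
            + ∑ i, |∫ τ in (0 : ℝ)..T, Rr G A τ (ee i) y| := by
          rw [pd, dF hG hA]
          have a1 := le_sum (fun i => fm G A T i y) i
          have a2 := le_sum (fun i => fm G A 0 i y) i
          have a3 := le_sum (fun i => ∫ τ in (0 : ℝ)..T, Rr G A τ (ee i) y) i
          exact (abs_sub _ _).trans (add_le_add ((abs_sub _ _).trans (add_le_add a1 a2)) a3)
        rw [e]
        refine (abs_add_le _ _).trans ?_
        rw [abs_mul, abs_mul]
        have m1 := mul_le_mul (hF y y1 y2) (hda y i j y2) (abs_nonneg _) hS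
        have m2 := mul_le_mul (ha y j y2) f2 (abs_nonneg _) (by linarith)
        linarith
      · unfold nw
        ring
  rw [J_mul, J_add ((c3.fun_add c1).fun_add c0) c2, J_add (c3.fun_add c1) c0, J_add c3 c1,
    J_mul] at b1
  have b4 := J_nw_int (f := fun i z => Rr G A z.1 (ee i) z.2) (fun i => cont_R hG hA (ee i))
    ⟨hT, le_rfl⟩ hP
  have b5 := mul_le_mul_of_nonneg_left J_chi hS
  refine ((le_abs_self _).trans b1).trans (mul_le_mul_of_nonneg_left ?_ (by positivity))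
  linarith [hP1 T ⟨hT, le_rfl⟩, hP1 0 ⟨le_rfl, hT⟩]

end IdbAux

theorem idb (h : Core2 G B Y) : ∃ C : ℝ, 0 < C ∧ ∀ A : E → E, ContDiff ℝ 2 A →
    ∀ T K Sp P₁ P₂ : ℝ, 1 ≤ T → 1 ≤ K → (∀ t ∈ Icc 0 T, Gg.Bd G t K) →
      (∀ y : E, 1 < ‖y‖ → ‖y‖ < 2 → |Gg.Fw G A (fun _ => 1) T y| ≤ Sp) →
      (∀ t ∈ Icc 0 T, Gg.J (fun y => Gg.chi y * ∑ i, |Gg.fm G A t i y|) ≤ P₁) →
      (∀ t ∈ Icc 0 T, Gg.J (fun y => Gg.chi y * ∑ i, |Rr G A t (Gg.ee i) y|) ≤ P₂) →
      T * Gg.H (Gg.fm G B 0) (Gg.fm G A 0) ≤ C * (K * (Sp + P₁) + T ^ 2 * K * P₂) := by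
  obtain ⟨C, hC, hB, ha, hda⟩ := IdbAux.exists_const h
  have hvB := Gg.vB_nonneg
  refine ⟨192 * C ^ 2 * (Gg.vB + 1), by positivity,
    fun A hA T K Sp P₁ P₂ hT hK bt hF hP1 hP2 => ?_⟩
  have hA1 : ContDiff ℝ 1 A := hA.of_le (by norm_num)
  have hG := IdbAux.g2 h
  have hT0 : 0 ≤ T := by linarith
  have hS : 0 ≤ Sp := by
    obtain ⟨y, hy⟩ := Gg.chi_pos
    exact (abs_nonneg _).trans (hF y (Gg.chi_ne hy).1 (Gg.chi_ne hy).2)
  have p1 : 0 ≤ P₁ := (IdbAux.J_nw_nonneg (Gg.fm G A 0)).trans (hP1 0 ⟨le_rfl, hT0⟩)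
  have p2 : 0 ≤ P₂ := (IdbAux.J_nw_nonneg fun i y => Rr G A 0 (Gg.ee i) y).trans
    (hP2 0 ⟨le_rfl, hT0⟩)
  set V := Gg.H (Gg.fm G B 0) (Gg.fm G A 0) with hV
  have cl : ∀ i, Continuous fun z : ℝ × E => Gg.fm G A z.1 i z.2 := fun i =>
    (Gg.cd_pb hG hA1 (0, Gg.ee i)).continuous
  have cL : ∀ i, Continuous fun y : E => ∫ t in (0 : ℝ)..T, Gg.fm G A t i y := fun i =>
    IdbAux.cont_int (cl i) T
  obtain ⟨hQ, hI⟩ := IdbAux.step_s h (L := fun i y => ∫ t in (0 : ℝ)..T, Gg.fm G A t i y) cL T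
  have b1 : ∀ s ∈ Icc 0 T, T * V + (Gg.J fun y => Gg.d4 (Gg.pp y) (fun i => Gg.fm G B 0 i y)
      (fun i => ∫ t in (0 : ℝ)..T, Gg.fm G A t i y)
      fun k => fderiv ℝ (Gg.pb G B (0, Gg.ee k)) (s, y) (1, 0))
      ≤ 48 * C ^ 2 * K * (Sp * Gg.vB + 2 * P₁ + T * P₂)
        + T * (48 * C * (T * P₂) + 48 * C ^ 2 * K * P₂) := fun s hs => by
    obtain ⟨c1, e1⟩ := IdbAux.step_t (A := A) h hA1 s T
    have m1 := intervalIntegral.integral_mono_on (μ := volume) hT0
      (intervalIntegrable_const (c := V))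
      ((c1.add continuous_const).intervalIntegrable _ _)
      fun t ht => IdbAux.near h hA hC hK hB ha hda (bt s hs) ht hP2
    simp only [Pi.add_apply] at m1
    rw [intervalIntegral.integral_add (c1.intervalIntegrable _ _) intervalIntegrable_const, e1,
      intervalIntegral.integral_const, intervalIntegral.integral_const, sub_zero, smul_eq_mul,
      smul_eq_mul] at m1
    have m2 := IdbAux.first h hA1 hC hK hT0 hS hB ha hda (bt s hs) hF hP1 hP2
    linarith
  have b2 := IdbAux.J_lew (g := fun y => Gg.d4 (Gg.pp y) (fun i => Gg.fm G B 0 i y)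
      (fun i => ∫ t in (0 : ℝ)..T, Gg.fm G A t i y) fun k => Gg.fm G B T k y - Gg.fm G B 0 k y)
    (w := fun y => 96 * C ^ 2 * K * IdbAux.nw (fun i y => ∫ t in (0 : ℝ)..T, Gg.fm G A t i y) y)
    (continuous_const.mul (IdbAux.cont_nw cL)) fun y => by
      by_cases hy : Gg.chi y = 0
      · simp [Gg.d4, Gg.w4_zero _ _ (Gg.pp_zero hy), IdbAux.nw, hy]
      obtain ⟨y1, y2⟩ := Gg.chi_ne hy
      have hy' : 1 / 2 < ‖y‖ := by linarith
      refine (Gg.d4_le (S := 2 * (C * K)) (IdbAux.pp_chi y) (fun j => ha y j y2)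
        (IdbAux.le_sum fun i => ∫ t in (0 : ℝ)..T, Gg.fm G A t i y) fun k => ?_).trans
        (le_of_eq ?_)
      · exact (abs_sub _ _).trans (by
          linarith [IdbAux.fm_le h hB (bt T ⟨hT0, le_rfl⟩) hy' k,
            IdbAux.fm_le h hB (bt 0 ⟨le_rfl, hT0⟩) hy' k])
      · unfold IdbAux.nw
        ring
  rw [IdbAux.J_mul] at b2
  have b4 := IdbAux.J_nw_int (f := fun i z => Gg.fm G A z.1 i z.2) cl ⟨hT0, le_rfl⟩ hP1
  have b5 := mul_le_mul_of_nonneg_left b4 (show 0 ≤ 96 * C ^ 2 * K by positivity)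
  have b3 := intervalIntegral.integral_mono_on (μ := volume) hT0
    ((continuous_const.add hQ).intervalIntegrable _ _) intervalIntegrable_const b1
  simp only [Pi.add_apply] at b3
  rw [intervalIntegral.integral_add intervalIntegrable_const (hQ.intervalIntegrable _ _), hI,
    intervalIntegral.integral_const, intervalIntegral.integral_const, sub_zero, smul_eq_mul,
    smul_eq_mul] at b3
  have b6 : T * (T * V) ≤ T * (48 * C ^ 2 * K * (Sp * Gg.vB + 2 * P₁ + T * P₂)
      + T * (48 * C * (T * P₂) + 48 * C ^ 2 * K * P₂) + 96 * C ^ 2 * K * P₁) := by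
    linarith [(abs_le.1 b2).1]
  have b7 := le_of_mul_le_mul_left b6 (by linarith)
  refine b7.trans ?_
  have hC0 : 0 ≤ C := by linarith
  have q1 : T * P₂ ≤ T ^ 2 * P₂ := mul_le_mul_of_nonneg_right (by nlinarith) p2
  have q2 : C ≤ C ^ 2 * K := by nlinarith [mul_nonneg (sq_nonneg C) (sub_nonneg.2 hK)]
  have q3 : 0 ≤ C ^ 2 * K := by positivity
  have q4 : 0 ≤ T ^ 2 * P₂ := by positivity
  have r1 := mul_le_mul_of_nonneg_left q1 q3
  have r2 := mul_le_mul_of_nonneg_right q2 q4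
  have r3 := mul_nonneg q3 q4
  have r4 := mul_nonneg (mul_nonneg q3 q4) hvB
  have r5 := mul_nonneg q3 hS
  have r6 := mul_nonneg (mul_nonneg q3 hS) hvB
  have r7 := mul_nonneg (mul_nonneg q3 p1) hvB
  nlinarith

end Pool.Agent.Lib.MP_399f8e_an.Sg
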