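import Pool.Agent.Lib.MP_399f8e_an.Sg.Par

open Set Filter Topology Metric MeasureTheory
open scoped RealInnerProductSpace

noncomputable section

namespace Pool.Agent.Lib.MP_399f8e_an.Sg

open Rg

variable {ε : ℝ}

namespace KerAux

theorem cd_Zz : ContDiff ℝ 2 fun p : (E × E) × ℝ => ‖Zz p.1.1 p.1.2 p.2‖ ^ 2 := by
  refine ContDiff.norm_sq ℝ ?_
  unfold Zz
  fun_prop

theorem cont_k (hε : 0 < ε) (z y : E) :
    Continuous fun u : ℝ => u * (1 - u) / (‖Zz z y u‖ ^ 2 + ε ^ 2) ^ 2 := by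
  unfold Zz
  exact Continuous.div (by fun_prop) (by fun_prop) fun u => by positivity

theorem cont_r (hε : 0 < ε) (z y : E) :
    Continuous fun u : ℝ => 4 * ε ^ 2 * (u * (1 - u) ^ 2) / (‖Zz z y u‖ ^ 2 + ε ^ 2) ^ 3 := by
  unfold Zz
  exact Continuous.div (by fun_prop) (by fun_prop) fun u => by positivity

theorem zz_sq (x y : S) (u : ℝ) :
    ‖Zz x y u‖ ^ 2 = (1 - u) ^ 2 + u ^ 2 - 2 * u * (1 - u) * ⟪(x : E), y⟫ := by
  rw [Zz, norm_sub_sq_real, norm_smul, norm_smul, norm_coe, norm_coe, real_inner_smul_left,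
    real_inner_smul_right, Real.norm_eq_abs, Real.norm_eq_abs, mul_one, mul_one, sq_abs, sq_abs]
  ring

theorem zz_eq (x y : S) (u : ℝ) : ‖Zz x y u‖ ^ 2 =
    (2 * u - 1) ^ 2 + (‖(x : E) - y‖ / 2) ^ 2 - (2 * u - 1) ^ 2 * (‖(x : E) - y‖ / 2) ^ 2 := by
  rw [zz_sq, Lk.AKerAux.inner_eq]
  ring

theorem half_le (x y : S) : (‖(x : E) - y‖ / 2) ^ 2 ≤ 1 := by
  have h := norm_sub_le (x : E) y
  rw [norm_coe, norm_coe] at h
  have h0 := norm_nonneg ((x : E) - y)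
  nlinarith

theorem zz_ge (x y : S) {u : ℝ} (hu : u ∈ Icc (0 : ℝ) 1) :
    (‖(x : E) - y‖ / 2) ^ 2 ≤ ‖Zz x y u‖ ^ 2 ∧
      ((‖(x : E) - y‖ / 2) ^ 2 + (2 * u - 1) ^ 2) / 2 ≤ ‖Zz x y u‖ ^ 2 := by
  rw [zz_eq]
  have h1 := half_le x y
  have h0 := sq_nonneg (‖(x : E) - y‖ / 2)
  have hA : 0 ≤ (2 * u - 1) ^ 2 := sq_nonneg _
  have hA1 : (2 * u - 1) ^ 2 ≤ 1 := by nlinarith [hu.1, hu.2]
  generalize (2 * u - 1) ^ 2 = A at *
  generalize (‖(x : E) - y‖ / 2) ^ 2 = e at *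
  constructor <;> nlinarith

/-- the scale `c` with `c ^ 2 = (d / 2) ^ 2 + ε ^ 2` -/
theorem scale (hε : 0 < ε) (x y : S) : ∃ c : ℝ, 0 < c ∧ ‖(x : E) - y‖ ≤ 2 * c ∧
    ‖(x : E) - y‖ ^ 2 + ε ^ 2 ≤ 4 * c ^ 2 ∧ ∀ u ∈ Icc (0 : ℝ) 1,
      c ^ 2 ≤ ‖Zz x y u‖ ^ 2 + ε ^ 2 ∧ (c ^ 2 + (2 * u - 1) ^ 2) / 2 ≤ ‖Zz x y u‖ ^ 2 + ε ^ 2 := by
  have hp : 0 < (‖(x : E) - y‖ / 2) ^ 2 + ε ^ 2 := by positivity
  have hs := Real.sq_sqrt hp.le
  have he := sq_nonneg ε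
  refine ⟨√((‖(x : E) - y‖ / 2) ^ 2 + ε ^ 2), Real.sqrt_pos.2 hp, ?_, ?_, fun u hu => ?_⟩
  · have : ‖(x : E) - y‖ / 2 ≤ √((‖(x : E) - y‖ / 2) ^ 2 + ε ^ 2) :=
      Real.le_sqrt_of_sq_le (by linarith)
    linarith
  · rw [hs]
    nlinarith
  · rw [hs]
    obtain ⟨h1, h2⟩ := zz_ge x y hu
    constructor <;> linarith

theorem int_bound {f : ℝ → ℝ} (hf : Continuous f) {c K : ℝ} (hc : 0 < c) (hK : 0 ≤ K)
    (h : ∀ u ∈ Icc (0 : ℝ) 1, f u ≤ K * (1 / (c ^ 2 + (2 * u - 1) ^ 2))) :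
    ∫ u in (0 : ℝ)..1, f u ≤ K * (2 / c) := by
  have h1 : Continuous fun u : ℝ => 1 / (c ^ 2 + (2 * u - 1) ^ 2) :=
    continuous_const.div (by fun_prop) fun u => by positivity
  have h2 : Continuous fun u : ℝ => K * (1 / (c ^ 2 + (2 * u - 1) ^ 2)) :=
    continuous_const.mul h1
  refine (intervalIntegral.integral_mono_on zero_le_one (hf.intervalIntegrable _ _)
    (h2.intervalIntegrable _ _) h).trans ?_
  rw [intervalIntegral.integral_const_mul]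
  exact mul_le_mul_of_nonneg_left (Lk.AKerAux.int_le hc) hK

theorem gap {z e m w : ℝ} (hm : 0 < m) (hz : m ≤ z) (he : 0 ≤ e) (h0 : 0 ≤ w) (h1 : w ≤ 1 / 4) :
    w / z ^ 2 - w / (z + e) ^ 2 ≤ e / m ^ 3 := by
  have hz0 : 0 < z := hm.trans_le hz
  have a1 : 1 / z ^ 2 - 1 / (z + e) ^ 2 ≤ 2 * e / z ^ 3 := by
    rw [div_sub_div _ _ (by positivity) (by positivity), div_le_div_iff₀ (by positivity)
      (by positivity)]
    have : 0 ≤ z ^ 2 * e ^ 2 * (3 * z + 2 * e) := by positivity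
    nlinarith
  have a2 : 2 * e / z ^ 3 ≤ 2 * e / m ^ 3 := by gcongr
  have a3 : 0 ≤ e / m ^ 3 := by positivity
  have a4 : w / z ^ 2 - w / (z + e) ^ 2 = w * (1 / z ^ 2 - 1 / (z + e) ^ 2) := by ring
  have a5 : 2 * e / m ^ 3 = 2 * (e / m ^ 3) := by ring
  rw [a4]
  refine (mul_le_mul_of_nonneg_left (a1.trans a2) h0).trans ?_
  rw [a5]
  nlinarith

end KerAux

open KerAux

theorem cd_ke (hε : 0 < ε) : ContDiff ℝ 2 fun q : E × E => ke ε q.1 q.2 := by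
  have h : ContDiff ℝ (2 : ℕ) fun p : (E × E) × ℝ =>
      p.2 * (1 - p.2) / (‖Zz p.1.1 p.1.2 p.2‖ ^ 2 + ε ^ 2) ^ 2 :=
    ContDiff.div (by fun_prop) ((cd_Zz.add contDiff_const).pow 2) fun p => by positivity
  exact cd_ival 2 h 0 1

theorem cont_re (hε : 0 < ε) : Continuous fun q : E × E => re ε q.1 q.2 := by
  have h : Continuous fun p : (E × E) × ℝ =>
      4 * ε ^ 2 * (p.2 * (1 - p.2) ^ 2) / (‖Zz p.1.1 p.1.2 p.2‖ ^ 2 + ε ^ 2) ^ 3 :=
    Continuous.div (by fun_prop) ((cd_Zz.continuous.add continuous_const).pow 3)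
      fun p => by positivity
  exact intervalIntegral.continuous_parametric_intervalIntegral_of_continuous' (μ := volume)
    (f := fun (q : E × E) (u : ℝ) =>
      4 * ε ^ 2 * (u * (1 - u) ^ 2) / (‖Zz q.1 q.2 u‖ ^ 2 + ε ^ 2) ^ 3) h 0 1

theorem ke_nonneg (ε : ℝ) (z y : E) : 0 ≤ ke ε z y :=
  intervalIntegral.integral_nonneg zero_le_one fun u hu =>
    div_nonneg (mul_nonneg hu.1 (by linarith [hu.2])) (sq_nonneg _)

theorem re_nonneg (ε : ℝ) (z y : E) : 0 ≤ re ε z y :=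
  intervalIntegral.integral_nonneg zero_le_one fun u hu => by
    have := hu.1
    positivity

theorem ke_le (ε : ℝ) (x y : S) (h : x ≠ y) : ke ε x y ≤ Lk.gaussK ⟪(x : E), y⟫ := by
  have hlt := Lk.inner_lt_one x y h
  have hc : ContinuousOn (fun u : ℝ => u * (1 - u) / (‖Zz x y u‖ ^ 2 + ε ^ 2) ^ 2) (Icc 0 1) := by
    refine ContinuousOn.div (by fun_prop) (by unfold Zz; fun_prop) fun u hu => ?_
    have := Lk.AKerAux.base_pos hlt hu
    rw [← zz_sq] at this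
    positivity
  refine intervalIntegral.integral_mono_on zero_le_one
    (hc.intervalIntegrable_of_Icc zero_le_one)
    ((Lk.AKerAux.cont_ker hlt).intervalIntegrable_of_Icc zero_le_one) fun u hu => ?_
  have h1 := Lk.AKerAux.base_pos hlt hu
  rw [← zz_sq] at h1 ⊢
  exact div_le_div_of_nonneg_left (mul_nonneg hu.1 (by linarith [hu.2])) (by positivity)
    (pow_le_pow_left₀ h1.le (le_add_of_nonneg_right (sq_nonneg ε)) 2)

theorem ke_gap {η δ : ℝ} (hη : 0 < η) (hδ : 0 < δ) : ∃ ε₀ : ℝ, 0 < ε₀ ∧ ∀ ε, 0 < ε → ε < ε₀ →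
    ∀ x y : S, η ≤ ‖(x : E) - y‖ → Lk.gaussK ⟪(x : E), y⟫ - ke ε x y ≤ δ := by
  have hm : 0 < (η / 2) ^ 2 := by positivity
  refine ⟨min 1 (δ * ((η / 2) ^ 2) ^ 3), lt_min one_pos (by positivity), ?_⟩
  intro ε hε hε' x y hxy
  have hne : x ≠ y := fun e => by
    rw [e, sub_self, norm_zero] at hxy
    linarith
  have hlt := Lk.inner_lt_one x y hne
  have e1 : ε ^ 2 / ((η / 2) ^ 2) ^ 3 ≤ δ := by
    rw [div_le_iff₀ (by positivity)]
    have h1 := hε'.trans_le (min_le_left _ _)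
    have h2 := hε'.trans_le (min_le_right _ _)
    nlinarith
  have i1 := (Lk.AKerAux.cont_ker hlt).intervalIntegrable_of_Icc (μ := volume) zero_le_one
  have i2 := (cont_k hε x y).intervalIntegrable (μ := volume) 0 1
  rw [Lk.gaussK, ke, ← intervalIntegral.integral_sub i1 i2]
  refine (intervalIntegral.integral_mono_on zero_le_one (i1.sub i2)
    (intervalIntegrable_const (c := δ)) fun u hu => ?_).trans (by simp)
  rw [← zz_sq]
  refine (gap hm ?_ (sq_nonneg ε) (mul_nonneg hu.1 (by linarith [hu.2]))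
    (by nlinarith [sq_nonneg (2 * u - 1)])).trans e1
  exact (pow_le_pow_left₀ (by positivity) (by linarith) 2).trans (zz_ge x y hu).1

theorem ke_a1 : ∃ C : ℝ, 0 < C ∧ ∀ ε, 0 < ε → ε ≤ 1 → ∀ x y : S,
    ke ε x y * ‖(x : E) - y‖ ≤ C * a1 ε x y := by
  refine ⟨8, by norm_num, fun ε hε _ x y => ?_⟩
  obtain ⟨c, hc, h1, h2, h3⟩ := scale hε x y
  have h4 : ke ε x y ≤ 1 / (2 * c ^ 2) * (2 / c) := by
    refine int_bound (cont_k hε x y) hc (by positivity) fun u hu => ?_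
    obtain ⟨b1, b2⟩ := h3 u hu
    have b3 : c ^ 2 * ((c ^ 2 + (2 * u - 1) ^ 2) / 2) ≤ (‖Zz x y u‖ ^ 2 + ε ^ 2) ^ 2 := by
      rw [sq (‖Zz x y u‖ ^ 2 + ε ^ 2)]
      exact mul_le_mul b1 b2 (by positivity) (by positivity)
    refine (div_le_div₀ (by norm_num) (by nlinarith : u * (1 - u) ≤ 1 / 4) (by positivity)
      b3).trans_eq ?_
    field_simp
    norm_num
  calc ke ε x y * ‖(x : E) - y‖ ≤ 1 / (2 * c ^ 2) * (2 / c) * (2 * c) :=
        mul_le_mul h4 h1 (norm_nonneg _) (by positivity)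
    _ = 8 * (1 / (4 * c ^ 2)) := by
        field_simp
        norm_num
    _ ≤ 8 * a1 ε x y := by
        unfold a1
        gcongr

theorem re_a2 : ∃ C : ℝ, 0 < C ∧ ∀ ε, 0 < ε → ε ≤ 1 → ∀ x y : S,
    re ε x y * ‖(x : E) - y‖ ≤ C * a2 ε x y := by
  refine ⟨128, by norm_num, fun ε hε _ x y => ?_⟩
  obtain ⟨c, hc, h1, h2, h3⟩ := scale hε x y
  have h4 : re ε x y ≤ 2 * ε ^ 2 / c ^ 4 * (2 / c) := by
    refine int_bound (cont_r hε x y) hc (by positivity) fun u hu => ?_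
    obtain ⟨b1, b2⟩ := h3 u hu
    have b3 : (c ^ 2) ^ 2 * ((c ^ 2 + (2 * u - 1) ^ 2) / 2) ≤ (‖Zz x y u‖ ^ 2 + ε ^ 2) ^ 3 := by
      rw [pow_succ (‖Zz x y u‖ ^ 2 + ε ^ 2) 2]
      exact mul_le_mul (pow_le_pow_left₀ (by positivity) b1 2) b2 (by positivity) (by positivity)
    have b4 : u * (1 - u) ^ 2 ≤ 1 / 4 := by
      have b5 : u * (1 - u) ≤ 1 / 4 := by nlinarith
      have b6 : 0 ≤ u * (1 - u) := mul_nonneg hu.1 (by linarith [hu.2])
      have b7 := mul_nonneg b6 hu.1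
      nlinarith
    have b8 : 4 * ε ^ 2 * (u * (1 - u) ^ 2) ≤ 4 * ε ^ 2 * (1 / 4) :=
      mul_le_mul_of_nonneg_left b4 (by positivity)
    refine (div_le_div₀ (by positivity) b8 (by positivity) b3).trans_eq ?_
    field_simp
  calc re ε x y * ‖(x : E) - y‖ ≤ 2 * ε ^ 2 / c ^ 4 * (2 / c) * (2 * c) :=
        mul_le_mul h4 h1 (norm_nonneg _) (by positivity)
    _ = 128 * (ε ^ 2 / (4 * c ^ 2) ^ 2) := by
        field_simp
        norm_num
    _ ≤ 128 * a2 ε x y := by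
        unfold a2
        gcongr

theorem re_low : ∃ c : ℝ, 0 < c ∧ ∀ ε, 0 < ε → ε ≤ 1 / 2 → ∀ x y : S,
    ‖(x : E) - y‖ ≤ ε → c / ε ^ 3 ≤ re ε x y := by
  refine ⟨1 / 432, by norm_num, fun ε hε hε' x y hxy => ?_⟩
  have hf := cont_r hε x y
  have hab : 1 / 2 - ε / 2 ≤ 1 / 2 + ε / 2 := by linarith
  refine le_trans ?_ (intervalIntegral.integral_mono_interval (a := 1 / 2 - ε / 2)
    (b := 1 / 2 + ε / 2) (by linarith) hab (by linarith) ?_ (hf.intervalIntegrable _ _))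
  · refine le_trans ?_ (intervalIntegral.integral_mono_on hab
      (intervalIntegrable_const (c := 1 / 432 / ε ^ 4)) (hf.intervalIntegrable _ _) fun u hu => ?_)
    · rw [intervalIntegral.integral_const, smul_eq_mul]
      apply le_of_eq
      field_simp
      ring
    · have u1 : 1 / 4 ≤ u := by linarith [hu.1]
      have u2 : 1 / 4 ≤ 1 - u := by linarith [hu.2]
      have b1 : 1 / 4 * (1 / 4) ^ 2 ≤ u * (1 - u) ^ 2 := by gcongr
      have b2 : (2 * u - 1) ^ 2 ≤ ε ^ 2 :=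
        sq_le_sq' (by linarith [hu.1]) (by linarith [hu.2])
      have b3 : (‖(x : E) - y‖ / 2) ^ 2 ≤ ε ^ 2 :=
        pow_le_pow_left₀ (by positivity) (by linarith [norm_nonneg ((x : E) - y)]) 2
      have b4 : ‖Zz x y u‖ ^ 2 + ε ^ 2 ≤ 3 * ε ^ 2 := by
        rw [zz_eq]
        have : 0 ≤ (2 * u - 1) ^ 2 * (‖(x : E) - y‖ / 2) ^ 2 := by positivity
        linarith
      calc 1 / 432 / ε ^ 4 = 4 * ε ^ 2 * (1 / 4 * (1 / 4) ^ 2) / (3 * ε ^ 2) ^ 3 := by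
            field_simp
            norm_num
        _ ≤ _ := by gcongr
  · refine (ae_restrict_iff' measurableSet_Ioc).2 (Eventually.of_forall fun u hu => ?_)
    have := hu.1.le
    positivity

end Pool.Agent.Lib.MP_399f8e_an.Sg
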