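import Pool.Agent.Lib.MP_399f8e_an.Sg.Sig

open Set Filter Topology Metric MeasureTheory
open scoped RealInnerProductSpace

noncomputable section

namespace Pool.Agent.Lib.MP_399f8e_an.Sg

open Rg

variable {φ : ℝ → S → S}

namespace Sig2Aux

/-- the one-dimensional singular factor -/
def f1 (t : ℝ) : ℝ := (ball (0 : ℝ) 2).indicator (fun t => (|t| / 2) ^ (-(5 / 6) : ℝ)) t

theorem f1_nonneg (t : ℝ) : 0 ≤ f1 t :=
  indicator_nonneg (fun s _ => Real.rpow_nonneg (by positivity) _) t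

theorem f1_int : Integrable f1 := by
  refine IntegrableOn.integrable_indicator ?_ measurableSet_ball
  refine integrableOn_ball_of_norm_le_rpow (E := ℝ) (C := (2 : ℝ) ^ (5 / 6 : ℝ)) (α := 5 / 6)
    (by simp) (by simp; norm_num) (ae_of_all _ fun t => ?_) ?_
  · rw [Real.norm_eq_abs, abs_of_nonneg (Real.rpow_nonneg (by positivity) _),
      Real.div_rpow (abs_nonneg t) (by norm_num), Real.rpow_neg (by norm_num : (0 : ℝ) ≤ 2),
      div_inv_eq_mul, mul_comm, Real.norm_eq_abs]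
  · exact ((continuous_abs.measurable.div_const 2).pow_const _).aestronglyMeasurable

/-- the majorant on the ambient space -/
def F (z : E) : ℝ := ∏ i, f1 (z i)

theorem F_nonneg (z : E) : 0 ≤ F z := Finset.prod_nonneg fun _ _ => f1_nonneg _

theorem F_int : Integrable F := by
  rw [← (PiLp.volume_preserving_toLp (Fin 4)).integrable_comp_emb
    (MeasurableEquiv.toLp 2 _).measurableEmbedding]
  exact Integrable.fintype_prod (f := fun (_ : Fin 4) (t : ℝ) => f1 t) fun _ => f1_int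

theorem ae_ne : ∀ᵐ z : E, ∀ i, z i ≠ 0 := by
  rw [ae_all_iff]
  intro i
  have h : ∀ᵐ w : Fin 4 → ℝ, w i ≠ 0 := Measure.ae_eval_ne (fun _ : Fin 4 => (volume : Measure ℝ)) i 0
  exact (PiLp.volume_preserving_ofLp (Fin 4)).quasiMeasurePreserving.ae h

theorem f1_ge {t d : ℝ} (h0 : t ≠ 0) (h2 : |t| < 2) (hd : |t| / 2 ≤ d) :
    d ^ (-(5 / 6) : ℝ) ≤ f1 t := by
  rw [f1, indicator_of_mem (by simpa using h2)]
  exact Real.rpow_le_rpow_of_nonpos (by positivity) hd (by norm_num)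

theorem pt {z : E} (h0 : ∀ i, z i ≠ 0) (h1 : 1 < ‖z‖) (h2 : ‖z‖ < 2) :
    0 < ‖(N z : E) - pole‖ ∧ (‖(N z : E) - pole‖ ^ (-(5 / 6) : ℝ)) ^ 3 ≤ F z := by
  set d := ‖(N z : E) - pole‖ with hd
  have hz : z ≠ 0 := by
    intro h
    rw [h, norm_zero] at h1
    linarith
  have hl : ∀ i, |z i| < 2 := fun i => lt_of_le_of_lt (PiLp.norm_apply_le z i) h2
  have hi : ∀ i : Fin 4, i ≠ 0 → |z i| / 2 ≤ d := by
    intro i hi
    have a1 : |((N z : E) - (pole : E)) i| ≤ d := PiLp.norm_apply_le ((N z : E) - (pole : E)) i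
    have a2 : ((N z : E) - (pole : E)) i = ‖z‖⁻¹ * z i := by
      simp [N, hz, pole, hi]
    rw [a2, abs_mul, abs_of_pos (inv_pos.2 (by linarith))] at a1
    refine le_trans ?_ a1
    rw [div_eq_inv_mul]
    exact mul_le_mul_of_nonneg_right (inv_anti₀ (by linarith) h2.le) (abs_nonneg _)
  have hp : 0 < d := lt_of_lt_of_le (by have := abs_pos.2 (h0 1); positivity) (hi 1 (by decide))
  refine ⟨hp, ?_⟩
  have b0 : 1 ≤ f1 (z 0) := by
    have := f1_ge (d := 1) (h0 0) (hl 0) (by linarith [hl 0])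
    simpa using this
  have b1 := f1_ge (h0 1) (hl 1) (hi 1 (by decide))
  have b2 := f1_ge (h0 2) (hl 2) (hi 2 (by decide))
  have b3 := f1_ge (h0 3) (hl 3) (hi 3 (by decide))
  have hw : 0 ≤ d ^ (-(5 / 6) : ℝ) := Real.rpow_nonneg hp.le _
  rw [F, Fin.prod_univ_four]
  calc (d ^ (-(5 / 6) : ℝ)) ^ 3
      = 1 * d ^ (-(5 / 6) : ℝ) * d ^ (-(5 / 6) : ℝ) * d ^ (-(5 / 6) : ℝ) := by ring
    _ ≤ f1 (z 0) * f1 (z 1) * f1 (z 2) * f1 (z 3) := by
      have := f1_nonneg (z 0)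
      have := f1_nonneg (z 1)
      have := f1_nonneg (z 2)
      gcongr

theorem cube {s : ℝ} (hs : 0 < s) : ((s ^ 2) ^ (-(5 / 6) : ℝ)) ^ 3 = 1 / s ^ 5 := by
  rw [← Real.rpow_natCast s 2, ← Real.rpow_mul hs.le, ← Real.rpow_natCast _ 3,
    ← Real.rpow_mul hs.le, one_div, ← Real.rpow_natCast s 5, ← Real.rpow_neg hs.le]
  norm_num

theorem key {g : ℝ → ℝ} (hg : Continuous g) (h0 : ∀ d, 0 ≤ g d) {c : ℝ} (hc : 0 ≤ c)
    (hb : ∀ s, 0 < s → s ^ 2 ≤ 2 → g (s ^ 2) ≤ c * (1 / s ^ 5)) (y : S) :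
    ∫ x : S, g ‖(x : E) - y‖ ∂sig ≤ c * ∫ z, F z := by
  have hn : ‖(y : E)‖ = ‖(pole : E)‖ := by
    rw [norm_eq_of_mem_sphere y, norm_eq_of_mem_sphere pole]
  set R : E ≃ₗᵢ[ℝ] E := (ℝ ∙ ((y : E) - pole))ᗮ.reflection with hR
  have hRy : R y = pole := Submodule.reflection_sub hn
  have hG : Continuous fun z : E => g ‖z - pole‖ := by fun_prop
  have e1 : ∀ x : S, g ‖(x : E) - y‖ = (fun z : E => g ‖z - pole‖) (R x) := by
    intro x
    simp only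
    rw [← hRy, ← map_sub, R.norm_map]
  have hG' : Continuous fun x : S => g ‖(x : E) - pole‖ := by fun_prop
  simp only [e1]
  rw [sig_rot R hG, ← J_sig hG', Gg.J_eq (fun z hz => by simp [hz]), ← integral_const_mul]
  refine integral_mono_of_nonneg (ae_of_all _ fun z => mul_nonneg (Gg.chi_nonneg z) (h0 _))
    (F_int.const_mul c) ?_
  filter_upwards [ae_ne] with z hz
  by_cases h : Gg.chi z = 0
  · rw [h, zero_mul]
    exact mul_nonneg hc (F_nonneg z)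
  obtain ⟨hp, hF⟩ := pt hz (Gg.chi_ne h).1 (Gg.chi_ne h).2
  set d := ‖(N z : E) - pole‖ with hd
  have hd2 : d ≤ 2 := by
    refine (norm_sub_le _ _).trans ?_
    rw [norm_eq_of_mem_sphere (N z), norm_eq_of_mem_sphere pole]
    norm_num
  have hs : 0 < √d := Real.sqrt_pos.2 hp
  have e2 : √d ^ 2 = d := Real.sq_sqrt hp.le
  have h3 := hb _ hs (by rw [e2]; exact hd2)
  rw [← cube hs, e2] at h3
  calc Gg.chi z * g d ≤ 1 * g d := mul_le_mul_of_nonneg_right (Gg.chi_le z) (h0 _)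
    _ ≤ c * (d ^ (-(5 / 6) : ℝ)) ^ 3 := by rw [one_mul]; exact h3
    _ ≤ c * F z := mul_le_mul_of_nonneg_left hF hc

theorem I_nonneg : 0 ≤ ∫ z, F z := integral_nonneg F_nonneg

theorem a2_le (y : S) {ε : ℝ} (hε : 0 < ε) : ∫ x, a2 ε x y ∂sig ≤ √ε * ∫ z, F z := by
  refine key (g := fun d => ε ^ 2 / (d ^ 2 + ε ^ 2) ^ 2)
    (continuous_const.div (by fun_prop) fun d => by positivity) (fun d => by positivity)
    (Real.sqrt_nonneg ε) (fun s hs _ => ?_) y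
  have hr : 0 < √ε := Real.sqrt_pos.2 hε
  have e : ε = √ε ^ 2 := (Real.sq_sqrt hε.le).symm
  generalize √ε = r at hr e
  subst e
  rw [mul_one_div, div_le_div_iff₀ (by positivity) (by positivity)]
  have h1 : r ^ 3 * s ^ 5 ≤ ((s ^ 2) ^ 2 + (r ^ 2) ^ 2) ^ 2 := by
    have p1 : 0 ≤ s ^ 4 * r ^ 4 := by positivity
    have p2 : 0 ≤ s ^ 8 := by positivity
    have p3 : 0 ≤ r ^ 8 := by positivity
    rcases le_total r s with h | h
    · have : r ^ 3 * s ^ 5 ≤ s ^ 3 * s ^ 5 := by gcongr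
      nlinarith
    · have : r ^ 3 * s ^ 5 ≤ r ^ 3 * r ^ 5 := by gcongr
      nlinarith
  calc (r ^ 2) ^ 2 * s ^ 5 = r * (r ^ 3 * s ^ 5) := by ring
    _ ≤ r * ((s ^ 2) ^ 2 + (r ^ 2) ^ 2) ^ 2 := mul_le_mul_of_nonneg_left h1 hr.le

theorem mean {ν : Measure S} (hν : Lk.Inv φ ν) (t : ℝ) {a b : S → S → ℝ}
    (ha : Continuous fun p : S × S => a p.1 p.2) (hb : Continuous fun p : S × S => b p.1 p.2)
    (h0 : ∀ x y, 0 ≤ a x y) (hab : ∀ x y, a (φ t x) (φ t y) ≤ b x y) {B : ℝ}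
    (hB : ∀ y, ∫ x, b x y ∂sig ≤ B) : ∫ x, ∫ y, a (φ t x) y ∂ν ∂sig ≤ B := by
  have := hν.1
  have := sig_fin
  have hi : Integrable (Function.uncurry b) (sig.prod ν) :=
    hb.integrable_of_hasCompactSupport (HasCompactSupport.of_compactSpace _)
  have h1 : ∀ x, ∫ y, a (φ t x) y ∂ν ≤ ∫ y, b x y ∂ν := by
    intro x
    have c1 : Continuous fun y => a (φ t x) y := ha.comp (Continuous.prodMk_right (φ t x))
    have c2 : Continuous fun y => b x y := hb.comp (Continuous.prodMk_right x)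
    have e : ∫ y, a (φ t x) y ∂ν = ∫ y, a (φ t x) (φ t y) ∂ν := by
      conv_lhs => rw [← (hν.2 t).map_eq]
      exact integral_map (hν.2 t).measurable.aemeasurable c1.aestronglyMeasurable
    rw [e]
    exact integral_mono_of_nonneg (ae_of_all _ fun y => h0 _ _)
      (c2.integrable_of_hasCompactSupport (HasCompactSupport.of_compactSpace _))
      (ae_of_all _ fun y => hab x y)
  calc ∫ x, ∫ y, a (φ t x) y ∂ν ∂sig ≤ ∫ x, ∫ y, b x y ∂ν ∂sig :=
        integral_mono_of_nonneg (ae_of_all _ fun x => integral_nonneg fun y => h0 _ _)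
          hi.integral_prod_left (ae_of_all _ h1)
    _ = ∫ y, ∫ x, b x y ∂sig ∂ν := integral_integral_swap hi
    _ ≤ ∫ _ : S, B ∂ν :=
        integral_mono hi.integral_prod_right (integrable_const B) hB
    _ = B := by simp

theorem back (hφ : IsFl φ) {t K : ℝ} (h : Gg.Lp (φ (-t)) K) (x y : S) :
    ‖(x : E) - y‖ ^ 2 ≤ K ^ 2 * ‖(φ t x : E) - φ t y‖ ^ 2 := by
  have h1 := h (φ t x) (φ t y)
  rw [← hφ.add, ← hφ.add, neg_add_cancel, hφ.zero, hφ.zero] at h1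
  rw [← mul_pow]
  exact pow_le_pow_left₀ (norm_nonneg _) h1 2

end Sig2Aux

open Sig2Aux

theorem sig1 : ∃ C : ℝ, 0 < C ∧ ∀ (y : S) (ε : ℝ), 0 < ε → ∫ x, a1 ε x y ∂sig ≤ C := by
  refine ⟨2 * (∫ z, F z) + 1, by have := I_nonneg; positivity, fun y ε hε => ?_⟩
  refine le_trans ?_ (le_add_of_nonneg_right zero_le_one)
  refine key (g := fun d => 1 / (d ^ 2 + ε ^ 2))
    (continuous_const.div (by fun_prop) fun d => by positivity) (fun d => by positivity)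
    zero_le_two (fun s hs h2 => ?_) y
  rw [mul_one_div, div_le_div_iff₀ (by positivity) (by positivity)]
  have h3 : s ≤ 2 := by nlinarith
  have h4 : s * s ^ 4 ≤ 2 * s ^ 4 := mul_le_mul_of_nonneg_right h3 (by positivity)
  nlinarith [sq_nonneg ε]

theorem sig2 {δ : ℝ} (hδ : 0 < δ) : ∃ ε₀ : ℝ, 0 < ε₀ ∧ ∀ ε, 0 < ε → ε < ε₀ → ∀ y : S,
    ∫ x, a2 ε x y ∂sig ≤ δ := by
  have hI := I_nonneg
  refine ⟨(δ / ((∫ z, F z) + 1)) ^ 2, by positivity, fun ε hε h y => (a2_le y hε).trans ?_⟩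
  have h1 : √ε ≤ δ / ((∫ z, F z) + 1) := Real.sqrt_le_iff.2 ⟨by positivity, h.le⟩
  rw [le_div_iff₀ (by positivity)] at h1
  nlinarith [Real.sqrt_nonneg ε]

theorem mean1 (hφ : IsFl φ) : ∃ C : ℝ, 0 < C ∧ ∀ ν : Measure S, Lk.Inv φ ν → ∀ t K ε : ℝ,
    1 ≤ K → Gg.Lp (φ (-t)) K → 0 < ε →
      ∫ x, ∫ y, a1 ε (φ t x) y ∂ν ∂sig ≤ C * K ^ 2 := by
  obtain ⟨C, hC, h⟩ := sig1
  refine ⟨C, hC, fun ν hν t K ε hK hL hε => ?_⟩
  refine mean hν t (a := a1 ε) (b := fun x y => K ^ 2 * a1 ε x y) (cont_a1 hε)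
    (continuous_const.mul (cont_a1 hε)) (a1_nonneg ε) (fun x y => ?_) fun y => ?_
  · have h1 := back hφ hL x y
    have h2 : 1 ≤ K ^ 2 := one_le_pow₀ hK
    unfold a1
    rw [mul_one_div, div_le_div_iff₀ (by positivity) (by positivity)]
    nlinarith [mul_le_mul_of_nonneg_right h2 (sq_nonneg ε)]
  · rw [integral_const_mul, mul_comm]
    exact mul_le_mul_of_nonneg_right (h y ε hε) (sq_nonneg K)

theorem mean2 (hφ : IsFl φ) {K δ : ℝ} (hK : 1 ≤ K) (hδ : 0 < δ) : ∃ ε₀ : ℝ, 0 < ε₀ ∧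
    ∀ ν : Measure S, Lk.Inv φ ν → ∀ t ε : ℝ, Gg.Lp (φ (-t)) K → 0 < ε → ε < ε₀ →
      ∫ x, ∫ y, a2 ε (φ t x) y ∂ν ∂sig ≤ δ := by
  have hK0 : 0 < K := by linarith
  obtain ⟨ε₁, h1, h⟩ := sig2 (δ := δ / K ^ 2) (by positivity)
  refine ⟨ε₁ / K, by positivity, fun ν hν t ε hL hε hlt => ?_⟩
  have hKε : 0 < K * ε := by positivity
  refine mean hν t (a := a2 ε) (b := fun x y => K ^ 2 * a2 (K * ε) x y) (cont_a2 hε)
    (continuous_const.mul (cont_a2 hKε)) (a2_nonneg ε) (fun x y => ?_) fun y => ?_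
  · have h2 := back hφ hL x y
    unfold a2
    set D := ‖(φ t x : E) - φ t y‖ ^ 2
    have hD : 0 ≤ D := by positivity
    set d := ‖(x : E) - y‖ ^ 2
    have hd : 0 ≤ d := by positivity
    have h3 : d + (K * ε) ^ 2 ≤ K ^ 2 * (D + ε ^ 2) := by nlinarith
    have h4 : (d + (K * ε) ^ 2) ^ 2 ≤ (K ^ 2 * (D + ε ^ 2)) ^ 2 :=
      pow_le_pow_left₀ (by positivity) h3 2
    rw [← mul_div_assoc, div_le_div_iff₀ (by positivity) (by positivity)]
    calc ε ^ 2 * (d + (K * ε) ^ 2) ^ 2 ≤ ε ^ 2 * (K ^ 2 * (D + ε ^ 2)) ^ 2 :=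
          mul_le_mul_of_nonneg_left h4 (sq_nonneg ε)
      _ = K ^ 2 * (K * ε) ^ 2 * (D + ε ^ 2) ^ 2 := by ring
  · rw [integral_const_mul]
    have h5 := h (K * ε) hKε (by rwa [lt_div_iff₀ hK0, mul_comm] at hlt) y
    rw [le_div_iff₀ (by positivity)] at h5
    linarith

end Pool.Agent.Lib.MP_399f8e_an.Sg
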