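import Pool.Agent.Lib.MP_399f8e_an.Sg.DPot
import Pool.Agent.Lib.MP_399f8e_an.Sg.Sig2

open Set Filter Topology Metric MeasureTheory
open scoped RealInnerProductSpace

noncomputable section

namespace Pool.Agent.Lib.MP_399f8e_an.Sg

open Rg

variable {φ : ℝ → S → S} {m M L : ℝ}

namespace VposAux

theorem J_int {g : E → ℝ} (hg : Continuous g) : IntegrableOn g (closedBall (0 : E) 2) :=
  hg.continuousOn.integrableOn_compact (isCompact_closedBall _ _)

theorem J_le_sig {f : E → ℝ} {g : S → ℝ} (hg : Continuous g) (h0 : ∀ y, 0 ≤ f y)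
    (h : ∀ y, 1 / 2 < ‖y‖ → f y ≤ g (N y)) :
    Gg.J (fun y => Gg.chi y * f y) ≤ ∫ x, g x ∂sig := by
  rw [← J_sig hg]
  refine integral_mono_of_nonneg (ae_of_all _ fun y => mul_nonneg (Gg.chi_nonneg y) (h0 y))
    (J_int (cont_chi_N hg)) (ae_of_all _ fun y => ?_)
  by_cases hy : Gg.chi y = 0
  · simp [hy]
  · exact mul_le_mul_of_nonneg_left (h y (by linarith [(Gg.chi_ne hy).1])) (Gg.chi_nonneg y)

theorem cont_par {f : S → S → ℝ} (hf : Continuous fun p : S × S => f p.1 p.2) (ν : Measure S)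
    [IsFiniteMeasure ν] : Continuous fun x => ∫ y, f x y ∂ν := by
  have h := continuous_parametric_integral_of_continuous (μ := ν) (f := f) hf isCompact_univ
  simpa only [Measure.restrict_univ] using h

theorem int_of_cont {Z : Type} [TopologicalSpace Z] [CompactSpace Z] [MeasurableSpace Z]
    [OpensMeasurableSpace Z] {f : Z → ℝ} (hf : Continuous f) (ν : Measure Z) [IsFiniteMeasure ν] :
    Integrable f ν :=
  hf.integrable_of_hasCompactSupport (HasCompactSupport.of_compactSpace f)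

theorem cont_re' {Z : Type} [TopologicalSpace Z] {ε : ℝ} (hε : 0 < ε) {a b : Z → S}
    (ha : Continuous a) (hb : Continuous b) : Continuous fun z => re ε (a z) (b z) := by
  have h := (cont_re hε).comp
    ((continuous_subtype_val.comp ha).prodMk (continuous_subtype_val.comp hb))
  simpa only [Function.comp_def] using h

theorem cont_a2' {Z : Type} [TopologicalSpace Z] {ε : ℝ} (hε : 0 < ε) {a b : Z → S}
    (ha : Continuous a) (hb : Continuous b) : Continuous fun z => a2 ε (a z) (b z) := by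
  have h := (cont_a2 hε).comp (ha.prodMk hb)
  simpa only [Function.comp_def] using h

theorem w4_lin (p q : Fin 4 → ℝ) (F : Fin 4 → Fin 4 → ℝ) :
    Gg.w4 p q F = ∑ i, ∑ j, Gg.d4 p q (Gg.dl i) (Gg.dl j) * F i j := by
  simp [Gg.d4, Gg.w4, Gg.dl, Fin.sum_univ_four]
  ring

theorem w4_int (p q : Fin 4 → ℝ) {ν : Measure S} {F : Fin 4 → Fin 4 → S → ℝ}
    (hF : ∀ i j, Integrable (F i j) ν) :
    Gg.w4 p q (fun i j => ∫ y, F i j y ∂ν) = ∫ y, Gg.w4 p q (fun i j => F i j y) ∂ν := by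
  simp only [w4_lin p q]
  rw [integral_finsetSum _ fun i _ => integrable_finsetSum _ fun j _ => (hF i j).const_mul _]
  refine Finset.sum_congr rfl fun i _ => ?_
  rw [integral_finsetSum _ fun j _ => (hF i j).const_mul _]
  simp only [integral_const_mul]

theorem inner4 (a b : E) : ⟪a, b⟫ = a 0 * b 0 + a 1 * b 1 + a 2 * b 2 + a 3 * b 3 := by
  rw [← Gg.inn, Fin.sum_univ_four]

theorem alg (x u s w : E) (α β ρ κ : ℝ) :
    Gg.w4 (fun i => α * x i) (fun i => β * u i)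
      (fun i j => κ * Lk.vol s (ρ • (Gg.ee i - x i • x)) (ρ • (Gg.ee j - x j • x)) w / 2)
      = κ * (α * β * ρ ^ 2) * (⟪x, s⟫ * ⟪u, w⟫ - ⟪x, w⟫ * ⟪u, s⟫) := by
  have e2 : ∀ i k, Gg.ee i k = Gg.dl i k := fun i k => by simp [Gg.ee, Gg.dl]
  simp only [Gg.w4, Lk.vol_eq, inner4, PiLp.smul_apply, PiLp.sub_apply, smul_eq_mul, e2]
  simp [Gg.dl]
  ring

theorem D_zero' (hG : ContDiff ℝ 2 (Gg.Gm φ)) (hφ : IsFl φ) {z : E} (hz : 1 / 2 < ‖z‖)
    (i : Fin 4) : fderiv ℝ (Gg.Gm φ) (0, z) (0, Gg.ee i)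
      = ‖z‖⁻¹ • (Gg.ee i - (N z : E) i • (N z : E)) := by
  obtain ⟨c, hc⟩ := Gg.D_zero hG hφ hz (Gg.ee i)
  have h1 := Gg.tangent hG 0 hz (0, Gg.ee i)
  rw [hc, hφ.zero, inner_add_right, inner_smul_right, inner_smul_right,
    real_inner_self_eq_norm_sq, norm_coe] at h1
  have h2 : ⟪(N z : E), Gg.ee i⟫ = (N z : E) i := by simp [Gg.ee, EuclideanSpace.inner_single_right]
  rw [h2] at h1
  have h3 : c = -(‖z‖⁻¹ * (N z : E) i) := by linarith
  rw [hc, h3]
  module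

/-- the algebraic factor -/
def bb (X : S → E) (x y : S) : ℝ :=
  (‖X x‖ ^ 2)⁻¹ * (⟪(x : E), (x : E) + y⟫ * ⟪X x, X y⟫ - ⟪(x : E), X y⟫ * ⟪X x, (x : E) + y⟫)

theorem bb_low {X : S → E} (h : Lk.Base X φ m M L) (x y : S) :
    2 - (2 * M ^ 2 + 2 * M * L) / m ^ 2 * ‖(x : E) - y‖ ≤ bb X x y := by
  have hm := h.m_pos
  have hx := h.low x
  have hM : 0 ≤ M := (norm_nonneg _).trans (h.up x)
  have hL := h.L_pos
  set d := ‖(x : E) - y‖ with hd
  have hd0 : 0 ≤ d := norm_nonneg _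
  have hn : 0 < ‖X x‖ ^ 2 := by have : 0 < ‖X x‖ := by linarith
                                positivity
  have e1 : ⟪(x : E), (x : E) + y⟫ = 2 - ⟪(x : E), (x : E) - y⟫ := by
    rw [inner_add_right, inner_sub_right, real_inner_self_eq_norm_sq, norm_coe]
    ring
  have e2 : ⟪X x, X y⟫ = ‖X x‖ ^ 2 - ⟪X x, X x - X y⟫ := by
    rw [inner_sub_right, real_inner_self_eq_norm_sq]
    ring
  have e3 : ⟪(x : E), X y⟫ = ⟪(x : E) - y, X y⟫ := by
    rw [inner_sub_left, h.perp y, sub_zero]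
  have e4 : ⟪X x, (x : E) + y⟫ = ⟪X x, (y : E)⟫ := by
    rw [inner_add_right, real_inner_comm, h.perp x, zero_add]
  have b1 : |⟪(x : E), (x : E) - y⟫| ≤ d := by
    have := abs_real_inner_le_norm (x : E) ((x : E) - y)
    rwa [norm_coe, one_mul] at this
  have b2 : |⟪X x, X y⟫| ≤ M ^ 2 := (abs_real_inner_le_norm _ _).trans (by
    rw [sq]; exact mul_le_mul (h.up x) (h.up y) (norm_nonneg _) hM)
  have b3 : |⟪X x, X x - X y⟫| ≤ M * (L * d) := (abs_real_inner_le_norm _ _).trans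
    (mul_le_mul (h.up x) (h.lip x y) (norm_nonneg _) hM)
  have b4 : |⟪(x : E) - y, X y⟫| ≤ d * M := (abs_real_inner_le_norm _ _).trans
    (mul_le_mul_of_nonneg_left (h.up y) hd0)
  have b5 : |⟪X x, (y : E)⟫| ≤ M := by
    have := abs_real_inner_le_norm (X x) (y : E)
    rw [norm_coe, mul_one] at this
    exact this.trans (h.up x)
  have c1 : |⟪(x : E), (x : E) - y⟫ * ⟪X x, X y⟫| ≤ d * M ^ 2 := by
    rw [abs_mul]; exact mul_le_mul b1 b2 (abs_nonneg _) hd0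
  have c2 : |⟪(x : E) - y, X y⟫ * ⟪X x, (y : E)⟫| ≤ d * M * M := by
    rw [abs_mul]; exact mul_le_mul b4 b5 (abs_nonneg _) (by positivity)
  have k : 2 * ‖X x‖ ^ 2 - (2 * M ^ 2 + 2 * M * L) * d ≤
      ⟪(x : E), (x : E) + y⟫ * ⟪X x, X y⟫ - ⟪(x : E), X y⟫ * ⟪X x, (x : E) + y⟫ := by
    rw [e1, e3, e4]
    nlinarith [(abs_le.1 c1).2, (abs_le.1 c2).2, (abs_le.1 b3).2]
  have k2 : (‖X x‖ ^ 2)⁻¹ ≤ (m ^ 2)⁻¹ := inv_anti₀ (by positivity) (by gcongr)
  have k3 := mul_le_mul_of_nonneg_left k (inv_pos.2 hn).le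
  have k4 := mul_le_mul_of_nonneg_right k2
    (show 0 ≤ (2 * M ^ 2 + 2 * M * L) * d by positivity)
  rw [mul_sub, mul_left_comm, inv_mul_cancel₀ hn.ne', mul_one] at k3
  rw [bb, div_eq_mul_inv]
  linarith

theorem cont_bb {X : S → E} (hX : Continuous X) (x : S) : Continuous (bb X x) := by
  unfold bb
  fun_prop

theorem dens (h : Ctx φ m M L) {ν : Measure S} (hν : Lk.Inv φ ν) {ε : ℝ} (hε : 0 < ε) {z : E}
    (hz : 1 / 2 < ‖z‖) :
    Gg.w4 (Gg.pp z) (fun i => Gg.fm (Gg.Gm φ) (Gg.Bm φ) 0 i z)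
      (fun i j => Gg.pd (Gg.fm (Gg.Gm φ) (Ae (Gg.gen φ) ν ε) 0 j) i z)
      = Gg.chi z * (‖z‖⁻¹ ^ 2 * ∫ y : S, re ε (N z) y * bb (Gg.gen φ) (N z) y ∂ν) := by
  have := hν.1
  have hφ : IsFl φ := h.base.toIsFl
  have hG := h.cd2
  have hX : Continuous (Gg.gen φ) := h.base.toLF.contW
  have hA : ContDiff ℝ 1 (Ae (Gg.gen φ) ν ε) := (cd_Ae hX hε).of_le (by norm_num)
  have h0 : 0 < ‖z‖ := by linarith
  have hr : Continuous fun y : S => re ε (N z) y := cont_re' hε continuous_const continuous_id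
  have hv : ∀ v w : E, Continuous fun y : S => Lk.vol ((N z : E) + y) v w (Gg.gen φ y) :=
    fun v w => by
      have h := Lk.continuous_vol.comp (((continuous_const (y := (N z : E))).add
        continuous_subtype_val).prodMk ((continuous_const (y := v)).prodMk
          ((continuous_const (y := w)).prodMk hX)))
      simpa only [Function.comp_def, Pi.add_apply] using h
  have hi : ∀ v w : E, Integrable
      (fun y : S => re ε (N z) y * Lk.vol ((N z : E) + y) v w (Gg.gen φ y) / 2) ν := fun v w =>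
    int_of_cont ((hr.mul (hv v w)).div_const 2) ν
  have e1 : Gg.pp z = fun i => Gg.chi z * ‖z‖ * (N z : E) i := funext fun i => by
    have e : z i = ‖z‖ * (N z : E) i := (congrArg (fun z : E => z i) (norm_smul_N z)).symm
    rw [Gg.pp, mul_assoc, ← e]
  have e2 : (fun i => Gg.fm (Gg.Gm φ) (Gg.Bm φ) 0 i z)
      = fun i => (‖Gg.gen φ (N z)‖ ^ 2)⁻¹ * ‖z‖⁻¹ * Gg.gen φ (N z) i := funext fun i => by
    have h1 : Gg.b2.rOut = 9 / 10 := rfl
    have h2 : ⟪Gg.gen φ (N z), Gg.ee i⟫ = Gg.gen φ (N z) i := by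
      simp [Gg.ee, EuclideanSpace.inner_single_right]
    rw [Gg.fm, Gg.pb, D_zero' hG hφ hz, Gg.Gm_eq _ hz, hφ.zero, Gg.Bm,
      Gg.b2.zero_of_le_dist (by rw [dist_zero_right, norm_coe, h1]; norm_num), sub_zero, one_smul,
      Gg.Xh_eq hG hφ (Gg.half_lt _), N_coe, inner_smul_left, inner_smul_right, inner_sub_right,
      inner_smul_right, h2, real_inner_comm, h.base.perp]
    simp [mul_assoc]
  rw [Gg.w4_congr _ _ (M' := fun i j => ∫ y : S, re ε (N z) y * Lk.vol ((N z : E) + y)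
      (‖z‖⁻¹ • (Gg.ee i - (N z : E) i • (N z : E))) (‖z‖⁻¹ • (Gg.ee j - (N z : E) j • (N z : E)))
      (Gg.gen φ y) / 2 ∂ν) fun i j => ?_,
    w4_int _ _ fun i j => hi _ _, e1, e2,
    ← integral_const_mul, ← integral_const_mul]
  · refine integral_congr_ae (ae_of_all _ fun y => ?_)
    simp only
    rw [alg, bb]
    field_simp
  · have a1 := Gg.fm_d hG hA 0 i j z
    have a2 := Gg.fm_d hG hA 0 j i z
    rw [D_zero' hG hφ hz, D_zero' hG hφ hz, Gg.Gm_eq _ hz, hφ.zero, Ae_d h.base.toLF hν hε]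
      at a1 a2
    rw [integral_div, integral_div, ← a1, ← a2]
    ring

theorem mass : ∃ c : ℝ, 0 < c ∧ ∀ ε : ℝ, 0 < ε → ε ≤ 1 / 2 → ∀ y : S,
    c ≤ ∫ x : S, re ε x y ∂sig := by
  obtain ⟨c₁, hc₁, h1⟩ := re_low
  obtain ⟨c₂, hc₂, h2⟩ := sig3
  have := sig_fin
  refine ⟨c₁ * c₂, by positivity, fun ε hε hε' y => ?_⟩
  have hr : Continuous fun x : S => re ε x y := cont_re' hε continuous_id continuous_const
  have hs : MeasurableSet {x : S | ‖(x : E) - y‖ ≤ ε} :=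
    (isClosed_le (by fun_prop) continuous_const).measurableSet
  have h3 := setIntegral_ge_of_const_le_real hs (measure_ne_top sig _)
    (fun x hx => h1 ε hε hε' x y hx) (int_of_cont hr sig).integrableOn
  have h4 := setIntegral_le_integral (s := {x : S | ‖(x : E) - y‖ ≤ ε}) (int_of_cont hr sig)
    (ae_of_all _ fun x => re_nonneg ε x y)
  have h5 := mul_le_mul_of_nonneg_left (h2 y ε hε hε') (show 0 ≤ c₁ / ε ^ 3 by positivity)
  have h6 : c₁ / ε ^ 3 * (c₂ * ε ^ 3) = c₁ * c₂ := by field_simp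
  linarith

end VposAux

open VposAux

theorem core2 (h : Ctx φ m M L) : Core2 (Gg.Gm φ) (Gg.Bm φ) (Gg.Ym φ) := by
  have hφ : IsFl φ := h.base.toIsFl
  have hG := h.cd2
  have hX : ∀ x, Gg.gen φ x ≠ 0 := fun x =>
    norm_pos_iff.1 (h.base.m_pos.trans_le (h.base.low x))
  have hXh : ContDiff ℝ 1 (Gg.Xh φ) :=
    ((Gg.cd_D hG).comp (contDiff_const.prodMk contDiff_id)).clm_apply contDiff_const
  refine ⟨h.cd, Gg.cut (n := 1) Gg.b2 contDiff_id fun y hy => ?_, fun t y hy => ?_,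
    fun t y hy => Gg.D_Y hG hφ t hy, fun y hy => ?_, fun t y hy => ?_⟩
  · have h1 : Gg.b2.rIn = 3 / 5 := rfl
    have h2 : Gg.Xh φ y ≠ 0 := by
      rw [Gg.Xh_eq hG hφ (by rw [h1, id] at hy; linarith)]
      exact hX _
    exact (((contDiff_norm_sq ℝ).comp hXh).contDiffAt.inv
      (pow_ne_zero 2 (norm_ne_zero_iff.2 h2))).smul hXh.contDiffAt
  · rw [Gg.Gm_eq _ hy, norm_coe]
  · rw [Gg.Ym, inner_smul_right]
    nth_rewrite 2 [← norm_smul_N y]
    rw [inner_smul_left, h.base.perp, mul_zero, mul_zero]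
  · have h1 : Gg.b2.rOut = 9 / 10 := rfl
    rw [Gg.pb, Gg.D_t hG hφ t hy, Gg.Gm_eq _ hy, Gg.Bm,
      Gg.b2.zero_of_le_dist (by rw [dist_zero_right, norm_coe, h1]; norm_num), sub_zero, one_smul,
      Gg.Xh_eq hG hφ (Gg.half_lt _), N_coe, inner_smul_left, real_inner_self_eq_norm_sq]
    exact inv_mul_cancel₀ (pow_ne_zero 2 (norm_ne_zero_iff.2 (hX _)))

theorem vpos (h : Ctx φ m M L) : ∃ c ε₀ : ℝ, 0 < c ∧ 0 < ε₀ ∧ ∀ ν : Measure S, Lk.Inv φ ν →
    ∀ ε, 0 < ε → ε < ε₀ →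
      c ≤ Gg.H (Gg.fm (Gg.Gm φ) (Gg.Bm φ) 0) (Gg.fm (Gg.Gm φ) (Ae (Gg.gen φ) ν ε) 0) := by
  have hφ : IsFl φ := h.base.toIsFl
  have hG := h.cd2
  have hX : Continuous (Gg.gen φ) := h.base.toLF.contW
  obtain ⟨c, hc, hm⟩ := mass
  obtain ⟨C, hC, hre⟩ := re_a2
  have hM : 0 ≤ M := (norm_nonneg _).trans (h.base.up pole)
  have hL := h.base.L_pos
  set D := (2 * M ^ 2 + 2 * M * L) / m ^ 2 with hD
  have hD0 : 0 ≤ D := by positivity
  obtain ⟨ε₁, hε₁, he⟩ := mean2 hφ (K := 1) (δ := c / 4 / (D * C + 1)) le_rfl (by positivity)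
  refine ⟨c / 4, min ε₁ (1 / 2), by positivity, by positivity, fun ν hν ε hε hε' => ?_⟩
  have := hν.1
  have := sig_fin
  have hε1 : ε < ε₁ := hε'.trans_le (min_le_left _ _)
  have hε2 : ε ≤ 1 / 2 := hε'.le.trans (min_le_right _ _)
  have hA : ContDiff ℝ 1 (Ae (Gg.gen φ) ν ε) := (cd_Ae hX hε).of_le (by norm_num)
  have hr : Continuous fun p : S × S => re ε p.1 p.2 := cont_re' hε continuous_fst continuous_snd
  have g1 := cont_par (f := fun x y : S => re ε x y) hr ν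
  have g2 := cont_par (cont_a2 hε) ν
  have hg : Continuous fun x : S => 1 / 2 * ∫ y : S, re ε x y ∂ν - D * C * ∫ y, a2 ε x y ∂ν :=
    (continuous_const.mul g1).sub (continuous_const.mul g2)
  have s1 : Gg.J (fun z => Gg.chi z *
      (1 / 2 * ∫ y : S, re ε (N z) y ∂ν - D * C * ∫ y, a2 ε (N z) y ∂ν))
      ≤ Gg.H (Gg.fm (Gg.Gm φ) (Gg.Bm φ) 0) (Gg.fm (Gg.Gm φ) (Ae (Gg.gen φ) ν ε) 0) := by
    refine integral_mono (J_int (cont_chi_N hg))
      (J_int (Gg.cont_H (Gg.cd_fm hG (core2 h).hB 0) (Gg.cd_fm hG hA 0))) fun z => ?_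
    by_cases hz : Gg.chi z = 0
    · simp only [hz, zero_mul, Gg.w4_zero _ _ (Gg.pp_zero hz), le_refl]
    obtain ⟨z1, z2⟩ := Gg.chi_ne hz
    simp only
    rw [dens h hν hε (by linarith)]
    refine mul_le_mul_of_nonneg_left ?_ (Gg.chi_nonneg z)
    have i0 : Continuous fun y : S => re ε (N z) y := cont_re' hε continuous_const continuous_id
    have i1 := int_of_cont i0 ν
    have i2 : Integrable (fun y : S => a2 ε (N z) y) ν :=
      int_of_cont (cont_a2' hε continuous_const continuous_id) ν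
    have t1 : 2 * ∫ y : S, re ε (N z) y ∂ν - D * C * ∫ y, a2 ε (N z) y ∂ν
        ≤ ∫ y : S, re ε (N z) y * bb (Gg.gen φ) (N z) y ∂ν := by
      rw [← integral_const_mul, ← integral_const_mul,
        ← integral_sub (i1.const_mul _) (i2.const_mul _)]
      refine integral_mono ((i1.const_mul _).sub (i2.const_mul _))
        (int_of_cont (i0.mul (cont_bb hX _)) ν) fun y => ?_
      have u1 := mul_le_mul_of_nonneg_left (bb_low h.base (N z) y) (re_nonneg ε (N z) y)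
      have u2 := mul_le_mul_of_nonneg_left (hre ε hε (by linarith) (N z) y) hD0
      simp only
      nlinarith
    have t2 : 0 ≤ ∫ y : S, re ε (N z) y ∂ν := integral_nonneg fun y => re_nonneg _ _ _
    have t3 : 0 ≤ D * C * ∫ y, a2 ε (N z) y ∂ν :=
      mul_nonneg (by positivity) (integral_nonneg fun y => a2_nonneg _ _ _)
    have t4 : ‖z‖⁻¹ ≤ 1 := inv_le_one_of_one_le₀ z1.le
    have t5 : 1 / 2 ≤ ‖z‖⁻¹ := by
      rw [one_div]
      exact inv_anti₀ (by linarith) z2.le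
    have t6 : ‖z‖⁻¹ ^ 2 ≤ 1 := by nlinarith
    have t7 : 1 / 4 ≤ ‖z‖⁻¹ ^ 2 := by nlinarith
    have t8 := mul_le_mul_of_nonneg_left t1 (sq_nonneg ‖z‖⁻¹)
    nlinarith [mul_le_mul_of_nonneg_right t6 t3, mul_le_mul_of_nonneg_right t7 t2]
  rw [J_sig hg, integral_sub ((int_of_cont g1 sig).const_mul _) ((int_of_cont g2 sig).const_mul _),
    integral_const_mul, integral_const_mul] at s1
  have s2 := he ν hν 0 ε (fun x y => by rw [neg_zero, hφ.zero, hφ.zero, one_mul]) hε hε1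
  simp only [hφ.zero] at s2
  have s3 : c ≤ ∫ x : S, ∫ y : S, re ε x y ∂ν ∂sig := by
    rw [integral_integral_swap (f := fun x y : S => re ε x y) (int_of_cont hr _)]
    have := integral_mono (μ := ν) (integrable_const c)
      (int_of_cont (cont_par (f := fun y x : S => re ε x y)
        (cont_re' hε continuous_snd continuous_fst) sig) ν)
      fun y => hm ε hε hε2 y
    simpa using this
  have s4 := mul_le_mul_of_nonneg_left s2 (show 0 ≤ D * C by positivity)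
  have s5 : D * C * (c / 4 / (D * C + 1)) ≤ c / 4 := by
    rw [← mul_div_assoc, div_le_iff₀ (by positivity)]
    nlinarith
  linarith

theorem size1 (h : Ctx φ m M L) : ∃ C : ℝ, 0 < C ∧ ∀ ν : Measure S, Lk.Inv φ ν →
    ∀ t K ε : ℝ, 1 ≤ K → Gg.Lp (φ t) K → Gg.Lp (φ (-t)) K → 0 < ε → ε ≤ 1 →
      Gg.J (fun y => Gg.chi y * ∑ i, |Gg.fm (Gg.Gm φ) (Ae (Gg.gen φ) ν ε) t i y|) ≤ C * K ^ 3 := by
  have hφ : IsFl φ := h.base.toIsFl
  obtain ⟨C₁, hC₁, h1⟩ := Ae_le h.base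
  obtain ⟨C₂, hC₂, h2⟩ := mean1 hφ
  refine ⟨16 * C₁ * C₂, by positivity, fun ν hν t K ε hK hp hn hε hε1 => ?_⟩
  have := hν.1
  have ht : Continuous (φ t) := hφ.cont.comp (continuous_const.prodMk continuous_id)
  have hg : Continuous fun x : S => 16 * C₁ * K * ∫ y, a1 ε (φ t x) y ∂ν :=
    continuous_const.mul ((cont_par (cont_a1 hε) ν).comp ht)
  refine (J_le_sig hg (fun y => Finset.sum_nonneg fun i _ => abs_nonneg _) fun y hy => ?_).trans ?_
  · have hb := Gg.bd_of_lp h.cd2 (by linarith) hp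
    have e : ∀ i, |Gg.fm (Gg.Gm φ) (Ae (Gg.gen φ) ν ε) t i y|
        ≤ C₁ * (∫ y', a1 ε (φ t (N y)) y' ∂ν) * (4 * K) := fun i => by
      have b1 := hb y (Gg.ee i) hy
      rw [Gg.norm_ee, mul_one] at b1
      have b2 := h1 ν hν ε hε hε1 (φ t (N y))
      rw [Gg.fm, Gg.pb, Gg.Gm_eq _ hy]
      exact (abs_real_inner_le_norm _ _).trans
        (mul_le_mul b2 b1 (norm_nonneg _) ((norm_nonneg _).trans b2))
    rw [Fin.sum_univ_four]
    linarith [e 0, e 1, e 2, e 3]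
  · rw [integral_const_mul]
    have := mul_le_mul_of_nonneg_left (h2 ν hν t K ε hK hn hε)
      (show 0 ≤ 16 * C₁ * K by positivity)
    exact this.trans (le_of_eq (by ring))

theorem size2 (h : Ctx φ m M L) {K δ : ℝ} (hK : 1 ≤ K) (hδ : 0 < δ) : ∃ ε₀ : ℝ, 0 < ε₀ ∧
    ∀ ν : Measure S, Lk.Inv φ ν → ∀ t ε : ℝ, Gg.Lp (φ t) K → Gg.Lp (φ (-t)) K → 0 < ε → ε < ε₀ →
      Gg.J (fun y => Gg.chi y * ∑ i, |Rr (Gg.Gm φ) (Ae (Gg.gen φ) ν ε) t (Gg.ee i) y|) ≤ δ := by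
  have hφ : IsFl φ := h.base.toIsFl
  obtain ⟨C, hC, h1⟩ := Ae_err h.base
  have hK0 : 0 < K := by linarith
  obtain ⟨ε₁, hε₁, h2⟩ := mean2 hφ (δ := δ / (16 * C * K)) hK (by positivity)
  refine ⟨min ε₁ 1, by positivity, fun ν hν t ε hp hn hε hε' => ?_⟩
  have := hν.1
  have hε1 : ε < ε₁ := hε'.trans_le (min_le_left _ _)
  have hε2 : ε ≤ 1 := hε'.le.trans (min_le_right _ _)
  have ht : Continuous (φ t) := hφ.cont.comp (continuous_const.prodMk continuous_id)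
  have hg : Continuous fun x : S => 16 * C * K * ∫ y, a2 ε (φ t x) y ∂ν :=
    continuous_const.mul ((cont_par (cont_a2 hε) ν).comp ht)
  refine (J_le_sig hg (fun y => Finset.sum_nonneg fun i _ => abs_nonneg _) fun y hy => ?_).trans ?_
  · have hb := Gg.bd_of_lp h.cd2 hK0.le hp
    have i0 : 0 ≤ ∫ y', a2 ε (φ t (N y)) y' ∂ν := integral_nonneg fun y' => a2_nonneg _ _ _
    have e : ∀ i, |Rr (Gg.Gm φ) (Ae (Gg.gen φ) ν ε) t (Gg.ee i) y|
        ≤ C * (4 * K) * ∫ y', a2 ε (φ t (N y)) y' ∂ν := fun i => by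
      have b1 := hb y (Gg.ee i) hy
      rw [Gg.norm_ee, mul_one] at b1
      rw [Rr, Gg.D_t h.cd2 hφ t hy, Gg.Gm_eq _ hy]
      exact (h1 ν hν ε hε hε2 _ _).trans
        (mul_le_mul_of_nonneg_right (mul_le_mul_of_nonneg_left b1 hC.le) i0)
    rw [Fin.sum_univ_four]
    linarith [e 0, e 1, e 2, e 3]
  · rw [integral_const_mul]
    have := mul_le_mul_of_nonneg_left (h2 ν hν t ε hn hε hε1)
      (show 0 ≤ 16 * C * K by positivity)
    exact this.trans (le_of_eq (by field_simp))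

end Pool.Agent.Lib.MP_399f8e_an.Sg
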