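import Pool.Agent.Lib.MP_399f8e_an.Sg.Step
import Pool.Agent.Lib.MP_399f8e_an.Sg.Vpos
import Pool.Agent.Lib.MP_399f8e_an.Sg.Alek
import Pool.Agent.Lib.MP_399f8e_an.Lk.AMain

open Set Filter Topology Metric MeasureTheory
open scoped RealInnerProductSpace Manifold ContDiff

noncomputable section

namespace Pool.Agent.Lib.MP_399f8e_an.Sg

open Rg

variable {φ : ℝ → S → S} {m M L : ℝ}

theorem Bi.mono {T T' K : ℝ} (h : Bi φ T K) (hT : T' ≤ T) : Bi φ T' K :=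
  fun t ht => h t (ht.trans hT)

theorem Tay.mono {G : ℝ × E → E} {t κ κ' : ℝ} (h : Tay G t κ) (hκ : κ ≤ κ') : Tay G t κ' :=
  fun z z' a b c d => (h z z' a b c d).trans (mul_le_mul_of_nonneg_right hκ (sq_nonneg _))

theorem log_half {T : ℝ} (hT : 2 ≤ T) : 1 / 2 ≤ Real.log T := by
  have := Real.log_two_gt_d9
  have := Real.log_le_log (by norm_num) hT
  linarith

theorem log_bd {C T Q : ℝ} (hC : 1 ≤ C) (hT : 2 ≤ T) (hQ0 : 0 ≤ Q) (hQ : Q ≤ T) :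
    Real.log (2 + C * (1 + T) * Q) ≤ (4 * C + 2) * Real.log T := by
  have h1 : 2 + C * (1 + T) * Q ≤ (2 * C) * (T * T) := by
    have a : C * (1 + T) * Q ≤ C * (1 + T) * T := mul_le_mul_of_nonneg_left hQ (by positivity)
    have b : 0 ≤ C * (T * (T - 2)) := mul_nonneg (by linarith) (mul_nonneg (by linarith) (by linarith))
    nlinarith [mul_nonneg (sub_nonneg.2 hC) (show 0 ≤ T by linarith)]
  have h2 := Real.log_le_log (by positivity) h1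
  rw [Real.log_mul (by positivity) (by positivity),
    Real.log_mul (x := T) (by positivity) (by positivity)] at h2
  have h3 := Real.log_le_sub_one_of_pos (show 0 < 2 * C by positivity)
  have h4 := log_half hT
  nlinarith

theorem osc (h : Ctx φ m M L) : ∃ C : ℝ, 0 < C ∧ ∀ ν : Measure S, Lk.Inv φ ν → ∀ T K : ℝ,
    2 ≤ T → 1 ≤ K → K ^ 4 ≤ T → Bi φ T K → ∀ x x' : S,
      |HT (Gg.gen φ) φ ν T x - HT (Gg.gen φ) φ ν T x'| ≤ C * K ^ 3 * Real.log T := by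
  obtain ⟨ℓ, C, hℓ, hC, hs⟩ := step h
  obtain ⟨N₀, hN, hc⟩ := chain hℓ
  obtain ⟨D, hD, ha⟩ := alek h
  refine ⟨N₀ * C * (4 * D + 2), by positivity, fun ν hν T K hT hK hKT hB x x' => ?_⟩
  have hK3 : 1 ≤ K ^ 3 := one_le_pow₀ hK
  have h1 : 1 ≤ D * (1 + T) * K ^ 3 :=
    one_le_mul_of_one_le_of_one_le (one_le_mul_of_one_le_of_one_le hD (by linarith)) hK3
  have h2 := hc (Gg.gen φ) (HT (Gg.gen φ) φ ν T)
    (C * K ^ 3 * Real.log (2 + D * (1 + T) * K ^ 3 * K))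
    (mul_nonneg (by positivity) (Real.log_nonneg (by nlinarith)))
    (hs ν hν T K _ (by linarith) hK h1 hB (ha T K (by linarith) hK hB)
      ((ha 0 K le_rfl hK (hB.mono (by linarith))).mono (by
        have : 0 ≤ D * T * K ^ 3 := by positivity
        nlinarith))) x x'
  have h3 := log_bd hD hT (show 0 ≤ K ^ 4 by positivity) hKT
  rw [show D * (1 + T) * K ^ 3 * K = D * (1 + T) * K ^ 4 by ring] at h2
  refine h2.trans ?_
  have h4 := mul_le_mul_of_nonneg_left h3 (show 0 ≤ N₀ * (C * K ^ 3) by positivity)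
  linarith

theorem lk_osc (h : Ctx φ m M L) {μ μ' ν : Measure S} (hμ : Lk.Inv φ μ) (hμ' : Lk.Inv φ μ')
    (hν : Lk.Inv φ ν) {T B : ℝ}
    (hB : ∀ x x' : S, |HT (Gg.gen φ) φ ν T x - HT (Gg.gen φ) φ ν T x'| ≤ B) :
    |T * (Lk.lk (Gg.gen φ) μ ν - Lk.lk (Gg.gen φ) μ' ν)| ≤ B := by
  have := hμ.1
  have := hμ'.1
  have hc := cont_HT h.base hν T
  have i1 : ∀ ρ : Measure S, IsProbabilityMeasure ρ → Integrable (HT (Gg.gen φ) φ ν T) ρ :=
    fun ρ _ => hc.integrable_of_hasCompactSupport (HasCompactSupport.of_compactSpace _)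
  have key : ∀ x, |HT (Gg.gen φ) φ ν T x - T * Lk.lk (Gg.gen φ) μ' ν| ≤ B := fun x => by
    rw [← int_HT h.base hμ' hν T]
    have h1 := norm_integral_le_of_norm_le_const (μ := μ')
      (f := fun x' => HT (Gg.gen φ) φ ν T x - HT (Gg.gen φ) φ ν T x') (C := B)
      (Eventually.of_forall fun x' => hB x x')
    rw [integral_sub (integrable_const _) (i1 μ' inferInstance)] at h1
    simpa using h1
  have h1 := norm_integral_le_of_norm_le_const (μ := μ)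
    (f := fun x => HT (Gg.gen φ) φ ν T x - T * Lk.lk (Gg.gen φ) μ' ν) (C := B)
    (Eventually.of_forall key)
  rw [integral_sub (i1 μ inferInstance) (integrable_const _), int_HT h.base hμ hν T] at h1
  rw [mul_sub]
  simpa using h1

theorem HT_le (h : Ctx φ m M L) {ν : Measure S} (hν : Lk.Inv φ ν)
    (h0 : Lk.lk (Gg.gen φ) ν ν = 0) {T B : ℝ}
    (hB : ∀ x x' : S, |HT (Gg.gen φ) φ ν T x - HT (Gg.gen φ) φ ν T x'| ≤ B) (x : S) :
    |HT (Gg.gen φ) φ ν T x| ≤ B := by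
  have := hν.1
  have h1 := norm_integral_le_of_norm_le_const (μ := ν)
    (f := fun x' => HT (Gg.gen φ) φ ν T x - HT (Gg.gen φ) φ ν T x') (C := B)
    (Eventually.of_forall fun x' => hB x x')
  rw [integral_sub (integrable_const _) ((cont_HT h.base hν T).integrable_of_hasCompactSupport
    (HasCompactSupport.of_compactSpace _)), int_HT h.base hν hν T, h0] at h1
  simpa using h1

theorem zero_case (h : Ctx φ m M L) {ν : Measure S} (hν : Lk.Inv φ ν)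
    (h0 : Lk.lk (Gg.gen φ) ν ν = 0) : ∃ κ : ℝ, 0 < κ ∧ ∀ T K : ℝ, 2 ≤ T → 1 ≤ K → K ^ 4 ≤ T →
      Bi φ T K → κ * T ≤ K ^ 4 * Real.log T := by
  obtain ⟨C, hC, ho⟩ := osc h
  obtain ⟨D, hD, hi⟩ := idb (core2 h)
  obtain ⟨c, ε₁, hc, hε₁, hv⟩ := vpos h
  obtain ⟨C₁, hC₁, h1⟩ := size1 h
  have := hν.1
  refine ⟨c / (4 * D * (C + 2 * C₁ + 4)), by positivity, fun T K hT hK hKT hB => ?_⟩
  have hT0 : 0 < T := by linarith
  obtain ⟨ε₂, hε₂, h2⟩ := size2 h hK (show 0 < 1 / T ^ 2 by positivity)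
  obtain ⟨ε₃, hε₃, h3⟩ := Fw_near h hν hT0.le one_pos
  obtain ⟨ε, hε, e⟩ : ∃ ε : ℝ, 0 < ε ∧ ε < min (min ε₁ ε₂) (min ε₃ 1) :=
    exists_between (by positivity)
  simp only [lt_min_iff] at e
  have lp : ∀ t ∈ Icc 0 T, Gg.Lp (φ t) K ∧ Gg.Lp (φ (-t)) K := fun t ht =>
    ⟨hB t (by rw [abs_of_nonneg ht.1]; exact ht.2),
      hB _ (by rw [abs_neg, abs_of_nonneg ht.1]; exact ht.2)⟩
  have key := hi (Ae (Gg.gen φ) ν ε) (cd_Ae h.base.toLF.contW hε) T (4 * K)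
    (C * K ^ 3 * Real.log T + 1) (C₁ * K ^ 3) (1 / T ^ 2) (by linarith) (by linarith)
    (fun t ht => Gg.bd_of_lp h.cd2 (by linarith) (lp t ht).1)
    (fun y y1 _ => by
      have a := abs_le.1 (h3 ε hε e.2.1 y (by linarith))
      have b := abs_le.1 (HT_le h hν h0 (ho ν hν T K hT hK hKT hB) (N y))
      exact abs_le.2 ⟨by linarith [a.1, b.1], by linarith [a.2, b.2]⟩)
    (fun t ht => h1 ν hν t K ε hK (lp t ht).1 (lp t ht).2 hε e.2.2.le)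
    (fun t ht => h2 ν hν t ε (lp t ht).1 (lp t ht).2 hε e.1.2)
  have hV := mul_le_mul_of_nonneg_left (hv ν hν ε hε e.1.1) hT0.le
  have hl := log_half hT
  have e1 : T ^ 2 * (4 * K) * (1 / T ^ 2) = 4 * K := by field_simp
  rw [e1] at key
  have k1 : K ≤ K ^ 4 := le_self_pow₀ hK (by norm_num)
  have k4 : 0 ≤ K ^ 4 := by positivity
  have k2 : K ^ 4 ≤ 2 * (K ^ 4 * Real.log T) := by nlinarith
  have k3 : 4 * K * (C * K ^ 3 * Real.log T + 1 + C₁ * K ^ 3) + 4 * K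
      ≤ 4 * (C + 2 * C₁ + 4) * (K ^ 4 * Real.log T) := by
    have := mul_le_mul_of_nonneg_left k2 hC₁.le
    nlinarith
  rw [div_mul_eq_mul_div, div_le_iff₀ (by positivity)]
  have := mul_le_mul_of_nonneg_left k3 hD.le
  nlinarith

theorem gap_case (h : Ctx φ m M L) {μ μ' ν : Measure S} (hμ : Lk.Inv φ μ) (hμ' : Lk.Inv φ μ')
    (hν : Lk.Inv φ ν) (hne : Lk.lk (Gg.gen φ) μ ν ≠ Lk.lk (Gg.gen φ) μ' ν) :
    ∃ κ : ℝ, 0 < κ ∧ ∀ T K : ℝ, 2 ≤ T → 1 ≤ K → K ^ 4 ≤ T →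
      Bi φ T K → κ * T ≤ K ^ 4 * Real.log T := by
  obtain ⟨C, hC, ho⟩ := osc h
  have hd := abs_pos.2 (sub_ne_zero.2 hne)
  refine ⟨|Lk.lk (Gg.gen φ) μ ν - Lk.lk (Gg.gen φ) μ' ν| / C, by positivity,
    fun T K hT hK hKT hB => ?_⟩
  have h1 := lk_osc h hμ hμ' hν (ho ν hν T K hT hK hKT hB)
  rw [abs_mul, abs_of_nonneg (show 0 ≤ T by linarith)] at h1
  have h2 : K ^ 3 ≤ K ^ 4 := pow_le_pow_right₀ hK (by norm_num)
  have h3 := mul_le_mul_of_nonneg_right h2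
    (show 0 ≤ C * Real.log T from mul_nonneg hC.le (by linarith [log_half hT]))
  rw [div_mul_eq_mul_div, div_le_iff₀ hC]
  nlinarith

theorem growth (h : Ctx φ m M L) : ∃ κ : ℝ, 0 < κ ∧ ∀ T K : ℝ, 2 ≤ T → Bi φ T K →
    κ * T ≤ K ^ 4 * Real.log T := by
  suffices H : ∃ κ : ℝ, 0 < κ ∧ ∀ T K : ℝ, 2 ≤ T → 1 ≤ K → K ^ 4 ≤ T →
      Bi φ T K → κ * T ≤ K ^ 4 * Real.log T by
    obtain ⟨κ, hκ, H⟩ := H
    refine ⟨min κ (1 / 2), by positivity, fun T K hT hB => ?_⟩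
    have hK := Gg.one_le_lp h.base.toIsFl (hB 0 (by rw [abs_zero]; linarith))
    by_cases hKT : K ^ 4 ≤ T
    · exact (mul_le_mul_of_nonneg_right (min_le_left _ _) (by linarith)).trans (H T K hT hK hKT hB)
    · have a := mul_le_mul_of_nonneg_right (min_le_right κ (1 / 2)) (show 0 ≤ T by linarith)
      nlinarith [log_half hT, not_le.1 hKT]
  obtain ⟨μ, ν, hμ, hν, hle⟩ : ∃ μ ν : Measure S, Lk.Inv φ μ ∧ Lk.Inv φ ν ∧
      4 * Lk.lk (Gg.gen φ) μ ν ^ 2 ≤ Lk.lk (Gg.gen φ) μ μ * Lk.lk (Gg.gen φ) ν ν := by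
    by_contra hn
    exact h.base.false fun μ ν hμ hν => not_le.1 fun hl => hn ⟨μ, ν, hμ, hν, hl⟩
  by_cases h1 : Lk.lk (Gg.gen φ) μ ν = Lk.lk (Gg.gen φ) ν ν
  · by_cases h2 : Lk.lk (Gg.gen φ) ν μ = Lk.lk (Gg.gen φ) μ μ
    · rw [← h2, ← lk_comm hμ hν, h1] at hle
      exact zero_case h hν (by nlinarith [sq_nonneg (Lk.lk (Gg.gen φ) ν ν)])
    · exact gap_case h hν hμ hμ h2
  · exact gap_case h hμ hν hν h1

theorem cd_N [Fact (Module.finrank ℝ E = 3 + 1)] {y : E} (hy : y ≠ 0) :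
    ContMDiffAt 𝓘(ℝ, E) (𝓡 3) 3 N y := by
  let U : TopologicalSpace.Opens E := ⟨{y | y ≠ 0}, isOpen_ne⟩
  have h1 : ContMDiff 𝓘(ℝ, E) 𝓘(ℝ, E) 3 fun z : U => ‖(z : E)‖⁻¹ • (z : E) := fun z =>
    (contMDiffAt_subtype_iff (f := fun w : E => ‖w‖⁻¹ • w)).2
      (((contDiffAt_norm ℝ z.2).inv (norm_ne_zero_iff.2 z.2)).smul contDiffAt_id).contMDiffAt
  have h2 := h1.codRestrict_sphere (n := 3) fun z => by rw [← coe_N z.2]; exact (N z).2
  have h3 : ContMDiff 𝓘(ℝ, E) (𝓡 3) 3 fun z : U => N z :=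
    h2.congr fun z => Subtype.ext (coe_N z.2)
  exact contMDiffAt_subtype_iff.1 (h3 ⟨y, hy⟩)

theorem cd_Gm [Fact (Module.finrank ℝ E = 3 + 1)]
    (hs : ContMDiff (𝓘(ℝ, ℝ).prod (𝓡 3)) (𝓡 3) 3 fun p : ℝ × S => φ p.1 p.2) :
    ContDiff ℝ 3 (Gg.Gm φ) := by
  refine Gg.cut (n := 3) Gg.b1 contDiff_snd fun p hp => ?_
  have hp' : p.2 ≠ 0 := fun h => by
    have : Gg.b1.rIn = 1 / 4 := rfl
    rw [h, norm_zero, this] at hp
    linarith
  have h1 : ContMDiffAt 𝓘(ℝ, ℝ × E) (𝓘(ℝ, ℝ).prod (𝓡 3)) 3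
      (fun q : ℝ × E => (q.1, N q.2)) p :=
    contDiff_fst.contMDiff.contMDiffAt.prodMk
      ((cd_N hp').comp p contDiff_snd.contMDiff.contMDiffAt)
  exact contMDiffAt_iff_contDiffAt.1
    ((contMDiff_coe_sphere (n := 3)).contMDiffAt.comp p (hs.contMDiffAt.comp p h1))

theorem exists_ctx (hG : ContDiff ℝ 3 (Gg.Gm φ)) (hφ : IsFl φ)
    (aper : ∀ x t, 0 < t → φ t x ≠ x) : ∃ m M L, Ctx φ m M L := by
  have h2 : ContDiff ℝ 2 (Gg.Gm φ) := hG.of_le (by norm_num)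
  have hXh : ContDiff ℝ 1 (Gg.Xh φ) :=
    ((Gg.cd_D h2).comp (contDiff_const.prodMk contDiff_id)).clm_apply contDiff_const
  obtain ⟨L, hL⟩ := hXh.contDiffOn.exists_lipschitzOnWith one_ne_zero
    (convex_closedBall (0 : E) 1) (isCompact_closedBall 0 1)
  have hF : Lk.LF (Gg.gen φ) φ ((L : ℝ) + 1) := Lk.LF.of_der (by positivity) (fun x y => by
    have := hL.dist_le_mul x (sphere_subset_closedBall x.2) y (sphere_subset_closedBall y.2)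
    rw [dist_eq_norm, dist_eq_norm, Gg.Xh_eq h2 hφ (Gg.half_lt x), Gg.Xh_eq h2 hφ (Gg.half_lt y),
      N_coe, N_coe] at this
    nlinarith [norm_nonneg ((x : E) - y)]) hφ.zero fun x t => by
      have := Gg.has_t h2 t (Gg.half_lt x)
      rwa [Gg.D_t h2 hφ t (Gg.half_lt x), N_coe] at this
  obtain ⟨m, M, hB⟩ := hF.base aper
  exact ⟨m, M, _, hB, hG⟩

theorem main [Fact (Module.finrank ℝ E = 3 + 1)]
    (hs : ContMDiff (𝓘(ℝ, ℝ).prod (𝓡 3)) (𝓡 3) 3 fun p : ℝ × S => φ p.1 p.2) (hφ : IsFl φ)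
    (aper : ∀ x t, 0 < t → φ t x ≠ x) : ∃ κ : ℝ, 0 < κ ∧ ∀ T K : ℝ, 2 ≤ T → Bi φ T K →
      κ * T ≤ K ^ 4 * Real.log T := by
  obtain ⟨m, M, L, h⟩ := exists_ctx (cd_Gm hs) hφ aper
  exact growth h

end Pool.Agent.Lib.MP_399f8e_an.Sg
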