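import Pool.Agent.Lib.MP_399f8e_an.Sg.Defs

open Set Filter Topology Metric MeasureTheory
open scoped RealInnerProductSpace

noncomputable section

namespace Pool.Agent.Lib.MP_399f8e_an.Sg

open Rg

variable {H Q P : Type} [NormedAddCommGroup H] [NormedSpace ℝ H] [ProperSpace H]
  [NormedAddCommGroup Q] [NormedSpace ℝ Q] [MeasurableSpace P] {μ : Measure P} [IsFiniteMeasure μ]
  {π : P → Q} {Kc : Set Q}

theorem int_par {F : Type} [NormedAddCommGroup F] (hπ : AEStronglyMeasurable π μ)
    (hK : IsCompact Kc) (hm : ∀ᵐ p ∂μ, π p ∈ Kc) {f : Q → F} (hf : Continuous f) :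
    Integrable (fun p => f (π p)) μ := by
  obtain ⟨C, hC⟩ := hK.exists_bound_of_continuousOn hf.continuousOn
  exact Integrable.of_bound (hf.comp_aestronglyMeasurable hπ) C (hm.mono fun p hp => hC _ hp)

theorem fd_int {F : Type} [NormedAddCommGroup F] [NormedSpace ℝ F] [CompleteSpace F]
    (hπ : AEStronglyMeasurable π μ) (hK : IsCompact Kc) (hm : ∀ᵐ p ∂μ, π p ∈ Kc)
    {f : H × Q → F} (hf : ContDiff ℝ 1 f) (z : H) :
    HasFDerivAt (fun z => ∫ p, f (z, π p) ∂μ)
      (∫ p, (fderiv ℝ f (z, π p)).comp (ContinuousLinearMap.inl ℝ H Q) ∂μ) z := by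
  have hc : Continuous fun q : H × Q => (fderiv ℝ f q).comp (ContinuousLinearMap.inl ℝ H Q) :=
    (hf.continuous_fderiv one_ne_zero).clm_comp continuous_const
  obtain ⟨C, hC⟩ := ((isCompact_closedBall z 1).prod hK).exists_bound_of_continuousOn
    hc.continuousOn
  refine hasFDerivAt_integral_of_dominated_of_fderiv_le (F := fun z p => f (z, π p))
    (F' := fun z p => (fderiv ℝ f (z, π p)).comp (ContinuousLinearMap.inl ℝ H Q))
    (bound := fun _ => C) (closedBall_mem_nhds z one_pos)
    (Eventually.of_forall fun x =>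
      (hf.continuous.comp (continuous_const.prodMk continuous_id)).comp_aestronglyMeasurable hπ)
    (int_par hπ hK hm (f := fun q => f (z, q))
      (hf.continuous.comp (continuous_const.prodMk continuous_id)))
    ((hc.comp (continuous_const.prodMk continuous_id)).comp_aestronglyMeasurable hπ)
    (hm.mono fun p hp x hx => hC (x, π p) ⟨hx, hp⟩) (integrable_const C)
    (Eventually.of_forall fun p x _ => ?_)
  exact (hf.differentiable one_ne_zero (x, π p)).hasFDerivAt.comp x (hasFDerivAt_prodMk_left x _)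

theorem cd_int (n : ℕ) {F : Type} [NormedAddCommGroup F] [NormedSpace ℝ F] [CompleteSpace F]
    (hπ : AEStronglyMeasurable π μ) (hK : IsCompact Kc) (hm : ∀ᵐ p ∂μ, π p ∈ Kc)
    {f : H × Q → F} (hf : ContDiff ℝ n f) : ContDiff ℝ n fun z => ∫ p, f (z, π p) ∂μ := by
  induction n generalizing F with
  | zero =>
    have hc : Continuous f := hf.continuous
    refine contDiff_zero.2 (continuous_iff_continuousAt.2 fun z => ?_)
    obtain ⟨C, hC⟩ := ((isCompact_closedBall z 1).prod hK).exists_bound_of_continuousOn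
      hc.continuousOn
    refine continuousAt_of_dominated (F := fun z p => f (z, π p)) (bound := fun _ => C)
      (Eventually.of_forall fun x =>
        (hc.comp (continuous_const.prodMk continuous_id)).comp_aestronglyMeasurable hπ) ?_
      (integrable_const C) (Eventually.of_forall fun p =>
        (hc.comp (continuous_id.prodMk continuous_const)).continuousAt)
    filter_upwards [closedBall_mem_nhds z one_pos] with x hx
    exact hm.mono fun p hp => hC (x, π p) ⟨hx, hp⟩
  | succ n ih =>
    have h1 : ContDiff ℝ 1 f := hf.of_le (by exact_mod_cast Nat.le_add_left 1 n)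
    have h2 : ContDiff ℝ n (fderiv ℝ f) := hf.fderiv_right (by exact_mod_cast le_rfl)
    rw [Nat.cast_succ]
    exact contDiff_succ_iff_hasFDerivAt.2 ⟨_, ih (f := fun q : H × Q =>
      (fderiv ℝ f q).comp (ContinuousLinearMap.inl ℝ H Q)) (h2.clm_comp contDiff_const),
      fun z => fd_int hπ hK hm h1 z⟩

theorem cd_ival (n : ℕ) {F : Type} [NormedAddCommGroup F] [NormedSpace ℝ F] [CompleteSpace F]
    {f : H × ℝ → F}
    (hf : ContDiff ℝ n f) (a b : ℝ) : ContDiff ℝ n fun z => ∫ s in a..b, f (z, s) := by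
  have key : ∀ c d : ℝ, ContDiff ℝ n fun z => ∫ s in Ioc c d, f (z, s) := fun c d =>
    cd_int (μ := volume.restrict (Ioc c d)) (π := id) (Kc := Icc c d) n aestronglyMeasurable_id
      isCompact_Icc ((ae_restrict_mem measurableSet_Ioc).mono fun _ hp => Ioc_subset_Icc_self hp) hf
  exact (key a b).sub (key b a)

end Pool.Agent.Lib.MP_399f8e_an.Sg
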