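import Pool.Agent.Lib.MP_399f8e_an.Sg.Ker

open Set Filter Topology Metric MeasureTheory
open scoped RealInnerProductSpace

noncomputable section

namespace Pool.Agent.Lib.MP_399f8e_an.Sg

open Rg

variable {X : S → E} {φ : ℝ → S → S} {m M L ε : ℝ} {ν : Measure S}

namespace PotAux

theorem inner_cr (a b c v : E) : ⟪CrossAux.cr a b c, v⟫ = -Lk.vol a v b c := by
  rw [CrossAux.inn, CrossAux.cr0, CrossAux.cr1, CrossAux.cr2, CrossAux.cr3, Lk.vol_eq]
  unfold CrossAux.mn
  ring

theorem cd_cr : ContDiff ℝ 2 fun q : E × E × E => CrossAux.cr q.1 q.2.1 q.2.2 := by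
  have hm : ∀ i j k, ContDiff ℝ 2 fun q : E × E × E => CrossAux.mn q.1 q.2.1 q.2.2 i j k := by
    intro i j k
    unfold CrossAux.mn
    fun_prop
  refine contDiff_euclidean.2 fun i => ?_
  fin_cases i
  · exact hm 1 2 3
  · exact (hm 0 2 3).neg
  · exact hm 0 1 3
  · exact (hm 0 1 2).neg

theorem cd_ff (hε : 0 < ε) :
    ContDiff ℝ 2 fun q : E × E × E => (-ke ε q.1 q.2.1) • CrossAux.cr q.1 q.2.1 q.2.2 :=
  ((cd_ke hε).comp (f := fun q : E × E × E => (q.1, q.2.1)) (by fun_prop)).neg.smul cd_cr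

theorem int_cont {F : Type} [NormedAddCommGroup F] [IsFiniteMeasure ν] {f : S → F}
    (hf : Continuous f) : Integrable f ν :=
  hf.integrable_of_hasCompactSupport (HasCompactSupport.of_compactSpace _)

theorem int_ff (hX : Continuous X) [IsFiniteMeasure ν] (hε : 0 < ε) (z : E) :
    Integrable (fun y : S => (-ke ε z y) • CrossAux.cr z y (X y)) ν :=
  int_cont ((cd_ff hε).continuous.comp (f := fun y : S => (z, (y : E), X y)) (by fun_prop))

theorem norm_cr (x y : S) (w : E) : ‖CrossAux.cr x y w‖ ≤ 24 * (‖(x : E) - y‖ * ‖w‖) := by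
  have h1 := inner_cr x y w (CrossAux.cr x y w)
  have h2 := Lk.abs_vol_le x (CrossAux.cr x y w) ((y : E) - x) w
  rw [← Lk.AKerAux.vol_sub, norm_coe, norm_sub_rev] at h2
  rw [real_inner_self_eq_norm_sq] at h1
  have h3 := (abs_le.1 h2).1
  rcases (norm_nonneg (CrossAux.cr x y w)).eq_or_lt with h | h
  · rw [← h]
    positivity
  · refine le_of_mul_le_mul_left ?_ h
    nlinarith

end PotAux

open PotAux

theorem cd_Ae (hX : Continuous X) [IsFiniteMeasure ν] (hε : 0 < ε) :
    ContDiff ℝ 2 (Ae X ν ε) := by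
  have hπ : Continuous fun y : S => ((y : E), X y) := by fun_prop
  exact cd_int 2 (μ := ν) hπ.aestronglyMeasurable (isCompact_range hπ)
    (Eventually.of_forall fun y => mem_range_self y) (cd_ff hε)

theorem Ae_inner (hX : Continuous X) [IsFiniteMeasure ν] (hε : 0 < ε) (z v : E) :
    ⟪Ae X ν ε z, v⟫ = ∫ y : S, ke ε z y * Lk.vol z v y (X y) ∂ν := by
  rw [real_inner_comm, Ae, ← integral_inner (int_ff hX hε z)]
  refine integral_congr_ae (Eventually.of_forall fun y => ?_)
  simp only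
  rw [real_inner_comm, real_inner_smul_left, inner_cr]
  ring

theorem Ae_le (h : Lk.Base X φ m M L) : ∃ C : ℝ, 0 < C ∧ ∀ ν : Measure S, Lk.Inv φ ν →
    ∀ ε, 0 < ε → ε ≤ 1 → ∀ x : S, ‖Ae X ν ε x‖ ≤ C * ∫ y, a1 ε x y ∂ν := by
  obtain ⟨C, hC, hk⟩ := ke_a1
  have hM : 0 < M := h.m_pos.trans_le ((h.low pole).trans (h.up pole))
  refine ⟨24 * M * C, by positivity, fun ν hν ε h0 h1 x => ?_⟩
  have := hν.1
  rw [← integral_const_mul]
  refine norm_integral_le_of_norm_le (int_cont (continuous_const.mul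
    ((cont_a1 h0).comp (f := fun y : S => (x, y)) (by fun_prop))))
    (Eventually.of_forall fun y => ?_)
  have k0 := ke_nonneg ε x y
  rw [norm_smul, norm_neg, Real.norm_of_nonneg k0]
  calc ke ε x y * ‖CrossAux.cr x y (X y)‖ ≤ ke ε x y * (24 * (‖(x : E) - y‖ * M)) := by
        refine mul_le_mul_of_nonneg_left ((norm_cr x y _).trans ?_) k0
        gcongr
        exact h.up y
    _ = 24 * M * (ke ε x y * ‖(x : E) - y‖) := by ring
    _ ≤ 24 * M * (C * a1 ε x y) :=
        mul_le_mul_of_nonneg_left (hk ε h0 h1 x y) (by positivity)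
    _ = _ := by ring

end Pool.Agent.Lib.MP_399f8e_an.Sg
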