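import Pool.Agent.Lib.MP_399f8e_an.Sg.Defs

open Set Filter Topology Metric MeasureTheory
open scoped RealInnerProductSpace

noncomputable section

namespace Pool.Agent.Lib.MP_399f8e_an.Sg

open Rg

namespace SigAux

theorem meas_N : Measurable N :=
  measurable_of_continuousOn_compl_singleton 0 fun _ hy => (continuousAt_N hy).continuousWithinAt

theorem cont_chi : Continuous Gg.chi := Gg.cd_chi.continuous

theorem chi_one {z : E} (h1 : 2 ≤ ‖z‖ ^ 2) (h2 : ‖z‖ ^ 2 ≤ 3) : Gg.chi z = 1 := by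
  refine Gg.gam.one_of_mem_closedBall ?_
  have h : Gg.gam.rIn = 1 / 2 := rfl
  rw [mem_closedBall, Real.dist_eq, h, abs_le]
  constructor <;> linarith

theorem int_chi {f : E → ℝ} (hf : Continuous f) (h : ∀ y, Gg.chi y = 0 → f y = 0) :
    Integrable f :=
  hf.integrable_of_hasCompactSupport (Gg.supp h)

theorem int_sig {g : S → ℝ} (hg : Continuous g) :
    ∫ x, g x ∂sig = ∫ y, Gg.chi y * g (N y) := by
  rw [sig, integral_map meas_N.aemeasurable hg.aestronglyMeasurable,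
    integral_withDensity_eq_integral_toReal_smul cont_chi.measurable.ennreal_ofReal
      (Eventually.of_forall fun _ => ENNReal.ofReal_lt_top)]
  refine integral_congr_ae (Eventually.of_forall fun y => ?_)
  simp only [ENNReal.toReal_ofReal (Gg.chi_nonneg y), smul_eq_mul]

theorem vol_le {A : Set S} (hA : MeasurableSet A) {B : Set E} (hB : MeasurableSet B)
    (h : ∀ z ∈ B, N z ∈ A ∧ Gg.chi z = 1) : volume B ≤ sig A := by
  rw [sig, Measure.map_apply meas_N hA]
  refine le_trans ?_ (measure_mono (fun z hz => (h z hz).1 : B ⊆ N ⁻¹' A))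
  rw [withDensity_apply _ hB, setLIntegral_congr_fun hB (g := fun _ => 1)
    (fun z hz => by simp only [(h z hz).2, ENNReal.ofReal_one]), setLIntegral_one]

/-- A thin box along the ray of the pole. -/
def box (ε : ℝ) : Set E := WithLp.ofLp ⁻¹'
  Icc ![3 / 2, -(ε / 4), -(ε / 4), -(ε / 4)] ![8 / 5, ε / 4, ε / 4, ε / 4]

theorem meas_box (ε : ℝ) : MeasurableSet (box ε) :=
  measurableSet_Icc.preimage (PiLp.volume_preserving_ofLp (Fin 4)).measurable

theorem vol_box {ε : ℝ} (h : 0 < ε) : volume (box ε) = ENNReal.ofReal (1 / 80 * ε ^ 3) := by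
  rw [box, (PiLp.volume_preserving_ofLp (Fin 4)).measure_preimage
    measurableSet_Icc.nullMeasurableSet, Real.volume_Icc_pi, Fin.prod_univ_four]
  have e : ε / 4 - -(ε / 4) = ε / 2 := by ring
  simp only [Matrix.cons_val_zero, Matrix.cons_val_one, Matrix.cons_val, e]
  rw [← ENNReal.ofReal_mul (by norm_num), ← ENNReal.ofReal_mul (by positivity),
    ← ENNReal.ofReal_mul (by positivity)]
  congr 1
  ring

theorem mem_box {ε : ℝ} (h0 : 0 < ε) (h1 : ε ≤ 1 / 2) {w : E} (hw : w ∈ box ε) :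
    2 ≤ ‖w‖ ^ 2 ∧ ‖w‖ ^ 2 ≤ 3 ∧ 1 ≤ w 0 ∧ ‖w - w 0 • (pole : E)‖ ≤ ε / 2 := by
  have a0 : 3 / 2 ≤ w 0 := hw.1 0
  have a1 : -(ε / 4) ≤ w 1 := hw.1 1
  have a2 : -(ε / 4) ≤ w 2 := hw.1 2
  have a3 : -(ε / 4) ≤ w 3 := hw.1 3
  have b0 : w 0 ≤ 8 / 5 := hw.2 0
  have b1 : w 1 ≤ ε / 4 := hw.2 1
  have b2 : w 2 ≤ ε / 4 := hw.2 2
  have b3 : w 3 ≤ ε / 4 := hw.2 3
  have c1 := sq_le_sq' a1 b1
  have c2 := sq_le_sq' a2 b2
  have c3 := sq_le_sq' a3 b3
  have e1 : ‖w‖ ^ 2 = w 0 ^ 2 + w 1 ^ 2 + w 2 ^ 2 + w 3 ^ 2 := by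
    rw [EuclideanSpace.real_norm_sq_eq, Fin.sum_univ_four]
  have e2 : ‖w - w 0 • (pole : E)‖ ^ 2 = w 1 ^ 2 + w 2 ^ 2 + w 3 ^ 2 := by
    rw [EuclideanSpace.real_norm_sq_eq, Fin.sum_univ_four]
    simp [pole]
  refine ⟨?_, ?_, by linarith, ?_⟩
  · nlinarith [sq_nonneg (w 1), sq_nonneg (w 2), sq_nonneg (w 3)]
  · nlinarith
  · refine abs_le_of_sq_le_sq' ?_ (by positivity) |>.2
    nlinarith

end SigAux

open SigAux

theorem sig_fin : IsFiniteMeasure sig := by
  have := isFiniteMeasure_withDensity_ofReal (int_chi cont_chi fun _ h => h).2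
  unfold sig
  infer_instance

theorem cont_chi_N {g : S → ℝ} (hg : Continuous g) :
    Continuous fun y : E => Gg.chi y * g (N y) := by
  rw [continuous_iff_continuousAt]
  intro y
  by_cases h : y = 0
  · subst h
    refine (continuousAt_const (y := (0 : ℝ))).congr ?_
    filter_upwards [ball_mem_nhds (0 : E) one_pos] with z hz
    have : Gg.chi z = 0 := by
      by_contra hc
      exact absurd (mem_ball_zero_iff.1 hz) (not_lt.2 (Gg.chi_ne hc).1.le)
    rw [this, zero_mul]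
  · exact cont_chi.continuousAt.mul (hg.continuousAt.comp (continuousAt_N h))

theorem J_sig {g : S → ℝ} (hg : Continuous g) :
    Gg.J (fun y => Gg.chi y * g (N y)) = ∫ x, g x ∂sig := by
  rw [int_sig hg, Gg.J_eq fun y h => by rw [h, zero_mul]]

theorem ball_le {g : S → ℝ} (hg : Continuous g) (h0 : ∀ x, 0 ≤ g x) {p : E} {r : ℝ}
    (h : ∀ z ∈ ball p r, 2 ≤ ‖z‖ ^ 2 ∧ ‖z‖ ^ 2 ≤ 3) :
    ∫ z in ball p r, g (N z) ≤ ∫ x, g x ∂sig := by
  rw [int_sig hg, setIntegral_congr_fun measurableSet_ball (g := fun y => Gg.chi y * g (N y))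
    fun z hz => by simp only [chi_one (h z hz).1 (h z hz).2, one_mul]]
  exact setIntegral_le_integral (int_chi (cont_chi_N hg) fun y h => by rw [h, zero_mul])
    (Eventually.of_forall fun y => mul_nonneg (Gg.chi_nonneg y) (h0 _))

theorem sig_rot (R : E ≃ₗᵢ[ℝ] E) {g : E → ℝ} (hg : Continuous g) :
    ∫ x : S, g (R x) ∂sig = ∫ x : S, g x ∂sig := by
  rw [int_sig (g := fun x : S => g (R x)) (by fun_prop),
    int_sig (g := fun x : S => g x) (by fun_prop),
    ← R.measurePreserving.integral_comp R.toHomeomorph.measurableEmbedding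
      fun y => Gg.chi y * g (N y)]
  refine integral_congr_ae (Eventually.of_forall fun y => ?_)
  have e : Gg.chi (R y) = Gg.chi y := by simp only [Gg.chi, R.norm_map]
  by_cases hc : Gg.chi y = 0
  · simp only [e, hc, zero_mul]
  · have h : y ≠ 0 := by
      rintro rfl
      have := (Gg.chi_ne hc).1
      rw [norm_zero] at this
      linarith
    have h' : R y ≠ 0 := fun h2 => h (R.map_eq_zero_iff.1 h2)
    simp only [e, coe_N h, coe_N h', R.norm_map, map_smul]

theorem sig3 : ∃ c : ℝ, 0 < c ∧ ∀ (y : S) (ε : ℝ), 0 < ε → ε ≤ 1 / 2 →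
    c * ε ^ 3 ≤ sig.real {x : S | ‖(x : E) - y‖ ≤ ε} := by
  refine ⟨1 / 80, by norm_num, fun y ε h0 h1 => ?_⟩
  have := sig_fin
  obtain ⟨R, hR⟩ : ∃ R : E ≃ₗᵢ[ℝ] E, R y = pole :=
    ⟨_, Submodule.reflection_sub (by rw [norm_coe, norm_coe])⟩
  have hA : MeasurableSet {x : S | ‖(x : E) - y‖ ≤ ε} :=
    (isClosed_le (by fun_prop) continuous_const).measurableSet
  have h2 := vol_le hA ((meas_box ε).preimage R.continuous.measurable) fun z hz => by
    obtain ⟨a1, a2, a3, a4⟩ := mem_box h0 h1 hz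
    rw [R.norm_map] at a1 a2
    refine ⟨?_, chi_one a1 a2⟩
    have t0 : 0 < R z 0 := by linarith
    rw [← hR, ← map_smul, ← map_sub, R.norm_map] at a4
    have e : (R z 0)⁻¹ • z - (y : E) = (R z 0)⁻¹ • (z - R z 0 • (y : E)) := by
      rw [smul_sub, smul_smul, inv_mul_cancel₀ t0.ne', one_smul]
    have a5 : ‖(R z 0)⁻¹ • z - (y : E)‖ ≤ ε / 2 := by
      rw [e, norm_smul, Real.norm_of_nonneg (inv_pos.2 t0).le]
      exact (mul_le_of_le_one_left (norm_nonneg _) (inv_le_one_of_one_le₀ a3)).trans a4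
    have a6 := N_near y _ (a5.trans_lt (by linarith))
    rw [N_smul (inv_pos.2 t0)] at a6
    show ‖(N z : E) - y‖ ≤ ε
    linarith
  rw [R.measurePreserving.measure_preimage (meas_box ε).nullMeasurableSet, vol_box h0] at h2
  exact (ENNReal.ofReal_le_iff_le_toReal (measure_ne_top _ _)).1 h2

end Pool.Agent.Lib.MP_399f8e_an.Sg
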