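import Pool.Agent.Lib.MP_399f8e_an.Sg.Pot

open Set Filter Topology Metric MeasureTheory
open scoped RealInnerProductSpace

noncomputable section

namespace Pool.Agent.Lib.MP_399f8e_an.Sg

open Rg

variable {X : S → E} {φ : ℝ → S → S} {m M L : ℝ} {μ ν : Measure S}

namespace UnifAux

theorem meas_gg (hX : Continuous X) (x : S) : Measurable fun y : S => Lk.gg X (x, y) :=
  Measurable.comp (g := Lk.gg X) (f := fun y : S => (x, y)) (Lk.measurable_gg hX)
    measurable_prodMk_left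

theorem meas_abs (hX : Continuous X) (η : ℝ) (x : S) :
    Measurable fun y : S => (1 - Lk.cut η x y) * |Lk.gg X (x, y)| := by
  have c : Continuous fun y : S => Lk.cut η x y := by
    unfold Lk.cut
    fun_prop
  exact (measurable_const.sub c.measurable).mul (meas_gg hX x).abs

/-- the near part is small at every point -/
theorem near_pt (h : Lk.Base X φ m M L) (hν : Lk.Inv φ ν) {ε : ℝ} (hε : 0 < ε) :
    ∃ η : ℝ, 0 < η ∧ ∀ x : S,
      ∫⁻ y : S, ENNReal.ofReal ((1 - Lk.cut η x y) * |Lk.gg X (x, y)|) ∂ν ≤ ENNReal.ofReal ε := by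
  have := hν.1
  obtain ⟨t₀, C₀, hN⟩ := Lk.exists_near (M := M) h.m_pos h.L_pos
  have hn : Lk.Near X φ t₀ C₀ := hN X φ h.toLF fun x => ⟨h.low x, h.up x⟩
  have hC := hn.C_pos
  have hτ : 0 < 2 * C₀ / ε := by positivity
  obtain ⟨η₀, ζ, hη₀, hζ, hr⟩ := h.exists_noRet (half_pos hn.t_pos) (2 * C₀ / ε)
  have hη : 0 < η₀ / 4 := by positivity
  refine ⟨η₀ / 4, hη, fun x => ?_⟩
  have hr' : ∀ (y : S) (t : ℝ), t₀ / 2 ≤ t → t ≤ 2 * C₀ / ε →
      2 * (η₀ / 4) < ‖(φ t y : E) - y‖ := by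
    intro y t h1 h2
    have h3 := hr (Lk.orb φ y) 0 t (h.toLF.pc (fun x => by simpa using hζ.le) y 0 t)
      (by simpa using h1) (by simpa using h2)
    simp only [Lk.orb, h.zero] at h3
    linarith
  have hf : Measurable fun y : S =>
      ENNReal.ofReal ((1 - Lk.cut (η₀ / 4) x y) * |Lk.gg X (x, y)|) :=
    (meas_abs h.toLF.contW (η₀ / 4) x).ennreal_ofReal
  have h1 := Lk.AMeasAux.inv_mul h.toIsFl hν hf (2 * C₀ / ε)
  have h2 : ∫⁻ y : S, (∫⁻ t in Icc 0 (2 * C₀ / ε), ENNReal.ofReal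
      ((1 - Lk.cut (η₀ / 4) x (φ t y)) * |Lk.gg X (x, φ t y)|)) ∂ν ≤
      ENNReal.ofReal ε * ENNReal.ofReal (2 * C₀ / ε) := by
    refine (lintegral_mono fun y => hn.window h.toLF hη hτ hr' x y hτ.le).trans ?_
    rw [lintegral_const, measure_univ, mul_one, ← ENNReal.ofReal_mul hε.le]
    refine le_of_eq (congrArg _ ?_)
    field_simp
    ring
  rw [← h1] at h2
  exact (ENNReal.mul_le_mul_iff_left (ENNReal.ofReal_pos.2 hτ).ne' ENNReal.ofReal_ne_top).1 h2

theorem abs_nonneg' (X : S → E) (η : ℝ) (x y : S) :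
    0 ≤ (1 - Lk.cut η x y) * |Lk.gg X (x, y)| :=
  mul_nonneg (sub_nonneg.2 (Lk.cut_mem η _ _).2) (abs_nonneg _)

theorem int_abs (hX : Continuous X) {η ε : ℝ} (hε : 0 ≤ ε) {x : S}
    (hb : ∫⁻ y : S, ENNReal.ofReal ((1 - Lk.cut η x y) * |Lk.gg X (x, y)|) ∂ν ≤
      ENNReal.ofReal ε) :
    Integrable (fun y : S => (1 - Lk.cut η x y) * |Lk.gg X (x, y)|) ν ∧
      ∫ y : S, (1 - Lk.cut η x y) * |Lk.gg X (x, y)| ∂ν ≤ ε := by
  have h0 : 0 ≤ᵐ[ν] fun y : S => (1 - Lk.cut η x y) * |Lk.gg X (x, y)| :=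
    Eventually.of_forall (abs_nonneg' X η x)
  have hm := (meas_abs hX η x).aestronglyMeasurable (μ := ν)
  refine ⟨⟨hm, (hasFiniteIntegral_iff_ofReal h0).2 (hb.trans_lt ENNReal.ofReal_lt_top)⟩, ?_⟩
  rw [integral_eq_lintegral_of_nonneg_ae h0 hm]
  exact ENNReal.toReal_le_of_le_ofReal hε hb

theorem int_gg (h : Lk.Base X φ m M L) (hν : Lk.Inv φ ν) (x : S) :
    Integrable (fun y : S => Lk.gg X (x, y)) ν := by
  have := hν.1
  obtain ⟨η, hη, hb⟩ := near_pt h hν one_pos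
  have hX := h.toLF.contW
  refine Integrable.mono' (((int_abs hX zero_le_one (hb x)).1).add
    (integrable_const (2880 * M ^ 2 / η ^ 2)))
    (meas_gg hX x).aestronglyMeasurable (Eventually.of_forall fun y => ?_)
  have h1 := Lk.gf_le hη h.up x y
  have h2 := Lk.AMeasAux.norm_near X η (x, y)
  rw [Lk.AMeasAux.split X η (x, y)]
  refine (norm_add_le _ _).trans ?_
  rw [h2, Real.norm_eq_abs]
  simp only [Pi.add_apply]
  linarith

theorem ptw (h : Lk.Base X φ m M L) {η δ ε : ℝ} (hη : 0 < η) (hδ : 0 ≤ δ) (x y : S)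
    (hg : η / 2 ≤ ‖(x : E) - y‖ → Lk.gaussK ⟪(x : E), y⟫ - ke ε x y ≤ δ) :
    |ke ε x y * Lk.vol x (X x) y (X y) - Lk.gg X (x, y)| ≤
      (1 - Lk.cut η x y) * |Lk.gg X (x, y)| + δ * (24 * M ^ 2) := by
  have hM : 0 < M := h.m_pos.trans_le ((h.low pole).trans (h.up pole))
  have h0 := abs_nonneg' X η x y
  by_cases hx : x = y
  · subst hx
    have : Lk.vol x (X x) x (X x) = 0 := by
      rw [Lk.vol_eq]
      ring
    simp only [Lk.gg, Lk.Gk, this, mul_zero, sub_zero, abs_zero, zero_add]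
    positivity
  have k0 := ke_nonneg ε x y
  have k1 := ke_le ε x y hx
  have e : |ke ε x y * Lk.vol x (X x) y (X y) - Lk.gg X (x, y)| =
      (Lk.gaussK ⟪(x : E), y⟫ - ke ε x y) * |Lk.vol x (X x) y (X y)| := by
    rw [abs_sub_comm, ← abs_of_nonneg (sub_nonneg.2 k1), ← abs_mul]
    simp only [Lk.gg, Lk.Gk]
    congr 1
    ring
  rw [e]
  rcases le_total ‖(x : E) - y‖ (η / 2) with k | k
  · have e2 : |Lk.gg X (x, y)| = Lk.gaussK ⟪(x : E), y⟫ * |Lk.vol x (X x) y (X y)| := by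
      simp only [Lk.gg, Lk.Gk]
      rw [abs_mul, abs_of_nonneg (k0.trans k1)]
    rw [Lk.cut_zero hη k, e2]
    have : 0 ≤ δ * (24 * M ^ 2) := by positivity
    nlinarith [mul_nonneg k0 (abs_nonneg (Lk.vol x (X x) y (X y)))]
  · have hv := Lk.abs_vol_le x (X x) y (X y)
    rw [norm_coe, norm_coe, one_mul, mul_one] at hv
    have hv2 : ‖X x‖ * ‖X y‖ ≤ M ^ 2 := by
      rw [sq]
      exact mul_le_mul (h.up x) (h.up y) (norm_nonneg _) hM.le
    have := mul_le_mul (hg k) (hv.trans (mul_le_mul_of_nonneg_left hv2 (by norm_num)))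
      (abs_nonneg _) hδ
    linarith

end UnifAux

open UnifAux

theorem unif (h : Lk.Base X φ m M L) (hν : Lk.Inv φ ν) {δ : ℝ} (hδ : 0 < δ) :
    ∃ ε₀ : ℝ, 0 < ε₀ ∧ ∀ ε, 0 < ε → ε < ε₀ → ∀ x : S,
      |⟪Ae X ν ε x, X x⟫ - hh X ν x| ≤ δ := by
  have := hν.1
  have hX := h.toLF.contW
  have hM : 0 < M := h.m_pos.trans_le ((h.low pole).trans (h.up pole))
  obtain ⟨η, hη, hb⟩ := near_pt h hν (half_pos hδ)
  have hδ' : 0 < δ / 2 / (24 * M ^ 2) := by positivity
  obtain ⟨ε₀, h0, hg⟩ := ke_gap (half_pos hη) hδ'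
  refine ⟨ε₀, h0, fun ε h1 h2 x => ?_⟩
  obtain ⟨i1, i2⟩ := int_abs hX (half_pos hδ).le (hb x)
  have c1 : Continuous fun y : S => ke ε x y * Lk.vol x (X x) y (X y) :=
    ((cd_ke h1).continuous.comp (f := fun y : S => ((x : E), (y : E))) (by fun_prop)).mul
      (Lk.continuous_vol.comp (f := fun y : S => ((x : E), X x, (y : E), X y)) (by fun_prop))
  rw [Ae_inner hX h1, hh, ← integral_sub (PotAux.int_cont c1) (int_gg h hν x)]
  have h3 := norm_integral_le_of_norm_le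
    (i1.add (integrable_const (δ / 2 / (24 * M ^ 2) * (24 * M ^ 2))))
    (f := fun y : S => ke ε x y * Lk.vol x (X x) y (X y) - Lk.gg X (x, y))
    (Eventually.of_forall fun y => ptw h hη hδ'.le x y (hg ε h1 h2 x y))
  simp only [Pi.add_apply] at h3
  rw [integral_add i1 (integrable_const _), integral_const, probReal_univ, one_smul,
    div_mul_cancel₀ _ (by positivity)] at h3
  exact h3.trans (by linarith)

theorem cont_hh (h : Lk.Base X φ m M L) (hν : Lk.Inv φ ν) : Continuous (hh X ν) := by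
  have := hν.1
  have hX := h.toLF.contW
  refine continuous_of_uniform_approx_of_continuous fun u hu => ?_
  obtain ⟨δ, hδ, hu⟩ := Metric.mem_uniformity_dist.1 hu
  obtain ⟨ε₀, h0, hb⟩ := unif h hν (half_pos hδ)
  refine ⟨fun x => ⟪Ae X ν (ε₀ / 2) x, X x⟫,
    ((cd_Ae hX (half_pos h0)).continuous.comp continuous_subtype_val).inner hX, fun x => hu ?_⟩
  rw [Real.dist_eq, abs_sub_comm]
  exact (hb _ (half_pos h0) (half_lt_self h0) x).trans_lt (half_lt_self hδ)

theorem cont_HT (h : Lk.Base X φ m M L) (hν : Lk.Inv φ ν) (T : ℝ) :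
    Continuous (HT X φ ν T) :=
  intervalIntegral.continuous_parametric_intervalIntegral_of_continuous' (μ := volume)
    (f := fun (x : S) (s : ℝ) => hh X ν (φ s x))
    ((cont_hh h hν).comp (h.cont.comp continuous_swap)) 0 T

theorem int_HT (h : Lk.Base X φ m M L) (hμ : Lk.Inv φ μ) (hν : Lk.Inv φ ν) (T : ℝ) :
    ∫ x, HT X φ ν T x ∂μ = T * Lk.lk X μ ν := by
  have := hμ.1
  have := hν.1
  have hc := cont_hh h hν
  obtain ⟨B, hB⟩ := (isCompact_range hc).isBounded.exists_norm_le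
  have hi : Integrable (Function.uncurry fun (s : ℝ) (x : S) => hh X ν (φ s x))
      ((volume.restrict (uIoc 0 T)).prod μ) := by
    have : IsFiniteMeasure (volume.restrict (uIoc (0 : ℝ) T)) :=
      ⟨by simp [uIoc]⟩
    exact Integrable.of_bound (hc.comp h.cont).aestronglyMeasurable B
      (Eventually.of_forall fun p => hB _ (mem_range_self _))
  have e : ∀ s : ℝ, ∫ x, hh X ν (φ s x) ∂μ = Lk.lk X μ ν := fun s => by
    rw [Lk.lk, integral_prod _ (h.integrable hμ hν)]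
    have := integral_map (μ := μ) (hμ.2 s).measurable.aemeasurable
      (f := hh X ν) hc.aestronglyMeasurable
    rw [(hμ.2 s).map_eq] at this
    exact this.symm
  unfold HT
  rw [← intervalIntegral_integral_swap hi]
  simp only [e, intervalIntegral.integral_const, sub_zero, smul_eq_mul]

theorem lk_comm (hμ : Lk.Inv φ μ) (hν : Lk.Inv φ ν) : Lk.lk X μ ν = Lk.lk X ν μ := by
  have := hμ.1
  have := hν.1
  rw [Lk.lk, Lk.lk, ← integral_prod_swap]
  exact integral_congr_ae (Eventually.of_forall fun p => Lk.Gk_symm _ _ _ _)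

end Pool.Agent.Lib.MP_399f8e_an.Sg
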