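import Pool.Agent.Lib.MP_399f8e_an.Sg.Face
import Pool.Agent.Lib.MP_399f8e_an.Sg.DPot
import Pool.Agent.Lib.MP_399f8e_an.Sg.Sig2
import Pool.Agent.Lib.MP_399f8e_an.Sg.Unif
import Pool.Agent.Lib.MP_399f8e_an.Sg.Idb

open Set Filter Topology Metric MeasureTheory
open scoped RealInnerProductSpace

noncomputable section

namespace Pool.Agent.Lib.MP_399f8e_an.Sg

open Rg

variable {φ : ℝ → S → S} {m M L : ℝ}

theorem Fw_near (h : Ctx φ m M L) {ν : Measure S} (hν : Lk.Inv φ ν) {T δ : ℝ} (hT : 0 ≤ T)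
    (hδ : 0 < δ) : ∃ ε₀ : ℝ, 0 < ε₀ ∧ ∀ ε, 0 < ε → ε < ε₀ → ∀ y : E, 1 / 2 < ‖y‖ →
      |Gg.Fw (Gg.Gm φ) (Ae (Gg.gen φ) ν ε) (fun _ => 1) T y - HT (Gg.gen φ) φ ν T (N y)| ≤ δ := by
  have := hν.1
  have hφ : IsFl φ := h.base.toIsFl
  obtain ⟨ε₀, h0, h1⟩ := unif h.base hν (δ := δ / (T + 1)) (by positivity)
  refine ⟨ε₀, h0, fun ε hε hε' y hy => ?_⟩
  have hA : ContDiff ℝ 1 (Ae (Gg.gen φ) ν ε) :=
    (cd_Ae h.base.toLF.contW hε).of_le (by norm_num)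
  have c1 : Continuous fun s : ℝ =>
      1 * Gg.pb (Gg.Gm φ) (Ae (Gg.gen φ) ν ε) (1, 0) (s, y) :=
    continuous_const.mul ((Gg.cd_pb h.cd2 hA _).continuous.comp (by fun_prop))
  have c2 : Continuous fun s : ℝ => hh (Gg.gen φ) ν (φ s (N y)) :=
    (cont_hh h.base hν).comp (hφ.cont.comp (f := fun s : ℝ => (s, N y)) (by fun_prop))
  rw [Gg.Fw, HT, ← intervalIntegral.integral_sub (c1.intervalIntegrable _ _)
    (c2.intervalIntegrable _ _)]
  have h2 := intervalIntegral.norm_integral_le_of_norm_le_const (a := 0) (b := T)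
    (C := δ / (T + 1)) (f := fun s => 1 * Gg.pb (Gg.Gm φ) (Ae (Gg.gen φ) ν ε) (1, 0) (s, y)
      - hh (Gg.gen φ) ν (φ s (N y))) (fun s _ => by
      rw [one_mul, Gg.pb, Gg.Gm_eq _ hy, Gg.D_t h.cd2 hφ _ hy, Real.norm_eq_abs]
      exact h1 ε hε hε' _)
  rw [Real.norm_eq_abs, sub_zero, abs_of_nonneg hT] at h2
  refine h2.trans ?_
  rw [div_mul_eq_mul_div, div_le_iff₀ (by positivity)]
  nlinarith

namespace StepAux

theorem swap {f : ℝ × E → ℝ} (hf : Continuous f) (a b r : ℝ) :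
    ∫ w in ball (0 : E) r, ∫ s in a..b, f (s, w) = ∫ s in a..b, ∫ w in ball (0 : E) r, f (s, w) := by
  symm
  refine intervalIntegral_integral_swap (f := fun s w => f (s, w)) ?_
  rw [Measure.prod_restrict]
  exact (hf.continuousOn.integrableOn_compact
    (isCompact_uIcc.prod (isCompact_closedBall (0 : E) r))).mono_set
    (prod_mono uIoc_subset_uIcc ball_subset_closedBall)

theorem transl (g : E → ℝ) (c : E) (r : ℝ) :
    ∫ w in ball (0 : E) r, g (c + w) = ∫ z in ball c r, g z := by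
  have h := (measurePreserving_add_left (volume : Measure E) c).setIntegral_preimage_emb
    (measurableEmbedding_addLeft c) g (ball c r)
  have e : (fun x => c + x) ⁻¹' ball c r = ball (0 : E) r := by
    ext x
    simp [dist_eq_norm]
  rwa [e] at h

/-- the averaged majorant in the ambient space -/
def gm (φ : ℝ → S → S) (ν : Measure S) (ε : ℝ) (q : ℝ × E) : ℝ :=
  ∫ y : S, ε ^ 2 / (‖Gg.Gm φ q - y‖ ^ 2 + ε ^ 2) ^ 2 ∂ν

theorem gm_eq (ν : Measure S) (ε s : ℝ) {z : E} (hz : 1 / 2 < ‖z‖) :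
    gm φ ν ε (s, z) = ∫ y, a2 ε (φ s (N z)) y ∂ν := by
  simp only [gm, a2, Gg.Gm_eq _ hz]

theorem cont_gm (hG : Continuous (Gg.Gm φ)) (ν : Measure S) [IsFiniteMeasure ν] {ε : ℝ}
    (hε : 0 < ε) : Continuous (gm φ ν ε) := by
  have h := continuous_parametric_integral_of_continuous (μ := ν)
    (f := fun (q : ℝ × E) (y : S) => ε ^ 2 / (‖Gg.Gm φ q - y‖ ^ 2 + ε ^ 2) ^ 2)
    (continuous_const.div (by fun_prop) fun p => by positivity) isCompact_univ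
  simp only [Measure.restrict_univ] at h
  exact h

theorem shell {x₀ : S} {z : E} (hz : ‖z - (8 / 5 : ℝ) • (x₀ : E)‖ ≤ 1 / 20) :
    2 ≤ ‖z‖ ^ 2 ∧ ‖z‖ ^ 2 ≤ 3 ∧ 1 / 2 < ‖z‖ := by
  have h1 := abs_norm_sub_norm_le z ((8 / 5 : ℝ) • (x₀ : E))
  rw [norm_smul, norm_coe, Real.norm_eq_abs, abs_of_pos (by norm_num : (0 : ℝ) < 8 / 5)] at h1
  have h2 := abs_le.1 (h1.trans hz)
  refine ⟨by nlinarith [h2.1, h2.2], by nlinarith [h2.1, h2.2], by linarith [h2.1]⟩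

theorem avg {g : ℝ × E → ℝ} (cg : Continuous g) {T r η : ℝ} (hT : 0 ≤ T) (hr : 0 < r)
    (hη : 0 < η) (p v : E) (hb : ∀ θ ∈ Icc (0 : ℝ) 1, ∀ s ∈ Ioc (0 : ℝ) T,
      ‖∫ z in ball (p + θ • v) r, g (s, z)‖
        ≤ η * (volume : Measure E).real (ball 0 r) / (T + 1)) :
    ∃ w ∈ ball (0 : E) r, ∫ θ in (0 : ℝ)..1, ∫ s in (0 : ℝ)..T, g (s, p + θ • v + w) ≤ η := by
  have hv0 : (volume : Measure E) (ball 0 r) ≠ 0 := (measure_ball_pos _ _ hr).ne'
  have hv1 : (volume : Measure E) (ball 0 r) ≠ ⊤ := measure_ball_lt_top.ne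
  have hV : 0 < (volume : Measure E).real (ball 0 r) := ENNReal.toReal_pos hv0 hv1
  have c1 : Continuous fun q : ℝ × E => ∫ s in (0 : ℝ)..T, g (s, p + q.1 • v + q.2) :=
    intervalIntegral.continuous_parametric_intervalIntegral_of_continuous'
      (f := fun (q : ℝ × E) (s : ℝ) => g (s, p + q.1 • v + q.2))
      (cg.comp (f := fun x : (ℝ × E) × ℝ => (x.2, p + x.1.1 • v + x.1.2)) (by fun_prop)) 0 T
  have c2 : Continuous fun w : E =>
      ∫ θ in (0 : ℝ)..1, ∫ s in (0 : ℝ)..T, g (s, p + θ • v + w) :=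
    intervalIntegral.continuous_parametric_intervalIntegral_of_continuous'
      (f := fun (w : E) (θ : ℝ) => ∫ s in (0 : ℝ)..T, g (s, p + θ • v + w))
      (c1.comp continuous_swap) 0 1
  obtain ⟨w, hw, hle⟩ := exists_le_setAverage hv0 hv1
    ((c2.continuousOn.integrableOn_compact (isCompact_closedBall (0 : E) r)).mono_set
      ball_subset_closedBall)
  refine ⟨w, hw, hle.trans ?_⟩
  rw [setAverage_eq, smul_eq_mul, inv_mul_le_iff₀ hV]
  have e1 := swap c1 0 1 r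
  simp only at e1
  rw [e1]
  have key : ∀ θ ∈ Icc (0 : ℝ) 1, ‖∫ w in ball (0 : E) r, ∫ s in (0 : ℝ)..T,
      g (s, p + θ • v + w)‖
        ≤ η * (volume : Measure E).real (ball 0 r) / (T + 1) * |T - 0| := fun θ hθ => by
    have e2 := swap (f := fun q : ℝ × E => g (q.1, p + θ • v + q.2))
      (cg.comp (f := fun q : ℝ × E => (q.1, p + θ • v + q.2)) (by fun_prop)) 0 T r
    simp only at e2
    rw [e2]
    refine intervalIntegral.norm_integral_le_of_norm_le_const fun s hs' => ?_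
    rw [uIoc_of_le hT] at hs'
    rw [transl (fun z => g (s, z))]
    exact hb θ hθ s hs'
  have h3 := intervalIntegral.norm_integral_le_of_norm_le_const (a := 0) (b := 1)
    (fun θ hθ => key θ (by rw [uIoc_of_le zero_le_one] at hθ; exact Ioc_subset_Icc_self hθ))
  refine (le_abs_self _).trans (h3.trans ?_)
  rw [sub_zero, sub_zero, abs_one, mul_one, abs_of_nonneg hT, div_mul_eq_mul_div,
    div_le_iff₀ (by positivity)]
  nlinarith [mul_pos hη hV]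

theorem cont_mean (hφ : IsFl φ) (ν : Measure S) [IsFiniteMeasure ν] {ε : ℝ} (hε : 0 < ε)
    (s : ℝ) : Continuous fun x : S => ∫ y, a2 ε (φ s x) y ∂ν := by
  have h1 : Continuous (φ s) := hφ.cont.comp (f := fun x : S => (s, x)) (by fun_prop)
  have h2 := continuous_parametric_integral_of_continuous (μ := ν)
    (f := fun (x y : S) => a2 ε (φ s x) y)
    ((cont_a2 hε).comp (f := fun q : S × S => (φ s q.1, q.2)) (by fun_prop)) isCompact_univ
  simp only [Measure.restrict_univ] at h2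
  exact h2

theorem pick (h : Ctx φ m M L) {ν : Measure S} (hν : Lk.Inv φ ν) {T K r η : ℝ} (hT : 0 ≤ T)
    (hK : 1 ≤ K) (hB : Bi φ T K) (hr : 0 < r) (hη : 0 < η) {x₀ : S} {p v : E}
    (hs : ∀ θ ∈ Icc (0 : ℝ) 1, ∀ z ∈ ball (p + θ • v) r,
      ‖z - (8 / 5 : ℝ) • (x₀ : E)‖ ≤ 1 / 20) :
    ∃ ε₀ : ℝ, 0 < ε₀ ∧ ∀ ε, 0 < ε → ε < ε₀ → ∃ w ∈ ball (0 : E) r,
      ∫ θ in (0 : ℝ)..1, ∫ s in (0 : ℝ)..T, gm φ ν ε (s, p + θ • v + w) ≤ η := by
  have := hν.1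
  have hφ : IsFl φ := h.base.toIsFl
  have hV : 0 < (volume : Measure E).real (ball 0 r) :=
    ENNReal.toReal_pos (measure_ball_pos _ _ hr).ne' measure_ball_lt_top.ne
  obtain ⟨ε₀, h0, h1⟩ := mean2 hφ hK
    (δ := η * (volume : Measure E).real (ball 0 r) / (T + 1)) (by positivity)
  refine ⟨ε₀, h0, fun ε hε hε' => avg (cont_gm h.cd.continuous ν hε) hT hr hη p v
    fun θ hθ s hs' => ?_⟩
  have n0 : ∀ x : S, 0 ≤ ∫ y, a2 ε (φ s x) y ∂ν := fun x =>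
    integral_nonneg fun y => a2_nonneg _ _ _
  rw [setIntegral_congr_fun measurableSet_ball
    (fun z hz => gm_eq ν ε s (shell (hs θ hθ z hz)).2.2), Real.norm_eq_abs,
    abs_of_nonneg (integral_nonneg fun z => n0 _)]
  exact (ball_le (cont_mean hφ ν hε s) n0
    fun z hz => ⟨(shell (hs θ hθ z hz)).1, (shell (hs θ hθ z hz)).2.1⟩).trans
    (h1 ν hν s ε (hB _ (by rw [abs_neg, abs_of_pos hs'.1]; exact hs'.2)) hε hε')

theorem cont_Rr {G : ℝ × E → E} {A : E → E} (hG : ContDiff ℝ 2 G) (hA : ContDiff ℝ 1 A) (v : E) :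
    Continuous fun q : ℝ × E => Rr G A q.1 v q.2 := by
  have c1 := (Gg.cd_D hG).continuous
  have c2 := hA.continuous_fderiv one_ne_zero
  have c3 := hG.continuous
  simp only [Rr, Dc.dA]
  fun_prop

theorem ftc {G : ℝ × E → E} {A : E → E} (hG : ContDiff ℝ 2 G) (hA : ContDiff ℝ 1 A) (T : ℝ)
    (q v : E) : Gg.Fw G A (fun _ => 1) T (q + v) - Gg.Fw G A (fun _ => 1) T q
      = (∫ θ in (0 : ℝ)..1, Gg.pb G A (0, v) (T, q + θ • v))
        - (∫ θ in (0 : ℝ)..1, Gg.pb G A (0, v) (0, q + θ • v))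
        - ∫ θ in (0 : ℝ)..1, ∫ s in (0 : ℝ)..T, Rr G A s v (q + θ • v) := by
  have hF := (Gg.has_Fw hG hA (θ := fun _ => 1) continuous_const T).1
  have c1 : ∀ t : ℝ, Continuous fun θ : ℝ => Gg.pb G A (0, v) (t, q + θ • v) := fun t =>
    (Gg.cd_pb hG hA _).continuous.comp (by fun_prop)
  have c2 : Continuous fun θ : ℝ => ∫ s in (0 : ℝ)..T, Rr G A s v (q + θ • v) :=
    intervalIntegral.continuous_parametric_intervalIntegral_of_continuous'
      (f := fun (θ s : ℝ) => Rr G A s v (q + θ • v))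
      ((cont_Rr hG hA v).comp (f := fun x : ℝ × ℝ => (x.2, q + x.1 • v)) (by fun_prop)) 0 T
  have h1 : ∀ θ : ℝ, HasDerivAt (fun θ : ℝ => Gg.Fw G A (fun _ => 1) T (q + θ • v))
      (Gg.pb G A (0, v) (T, q + θ • v) - Gg.pb G A (0, v) (0, q + θ • v)
        - ∫ s in (0 : ℝ)..T, Rr G A s v (q + θ • v)) θ := fun θ => by
    have h2 : HasDerivAt (fun θ : ℝ => q + θ • v) v θ := by
      simpa using ((hasDerivAt_id θ).smul_const v).const_add q
    rw [← dF hG hA]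
    exact (hF.differentiable one_ne_zero _).hasFDerivAt.comp_hasDerivAt θ h2
  have h3 := intervalIntegral.integral_eq_sub_of_hasDerivAt (a := 0) (b := 1)
    (fun θ _ => h1 θ) ((((c1 T).sub (c1 0)).sub c2).intervalIntegrable _ _)
  rw [intervalIntegral.integral_sub (((c1 T).fun_sub (c1 0)).intervalIntegrable _ _)
    (c2.intervalIntegrable _ _), intervalIntegral.integral_sub ((c1 T).intervalIntegrable _ _)
    ((c1 0).intervalIntegrable _ _)] at h3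
  simpa using h3.symm

theorem third (h : Ctx φ m M L) {ν : Measure S} (hν : Lk.Inv φ ν) {T K C ε : ℝ} (hT : 0 ≤ T)
    (hK : 1 ≤ K) (hB : Bi φ T K) (hC : 0 < C) (hε : 0 < ε)
    (he : ∀ (x : S) (v : E), |Dc.dA (Ae (Gg.gen φ) ν ε) x (Gg.gen φ x) v|
      ≤ C * ‖v‖ * ∫ y, a2 ε x y ∂ν) {q v : E} (hv : ‖v‖ ≤ 1)
    (hq : ∀ θ ∈ Icc (0 : ℝ) 1, 1 / 2 < ‖q + θ • v‖) :
    |∫ θ in (0 : ℝ)..1, ∫ s in (0 : ℝ)..T, Rr (Gg.Gm φ) (Ae (Gg.gen φ) ν ε) s v (q + θ • v)|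
      ≤ C * (4 * K) * ∫ θ in (0 : ℝ)..1, ∫ s in (0 : ℝ)..T, gm φ ν ε (s, q + θ • v) := by
  have := hν.1
  have hφ : IsFl φ := h.base.toIsFl
  have cg := cont_gm h.cd.continuous ν hε
  have c1 : Continuous fun θ : ℝ => ∫ s in (0 : ℝ)..T, gm φ ν ε (s, q + θ • v) :=
    intervalIntegral.continuous_parametric_intervalIntegral_of_continuous'
      (f := fun (θ s : ℝ) => gm φ ν ε (s, q + θ • v)) (cg.comp (by fun_prop)) 0 T
  rw [← intervalIntegral.integral_const_mul, ← Real.norm_eq_abs]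
  refine intervalIntegral.norm_integral_le_of_norm_le zero_le_one
    (Eventually.of_forall fun θ hθ => ?_) ((continuous_const.mul c1).intervalIntegrable _ _)
  have hz := hq θ (Ioc_subset_Icc_self hθ)
  rw [← intervalIntegral.integral_const_mul]
  refine intervalIntegral.norm_integral_le_of_norm_le hT
    (Eventually.of_forall fun s hs => ?_)
    ((continuous_const.mul (cg.comp (by fun_prop))).intervalIntegrable _ _)
  rw [Real.norm_eq_abs, Rr, Gg.Gm_eq _ hz, Gg.D_t h.cd2 hφ _ hz, gm_eq ν ε s hz]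
  refine (he _ _).trans (mul_le_mul_of_nonneg_right ?_
    (integral_nonneg fun y => a2_nonneg _ _ _))
  have h2 := Gg.bd_of_lp h.cd2 (by linarith : 0 ≤ K)
    (hB s (by rw [abs_of_pos hs.1]; exact hs.2)) _ v hz
  refine mul_le_mul_of_nonneg_left (h2.trans ?_) hC.le
  nlinarith

end StepAux

theorem step (h : Ctx φ m M L) : ∃ ℓ C : ℝ, 0 < ℓ ∧ 0 < C ∧
    ∀ ν : Measure S, Lk.Inv φ ν → ∀ T K κ : ℝ, 0 ≤ T → 1 ≤ K → 1 ≤ κ → Bi φ T K →
      Tay (Gg.Gm φ) T κ → Tay (Gg.Gm φ) 0 κ → ∀ (x₀ : S) (n p v : E), Seg (Gg.gen φ) ℓ x₀ n p v →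
        |HT (Gg.gen φ) φ ν T (N (p + v)) - HT (Gg.gen φ) φ ν T (N p)|
          ≤ C * K ^ 3 * Real.log (2 + κ * K) := by
  obtain ⟨ℓ, C, hℓ, hℓ', hC, hf⟩ := face h
  obtain ⟨C', hC', he⟩ := Ae_err h.base
  refine ⟨ℓ / 2, 2 * C, by positivity, by positivity,
    fun ν hν T K κ hT hK hκ hB t1 t0 x₀ n p v hs => ?_⟩
  have := hν.1
  refine le_of_forall_pos_le_add fun δ hδ => ?_
  have hseg : ∀ θ ∈ Icc (0 : ℝ) 1, ∀ w : E, ‖w‖ ≤ ℓ / 2 →
      ‖p + θ • v + w - (8 / 5 : ℝ) • (x₀ : E)‖ ≤ 1 / 20 := fun θ hθ w hw => by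
    have e : p + θ • v + w - (8 / 5 : ℝ) • (x₀ : E)
        = (p - (8 / 5 : ℝ) • (x₀ : E)) + θ • v + w := by abel
    have h1 : ‖θ • v‖ ≤ ℓ / 2 := by
      rw [norm_smul, Real.norm_eq_abs, abs_of_nonneg hθ.1]
      nlinarith [hs.short, hθ.1, hθ.2, norm_nonneg v]
    rw [e]
    linarith [norm_add₃_le (a := p - (8 / 5 : ℝ) • (x₀ : E)) (b := θ • v) (c := w), hs.near]
  have hc : ∀ z : E, 1 / 2 < ‖z‖ → ∃ r > 0, ∀ w : E, ‖w‖ < r →
      |HT (Gg.gen φ) φ ν T (N (z + w)) - HT (Gg.gen φ) φ ν T (N z)| ≤ δ / 5 := fun z hz => by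
    have h1 : ContinuousAt (fun z => HT (Gg.gen φ) φ ν T (N z)) z :=
      (cont_HT h.base hν T).continuousAt.comp
        (continuousAt_N (norm_pos_iff.1 (by linarith)))
    obtain ⟨r, hr, h2⟩ := Metric.continuousAt_iff.1 h1 (δ / 5) (by positivity)
    exact ⟨r, hr, fun w hw => (h2 (by simpa [dist_eq_norm] using hw)).le⟩
  have hp0 := (StepAux.shell (hseg 0 ⟨le_rfl, zero_le_one⟩ 0 (by rw [norm_zero]; positivity))).2.2
  have hp1 := (StepAux.shell (hseg 1 ⟨zero_le_one, le_rfl⟩ 0 (by rw [norm_zero]; positivity))).2.2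
  rw [zero_smul, add_zero, add_zero] at hp0
  rw [one_smul, add_zero] at hp1
  obtain ⟨r0, hr0, k0⟩ := hc p hp0
  obtain ⟨r1, hr1, k1⟩ := hc (p + v) hp1
  obtain ⟨ε₁, hε₁, g1⟩ := StepAux.pick h hν hT hK hB (r := min (ℓ / 2) (min r0 r1))
    (η := δ / 5 / (C' * (4 * K))) (by positivity) (by positivity) (x₀ := x₀) (p := p) (v := v)
    (fun θ hθ z hz => by
      have h1 := hseg θ hθ (z - (p + θ • v))
        ((mem_ball_iff_norm.1 hz).le.trans (min_le_left _ _))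
      rwa [add_sub_cancel] at h1)
  obtain ⟨ε₂, hε₂, g2⟩ := Fw_near h hν hT (δ := δ / 5) (by positivity)
  obtain ⟨ε, hε, hε'⟩ := exists_between (show 0 < min 1 (min ε₁ ε₂) by positivity)
  rw [lt_min_iff, lt_min_iff] at hε'
  obtain ⟨w, hw, g3⟩ := g1 ε hε hε'.2.1
  rw [mem_ball_zero_iff, lt_min_iff, lt_min_iff] at hw
  have hA : ContDiff ℝ 1 (Ae (Gg.gen φ) ν ε) :=
    (cd_Ae h.base.toLF.contW hε).of_le (by norm_num)
  have hq : ∀ θ ∈ Icc (0 : ℝ) 1, 1 / 2 < ‖p + w + θ • v‖ := fun θ hθ => by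
    rw [add_right_comm]
    exact (StepAux.shell (hseg θ hθ w hw.1.le)).2.2
  have hs' : Seg (Gg.gen φ) ℓ x₀ n (p + w) v :=
    ⟨hs.unit, hs.px, hs.pX, by
      rw [add_sub_right_comm]
      linarith [norm_add_le (p - (8 / 5 : ℝ) • (x₀ : E)) w, hs.near, hw.1],
      by linarith [hs.short], hs.tr⟩
  have f1 := hf ν hν ε T K κ hε hK hκ (hB T (abs_of_nonneg hT).le)
    (hB _ (by rw [abs_neg, abs_of_nonneg hT])) t1 x₀ n (p + w) v hs'
  have f0 := hf ν hν ε 0 K κ hε hK hκ (hB 0 (by simpa using hT))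
    (hB _ (by simpa using hT)) t0 x₀ n (p + w) v hs'
  have f2 := StepAux.third h hν hT hK hB hC' hε (he ν hν ε hε hε'.1.le) (q := p + w) (v := v)
    (by linarith [hs.short]) hq
  simp only [add_right_comm p _ w] at g3
  have f3 : C' * (4 * K) * ∫ θ in (0 : ℝ)..1, ∫ s in (0 : ℝ)..T,
      StepAux.gm φ ν ε (s, p + w + θ • v) ≤ δ / 5 := by
    rw [le_div_iff₀ (by positivity), mul_comm] at g3
    exact g3
  have e := StepAux.ftc h.cd2 hA T (p + w) v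
  have q0 := hq 0 ⟨le_rfl, zero_le_one⟩
  have q1 := hq 1 ⟨zero_le_one, le_rfl⟩
  rw [zero_smul, add_zero] at q0
  rw [one_smul] at q1
  have a0 := abs_le.1 (g2 ε hε hε'.2.2 _ q0)
  have a1 := abs_le.1 (g2 ε hε hε'.2.2 _ q1)
  have b0 := abs_le.1 (k0 w hw.2.1)
  have b1 := abs_le.1 (k1 w hw.2.2)
  rw [add_right_comm p v w] at b1
  have f1' := abs_le.1 f1
  have f0' := abs_le.1 f0
  have f2' := abs_le.1 (f2.trans f3)
  rw [abs_le]
  constructor <;> linarith [a0.1, a0.2, a1.1, a1.2, b0.1, b0.2, b1.1, b1.2, f1'.1, f1'.2,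
    f0'.1, f0'.2, f2'.1, f2'.2]

end Pool.Agent.Lib.MP_399f8e_an.Sg
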